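import Mathlib

/-!
# Basic facts on the planar Laplacian
-/

set_option autoImplicit false

open Filter Topology MeasureTheory InnerProductSpace Laplacian

namespace Pool.Agent.Helper86.Mems

/-- second directional derivative. -/
noncomputable def dd (u : ℂ → ℝ) (v : ℂ) (x : ℂ) : ℝ := fderiv ℝ (fun y => fderiv ℝ u y v) x v

/-- the Laplacian in coordinates. -/
noncomputable def lap (u : ℂ → ℝ) (x : ℂ) : ℝ := dd u 1 x + dd u Complex.I x

lemma differentiableAt_fderiv {u : ℂ → ℝ} {x : ℂ} (h : ContDiffAt ℝ 2 u x) :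
    DifferentiableAt ℝ (fderiv ℝ u) x :=
  (h.fderiv_right (m := 1) (by norm_num)).differentiableAt (by norm_num)

lemma dd_eq {u : ℂ → ℝ} {x : ℂ} (h : ContDiffAt ℝ 2 u x) (v : ℂ) :
    dd u v x = (fderiv ℝ (fderiv ℝ u) x v) v := by
  unfold dd
  rw [fderiv_clm_apply (differentiableAt_fderiv h) (differentiableAt_const v)]
  simp

lemma dd_eq_iterated {u : ℂ → ℝ} {x : ℂ} (h : ContDiffAt ℝ 2 u x) (v : ℂ) :
    dd u v x = iteratedFDeriv ℝ 2 u x ![v, v] := by
  rw [dd_eq h, iteratedFDeriv_two_apply]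
  simp

lemma lap_eq {u : ℂ → ℝ} {x : ℂ} (h : ContDiffAt ℝ 2 u x) : (Δ u) x = lap u x := by
  rw [laplacian_eq_iteratedFDeriv_complexPlane]
  simp only [lap]
  rw [dd_eq_iterated h, dd_eq_iterated h]

/-- The Laplacian can be computed in any rotated frame. -/
lemma lap_rot {u : ℂ → ℝ} {x : ℂ} (h : ContDiffAt ℝ 2 u x) {e : ℂ} (he : ‖e‖ = 1) :
    lap u x = dd u e x + dd u (Complex.I * e) x := by
  simp only [lap, dd_eq h]
  set B := fderiv ℝ (fderiv ℝ u) x with hB
  have hsymm : ∀ v w, B v w = B w v := by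
    intro v w
    have := (h.isSymmSndFDerivAt (by simp))
    exact this v w
  have hlin : ∀ a b : ℝ, (B (a • (1 : ℂ) + b • Complex.I)) (a • (1 : ℂ) + b • Complex.I) =
      a ^ 2 * (B 1) 1 + 2 * a * b * (B 1) Complex.I + b ^ 2 * (B Complex.I) Complex.I := by
    intro a b
    simp only [map_add, map_smul, add_apply, smul_apply, smul_eq_mul]
    rw [hsymm Complex.I 1]
    ring
  have h1 : e = e.re • (1 : ℂ) + e.im • Complex.I := by
    apply Complex.ext <;> simp
  have h2 : Complex.I * e = (-e.im) • (1 : ℂ) + e.re • Complex.I := by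
    apply Complex.ext <;> simp
  have h3 : e.re ^ 2 + e.im ^ 2 = 1 := by
    have := Complex.sq_norm e
    rw [he, Complex.normSq_apply] at this
    linarith
  have h4 := hlin e.re e.im
  have h5 := hlin (-e.im) e.re
  rw [← h1] at h4
  rw [← h2] at h5
  rw [h4, h5]
  linear_combination (-(B 1 1) - B Complex.I Complex.I) * h3

/-- one dimensional second order condition. -/
lemma second_deriv_nonneg {φ : ℝ → ℝ} {t : ℝ} (hmin : IsLocalMin φ t)
    (hc : ContinuousAt φ t) : 0 ≤ deriv (deriv φ) t := by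
  by_contra hneg
  push Not at hneg
  have h0 : deriv φ t = 0 := hmin.deriv_eq_zero
  have hmax : IsLocalMax φ t := isLocalMax_of_deriv_deriv_neg hneg h0 hc
  have hconst : φ =ᶠ[𝓝 t] fun _ => φ t := by
    filter_upwards [hmin, hmax] with s h1 h2
    exact le_antisymm h2 h1
  have h1 : deriv φ =ᶠ[𝓝 t] deriv fun _ => φ t := hconst.deriv
  have h2 := h1.deriv_eq
  simp at h2
  linarith

lemma deriv_line {u : ℂ → ℝ} {x v : ℂ} {t : ℝ} (h : DifferentiableAt ℝ u (x + (t : ℂ) * v)) :
    HasDerivAt (fun s : ℝ => u (x + (s : ℂ) * v)) (fderiv ℝ u (x + (t : ℂ) * v) v) t := by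
  have h1 : HasDerivAt (fun s : ℝ => x + (s : ℂ) * v) v t := by
    have := ((Complex.ofRealCLM.hasDerivAt (x := t)).mul_const v).const_add x
    simpa using this
  exact h.hasFDerivAt.comp_hasDerivAt t h1

lemma second_deriv_line {u : ℂ → ℝ} {x v : ℂ} (h : ContDiffAt ℝ 2 u x) :
    deriv (deriv fun s : ℝ => u (x + (s : ℂ) * v)) 0 = dd u v x := by
  have hev : ∀ᶠ y in 𝓝 x, ContDiffAt ℝ 2 u y := h.eventually (by simp)
  have hcont : Tendsto (fun s : ℝ => x + (s : ℂ) * v) (𝓝 0) (𝓝 x) := by
    have : Continuous fun s : ℝ => x + (s : ℂ) * v := by fun_prop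
    have h2 := this.tendsto 0
    simpa using h2
  have h1 : (deriv fun s : ℝ => u (x + (s : ℂ) * v)) =ᶠ[𝓝 0]
      fun s : ℝ => fderiv ℝ u (x + (s : ℂ) * v) v := by
    filter_upwards [hcont.eventually hev] with s hs
    exact (deriv_line (hs.differentiableAt (by norm_num))).deriv
  rw [h1.deriv_eq]
  have h3 : DifferentiableAt ℝ (fun y => fderiv ℝ u y v) (x + ((0 : ℝ) : ℂ) * v) := by
    simp only [Complex.ofReal_zero, zero_mul, add_zero]
    exact (differentiableAt_fderiv h).clm_apply (differentiableAt_const v)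
  have := (deriv_line h3).deriv
  rw [this]
  simp [dd]

lemma dd_nonneg_of_isLocalMin {u : ℂ → ℝ} {x : ℂ} (h : ContDiffAt ℝ 2 u x)
    (hmin : IsLocalMin u x) (v : ℂ) : 0 ≤ dd u v x := by
  rw [← second_deriv_line h]
  have hcont : Tendsto (fun s : ℝ => x + (s : ℂ) * v) (𝓝 0) (𝓝 x) := by
    have : Continuous fun s : ℝ => x + (s : ℂ) * v := by fun_prop
    have h2 := this.tendsto 0
    simpa using h2
  refine second_deriv_nonneg ?_ ?_
  · have := hcont.eventually hmin
    unfold IsLocalMin IsMinFilter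
    simpa using this
  · have h1 : ContinuousAt u (x + ((0 : ℝ) : ℂ) * v) := by simpa using h.continuousAt
    exact ContinuousAt.comp (f := fun s : ℝ => x + (s : ℂ) * v) h1 (by fun_prop)

/-- at an interior minimum the Laplacian is nonnegative. -/
lemma lap_nonneg_of_isLocalMin {u : ℂ → ℝ} {x : ℂ} (h : ContDiffAt ℝ 2 u x)
    (hmin : IsLocalMin u x) : 0 ≤ lap u x :=
  add_nonneg (dd_nonneg_of_isLocalMin h hmin _) (dd_nonneg_of_isLocalMin h hmin _)

lemma dd_sub {u w : ℂ → ℝ} {x : ℂ} (hu : ContDiffAt ℝ 2 u x) (hw : ContDiffAt ℝ 2 w x) (v : ℂ) :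
    dd (fun y => u y - w y) v x = dd u v x - dd w v x := by
  rw [dd_eq_iterated (hu.sub hw), dd_eq_iterated hu, dd_eq_iterated hw,
    fun_iteratedFDeriv_sub_apply hu hw]
  simp

lemma dd_add {u w : ℂ → ℝ} {x : ℂ} (hu : ContDiffAt ℝ 2 u x) (hw : ContDiffAt ℝ 2 w x) (v : ℂ) :
    dd (fun y => u y + w y) v x = dd u v x + dd w v x := by
  rw [dd_eq_iterated (hu.add hw), dd_eq_iterated hu, dd_eq_iterated hw,
    fun_iteratedFDeriv_add_apply hu hw]
  simp

lemma lap_sub {u w : ℂ → ℝ} {x : ℂ} (hu : ContDiffAt ℝ 2 u x) (hw : ContDiffAt ℝ 2 w x) :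
    lap (fun y => u y - w y) x = lap u x - lap w x := by
  simp only [lap, dd_sub hu hw]; ring

lemma lap_add {u w : ℂ → ℝ} {x : ℂ} (hu : ContDiffAt ℝ 2 u x) (hw : ContDiffAt ℝ 2 w x) :
    lap (fun y => u y + w y) x = lap u x + lap w x := by
  simp only [lap, dd_add hu hw]; ring

/-- the scalar product of gradients. -/
noncomputable def gdot (u w : ℂ → ℝ) (x : ℂ) : ℝ :=
  fderiv ℝ u x 1 * fderiv ℝ w x 1 + fderiv ℝ u x Complex.I * fderiv ℝ w x Complex.I

/-- **Integration by parts.** -/
theorem ibp {Ω : Set ℂ} (hΩ : IsOpen Ω) {w ζ : ℂ → ℝ} (hw : ContDiffOn ℝ 2 w Ω)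
    (hζ : ContDiff ℝ 1 ζ) (hc : HasCompactSupport ζ) (hs : tsupport ζ ⊆ Ω) :
    ∫ x, ζ x * lap w x = - ∫ x, gdot ζ w x := by
  have hwat : ∀ x ∈ Ω, ContDiffAt ℝ 2 w x := fun x hx => hw.contDiffAt (hΩ.mem_nhds hx)
  have hζ0 : ∀ x, x ∉ Ω → ζ x = 0 := fun x hx =>
    image_eq_zero_of_notMem_tsupport fun h => hx (hs h)
  have hdζ0 : ∀ x, x ∉ Ω → fderiv ℝ ζ x = 0 := fun x hx => by
    have : x ∉ tsupport (fderiv ℝ ζ) := fun h => hx (hs (tsupport_fderiv_subset ℝ h))
    exact image_eq_zero_of_notMem_tsupport this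
  -- continuity on `Ω` of the relevant functions
  have hf1 : ContinuousOn (fderiv ℝ w) Ω := hw.continuousOn_fderiv_of_isOpen hΩ (by norm_num)
  have key : ∀ v : ℂ, Integrable (fun x => ζ x * dd w v x) ∧
      Integrable (fun x => fderiv ℝ ζ x v * fderiv ℝ w x v) ∧
      ∫ x, ζ x * dd w v x = - ∫ x, fderiv ℝ ζ x v * fderiv ℝ w x v := by
    intro v
    have hdw : ContDiffOn ℝ 1 (fun y => fderiv ℝ w y v) Ω :=
      (hw.fderiv_of_isOpen hΩ (by norm_num)).clm_apply contDiffOn_const
    have hddc : ContinuousOn (fun x => dd w v x) Ω := by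
      have := hdw.continuousOn_fderiv_of_isOpen hΩ (by norm_num)
      exact this.clm_apply continuousOn_const
    -- products are continuous with compact support
    have hcont1 : Continuous fun x => ζ x * dd w v x := by
      rw [continuous_iff_continuousAt]
      intro x
      by_cases hx : x ∈ tsupport ζ
      · exact (hζ.continuous.continuousAt).mul (hddc.continuousAt (hΩ.mem_nhds (hs hx)))
      · have : (fun x => ζ x * dd w v x) =ᶠ[𝓝 x] fun _ => 0 := by
          filter_upwards [notMem_tsupport_iff_eventuallyEq.1 hx] with y hy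
          simp [hy]
        exact continuousAt_const.congr this.symm
    have hcont2 : Continuous fun x => fderiv ℝ ζ x v * fderiv ℝ w x v := by
      rw [continuous_iff_continuousAt]
      intro x
      have h1 : Continuous fun x => fderiv ℝ ζ x v :=
        (hζ.continuous_fderiv (by norm_num)).clm_apply continuous_const
      by_cases hx : x ∈ tsupport ζ
      · exact (h1.continuousAt).mul
          (hdw.continuousOn.continuousAt (hΩ.mem_nhds (hs hx)))
      · have h2 : x ∉ tsupport (fderiv ℝ ζ) := fun h => hx (tsupport_fderiv_subset ℝ h)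
        have : (fun x => fderiv ℝ ζ x v * fderiv ℝ w x v) =ᶠ[𝓝 x] fun _ => 0 := by
          filter_upwards [notMem_tsupport_iff_eventuallyEq.1 h2] with y hy
          simp [hy]
        exact continuousAt_const.congr this.symm
    have hcont3 : Continuous fun x => ζ x * fderiv ℝ w x v := by
      rw [continuous_iff_continuousAt]
      intro x
      by_cases hx : x ∈ tsupport ζ
      · exact (hζ.continuous.continuousAt).mul
          (hdw.continuousOn.continuousAt (hΩ.mem_nhds (hs hx)))
      · have : (fun x => ζ x * fderiv ℝ w x v) =ᶠ[𝓝 x] fun _ => 0 := by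
          filter_upwards [notMem_tsupport_iff_eventuallyEq.1 hx] with y hy
          simp [hy]
        exact continuousAt_const.congr this.symm
    have hint1 : Integrable fun x => ζ x * dd w v x :=
      hcont1.integrable_of_hasCompactSupport hc.mul_right
    have hcζ : HasCompactSupport fun x => fderiv ℝ ζ x v := hc.fderiv_apply ℝ v
    have hint2 : Integrable fun x => fderiv ℝ ζ x v * fderiv ℝ w x v :=
      hcont2.integrable_of_hasCompactSupport hcζ.mul_right
    have hint3 : Integrable fun x => ζ x * fderiv ℝ w x v :=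
      hcont3.integrable_of_hasCompactSupport hc.mul_right
    refine ⟨hint1, hint2, ?_⟩
    exact integral_mul_fderiv_eq_neg_fderiv_mul_of_integrable (f := ζ)
      (g := fun y => fderiv ℝ w y v) (v := v) hint2 hint1 hint3
      (fun x _ => (hζ.differentiable (by norm_num)).differentiableAt)
      (fun x hx => (hdw.differentiableOn (by norm_num)).differentiableAt (hΩ.mem_nhds (hs hx)))
  obtain ⟨h1, h2, h3⟩ := key 1
  obtain ⟨h4, h5, h6⟩ := key Complex.I
  have e1 : (fun x => ζ x * lap w x) = fun x => ζ x * dd w 1 x + ζ x * dd w Complex.I x := by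
    ext x; simp only [lap]; ring
  rw [e1, integral_add h1 h4, h3, h6]
  have e2 : (fun x => gdot ζ w x) = fun x => fderiv ℝ ζ x 1 * fderiv ℝ w x 1 +
      fderiv ℝ ζ x Complex.I * fderiv ℝ w x Complex.I := rfl
  rw [e2, integral_add h2 h5]
  ring

end Pool.Agent.Helper86.Mems
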