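import Pool.Agent.Helper86.Mems.Nonlin

/-!
# The differential inequality argument
-/

set_option autoImplicit false

open Filter Topology MeasureTheory Set

namespace Pool.Agent.Helper86.Mems

variable {f f' : ℝ → ℝ}

/-- The dichotomy argument. All constants in the conclusion depend only on `f, r₀, C₃, c₀`. -/
theorem ode_bound (hf : Nonlin f f') {r₀ C₃ c₀ : ℝ} (hr₀ : 0 < r₀) (hC₃ : 0 < C₃)
    (hc₀ : 0 < c₀) (hc₀1 : c₀ < 1) :
    ∃ c, 0 < c ∧ ∀ (lam : ℝ) (W W' : ℝ → ℝ), 0 < lam → (∀ r, HasDerivAt W (W' r) r) →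
      (∀ r ∈ Icc 0 r₀, 0 ≤ W' r) → 0 < W 0 → W r₀ < 1 →
      (∀ r ∈ Ioc 0 r₀, r * W' r ≤ lam * r ^ 2 * f (1 - W r) + 1 / 4 * W r) →
      (∫ r in (0 : ℝ)..r₀, lam * r * f' (1 - W r)) ≤ 1 / 4 →
      (∀ r ∈ Icc 0 r₀, W r ≤ W 0 + C₃ * r) → c₀ ≤ W r₀ → c ≤ W 0 := by
  -- choice of `c₁`
  obtain ⟨a, ha0, -, ha1, hfa⟩ := hf.exists_large (2 * f (1 - c₀)) (b := 0) one_pos
  set c₁ : ℝ := 1 - a with hc₁
  have hc₁0 : 0 < c₁ := by linarith
  have hc₁1 : c₁ < 1 := by linarith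
  have hfc₁ : 2 * f (1 - c₀) ≤ f (1 - c₁) := by
    rw [hc₁]; simpa using hfa
  set σ : ℝ := min 1 (c₁ / (4 * C₃ * r₀)) with hσ
  have hσ0 : 0 < σ := lt_min one_pos (by positivity)
  have hσ1 : σ ≤ 1 := min_le_left _ _
  have hσ2 : C₃ * r₀ * σ ≤ c₁ / 4 := by
    have h1 : σ ≤ c₁ / (4 * C₃ * r₀) := min_le_right _ _
    calc C₃ * r₀ * σ ≤ C₃ * r₀ * (c₁ / (4 * C₃ * r₀)) := by gcongr
      _ = c₁ / 4 := by field_simp
  refine ⟨σ * c₁ / 4, by positivity, ?_⟩
  intro lam W W' hlam hW hW'0 hW0 hW1 hA hB hC hD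
  have hWc : Continuous W := continuous_iff_continuousAt.2 fun r => (hW r).continuousAt
  have hWmono : MonotoneOn W (Icc 0 r₀) := by
    refine monotoneOn_of_deriv_nonneg (convex_Icc _ _) hWc.continuousOn
      (fun r _ => (hW r).differentiableAt.differentiableWithinAt) fun r hr => ?_
    rw [interior_Icc] at hr
    rw [(hW r).deriv]
    exact hW'0 r (Ioo_subset_Icc_self hr)
  have h00 : (0 : ℝ) ∈ Icc 0 r₀ := ⟨le_rfl, hr₀.le⟩
  have hr0r0 : r₀ ∈ Icc 0 r₀ := ⟨hr₀.le, le_rfl⟩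
  have hWpos : ∀ r ∈ Icc 0 r₀, 0 < W r := fun r hr => hW0.trans_le (hWmono h00 hr hr.1)
  have hWlt : ∀ r ∈ Icc 0 r₀, W r < 1 := fun r hr => (hWmono hr hr0r0 hr.2).trans_lt hW1
  have hmem : ∀ r ∈ Icc 0 r₀, 1 - W r ∈ Ioo (0 : ℝ) 1 := fun r hr =>
    ⟨by linarith [hWlt r hr], by linarith [hWpos r hr]⟩
  have hmem' : ∀ r ∈ Icc 0 r₀, 1 - W r ∈ Ico (0 : ℝ) 1 := fun r hr => Ioo_subset_Ico_self (hmem r hr)
  -- continuity of `f (1 - W)`
  have hfW : ContinuousOn (fun r => f (1 - W r)) (Icc 0 r₀) :=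
    hf.cont.comp (continuous_const.sub hWc).continuousOn hmem'
  have hf'W : ContinuousOn (fun r => f' (1 - W r)) (Icc 0 r₀) :=
    hf.cont'.comp (continuous_const.sub hWc).continuousOn hmem'
  have hdfW : ∀ r ∈ Icc 0 r₀, HasDerivAt (fun r => f (1 - W r)) (-(f' (1 - W r) * W' r)) r := by
    intro r hr
    have h1 := (hf.hasDeriv _ (hmem r hr)).comp r ((hW r).const_sub 1)
    refine h1.congr_deriv ?_
    ring
  set j : ℝ → ℝ := fun r => lam * r * f' (1 - W r) with hj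
  have hjc : ContinuousOn j (Icc 0 r₀) := by
    have : ContinuousOn (fun r : ℝ => lam * r) (Icc 0 r₀) := by fun_prop
    exact this.mul hf'W
  have hj0 : ∀ r ∈ Icc 0 r₀, 0 ≤ j r := fun r hr =>
    mul_nonneg (mul_nonneg hlam.le hr.1) (hf.nonneg' _ (hmem' r hr))
  have hjint : ∀ {s t : ℝ}, s ∈ Icc 0 r₀ → t ∈ Icc 0 r₀ → IntervalIntegrable j volume s t := by
    intro s t hs ht
    refine ContinuousOn.intervalIntegrable (hjc.mono ?_)
    rw [← uIcc_of_le hr₀.le]
    exact uIcc_subset_uIcc (by rwa [uIcc_of_le hr₀.le]) (by rwa [uIcc_of_le hr₀.le])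
  set J : ℝ → ℝ := fun r => ∫ s in (0 : ℝ)..r, j s with hJ
  have hJle : ∀ r ∈ Icc 0 r₀, J r ≤ 1 / 4 := by
    intro r hr
    have h1 : J r₀ = J r + ∫ s in r..r₀, j s := by
      simp only [hJ]
      rw [intervalIntegral.integral_add_adjacent_intervals (hjint h00 hr) (hjint hr hr0r0)]
    have h2 : 0 ≤ ∫ s in r..r₀, j s :=
      intervalIntegral.integral_nonneg hr.2 fun s hs => hj0 s ⟨hr.1.trans hs.1, hs.2⟩
    have h3 : J r₀ ≤ 1 / 4 := hB
    linarith
  have hJ0 : ∀ r ∈ Icc 0 r₀, 0 ≤ J r := fun r hr =>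
    intervalIntegral.integral_nonneg hr.1 fun s hs => hj0 s ⟨hs.1, hs.2.trans hr.2⟩
  have hJd : ∀ r ∈ Ioo 0 r₀, HasDerivAt J (j r) r := by
    intro r hr
    have hnhds : Icc 0 r₀ ∈ 𝓝 r := Icc_mem_nhds hr.1 hr.2
    refine intervalIntegral.integral_hasDerivAt_right (hjint h00 (Ioo_subset_Icc_self hr)) ?_
      (hjc.continuousAt hnhds)
    exact (hjc.mono Ioo_subset_Icc_self).stronglyMeasurableAtFilter isOpen_Ioo r hr
  have hJc : ContinuousOn J (Icc 0 r₀) := by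
    have := intervalIntegral.continuousOn_primitive_interval
      (μ := volume) (f := j) (a := 0) (b := r₀) (by
        rw [uIcc_of_le hr₀.le]; exact hjc.integrableOn_compact isCompact_Icc)
    rwa [uIcc_of_le hr₀.le] at this
  -- pointwise bound for `b`
  have hb : ∀ r ∈ Icc 0 r₀, lam * r ^ 2 * f' (1 - W r) ≤ 1 / 2 := by
    intro r hr
    have h1 : ∫ s in (0 : ℝ)..r, lam * s * f' (1 - W r) ≤ J r := by
      refine intervalIntegral.integral_mono_on hr.1 ?_ (hjint h00 hr) fun s hs => ?_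
      · exact Continuous.intervalIntegrable (by fun_prop) _ _
      · have hs' : s ∈ Icc 0 r₀ := ⟨hs.1, hs.2.trans hr.2⟩
        have h2 : f' (1 - W r) ≤ f' (1 - W s) :=
          hf.mono' (hmem' r hr) (hmem' s hs') (by linarith [hWmono hs' hr hs.2])
        have h3 : 0 ≤ lam * s := mul_nonneg hlam.le hs.1
        exact mul_le_mul_of_nonneg_left h2 h3
    have h2 : ∫ s in (0 : ℝ)..r, lam * s * f' (1 - W r) = lam * f' (1 - W r) * (r ^ 2 / 2) := by
      have : ∀ s : ℝ, lam * s * f' (1 - W r) = lam * f' (1 - W r) * s := fun s => by ring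
      simp_rw [this]
      rw [intervalIntegral.integral_const_mul, integral_id]
      ring
    have h3 := hJle r hr
    nlinarith
  -- the function `Q`
  set Q : ℝ → ℝ := fun r => lam * r ^ 2 * f (1 - W r) with hQ
  have hQc : ContinuousOn Q (Icc 0 r₀) := by
    have : ContinuousOn (fun r : ℝ => lam * r ^ 2) (Icc 0 r₀) := by fun_prop
    exact this.mul hfW
  have hQ0 : ∀ r ∈ Icc 0 r₀, 0 ≤ Q r := fun r hr =>
    mul_nonneg (by positivity) (zero_le_one.trans (hf.one_le (hmem' r hr)))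
  have hQd : ∀ r ∈ Icc 0 r₀, HasDerivAt Q
      (lam * (2 * r) * f (1 - W r) + lam * r ^ 2 * (-(f' (1 - W r) * W' r))) r := by
    intro r hr
    have h1 : HasDerivAt (fun r : ℝ => lam * r ^ 2) (lam * (2 * r)) r := by
      have := (hasDerivAt_pow 2 r).const_mul lam
      simpa using this
    exact h1.mul (hdfW r hr)
  -- `V = W - 2 Q`, `V / √r` antitone
  set V : ℝ → ℝ := fun r => W r - 2 * Q r with hV
  have hVd : ∀ r ∈ Icc 0 r₀, HasDerivAt V (W' r - 2 *
      (lam * (2 * r) * f (1 - W r) + lam * r ^ 2 * (-(f' (1 - W r) * W' r)))) r := fun r hr =>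
    (hW r).sub ((hQd r hr).const_mul 2)
  have hVineq : ∀ r ∈ Ioc 0 r₀, r * (W' r - 2 *
      (lam * (2 * r) * f (1 - W r) + lam * r ^ 2 * (-(f' (1 - W r) * W' r)))) ≤ V r / 2 := by
    intro r hr
    have hr' : r ∈ Icc 0 r₀ := Ioc_subset_Icc_self hr
    have h1 := hA r hr
    have h2 := hb r hr'
    have h3 := hQ0 r hr'
    have h4 : 0 ≤ r * W' r := mul_nonneg hr.1.le (hW'0 r hr')
    have h5 : 0 ≤ lam * r ^ 2 * f' (1 - W r) :=
      mul_nonneg (by positivity) (hf.nonneg' _ (hmem' r hr'))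
    have e : r * (W' r - 2 *
      (lam * (2 * r) * f (1 - W r) + lam * r ^ 2 * (-(f' (1 - W r) * W' r)))) =
        (r * W' r) * (1 + 2 * (lam * r ^ 2 * f' (1 - W r))) - 4 * Q r := by
      simp only [hQ]; ring
    rw [e]
    have h6 : (r * W' r) * (1 + 2 * (lam * r ^ 2 * f' (1 - W r))) ≤ (r * W' r) * 2 := by
      apply mul_le_mul_of_nonneg_left _ h4
      linarith
    simp only [hV, hQ] at h3 ⊢
    linarith
  have hVanti : ∀ s ∈ Ioc 0 r₀, ∀ t ∈ Ioc 0 r₀, s ≤ t → V t / √t ≤ V s / √s := by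
    intro s hs t ht hst
    have hanti : AntitoneOn (fun r => V r / √r) (Icc s t) := by
      have hsub : ∀ r ∈ Icc s t, r ∈ Ioc 0 r₀ := fun r hr => ⟨hs.1.trans_le hr.1, hr.2.trans ht.2⟩
      have hd : ∀ r ∈ Icc s t, HasDerivAt (fun r => V r / √r) (((W' r - 2 *
          (lam * (2 * r) * f (1 - W r) + lam * r ^ 2 * (-(f' (1 - W r) * W' r)))) * √r -
          V r * (1 / (2 * √r))) / (√r) ^ 2) r := by
        intro r hr
        have hr0 : 0 < r := (hsub r hr).1
        exact (hVd r (Ioc_subset_Icc_self (hsub r hr))).div (Real.hasDerivAt_sqrt hr0.ne')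
          (Real.sqrt_pos.2 hr0).ne'
      refine antitoneOn_of_deriv_nonpos (convex_Icc _ _)
        (fun r hr => (hd r hr).continuousAt.continuousWithinAt)
        (fun r hr => (hd r (interior_subset hr)).differentiableAt.differentiableWithinAt)
        fun r hr => ?_
      have hr' := interior_subset hr
      rw [(hd r hr').deriv]
      have hr0 : 0 < r := (hsub r hr').1
      have hsq : 0 < √r := Real.sqrt_pos.2 hr0
      have hss : √r * √r = r := Real.mul_self_sqrt hr0.le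
      apply div_nonpos_of_nonpos_of_nonneg _ (by positivity)
      have h1 := hVineq r (hsub r hr')
      set D := (W' r - 2 *
          (lam * (2 * r) * f (1 - W r) + lam * r ^ 2 * (-(f' (1 - W r) * W' r)))) with hDdef
      have e : D * √r - V r * (1 / (2 * √r)) = (r * D - V r / 2) / √r := by
        field_simp
        rw [show √r ^ 2 = r by rw [sq, hss]]
        ring
      rw [e]
      exact div_nonpos_of_nonpos_of_nonneg (by linarith) hsq.le
    exact hanti ⟨le_rfl, hst⟩ ⟨hst, le_rfl⟩ hst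
  -- the set `S`
  set S : Set ℝ := {r | r ∈ Icc 0 r₀ ∧ 4 * Q r ≤ W r} with hS
  have hQzero : Q 0 = 0 := by simp [hQ]
  have hScomp : IsCompact S := by
    have hcl : IsClosed S := by
      have hc : ContinuousOn (fun r => W r - 4 * Q r) (Icc 0 r₀) :=
        hWc.continuousOn.sub (continuousOn_const.mul hQc)
      have h1 := hc.preimage_isClosed_of_isClosed isClosed_Icc (isClosed_Ici (a := (0 : ℝ)))
      convert h1 using 1
      ext r
      simp [hS]
    exact isCompact_Icc.of_isClosed_subset hcl fun r hr => hr.1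
  have hSne : S.Nonempty := ⟨0, h00, by rw [hQzero]; linarith⟩
  obtain ⟨r₁, hr₁S, hr₁max⟩ := hScomp.exists_isGreatest hSne
  have hr₁ : r₁ ∈ Icc 0 r₀ := hr₁S.1
  have hbad : ∀ r ∈ Ioc r₁ r₀, W r < 4 * Q r := by
    intro r hr
    by_contra hcon
    push Not at hcon
    have : r ∈ S := ⟨⟨hr₁.1.trans hr.1.le, hr.2⟩, hcon⟩
    exact absurd (hr₁max this) (not_le.2 hr.1)
  have hr₁pos : 0 < r₁ := by
    rcases hr₁.1.eq_or_lt with h | h
    · exfalso
      have hc : ContinuousWithinAt (fun r => W r - 4 * Q r) (Icc 0 r₀) 0 :=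
        (hWc.continuousOn.sub (continuousOn_const.mul hQc)) 0 h00
      have h1 : ∀ᶠ r in 𝓝[Icc 0 r₀] (0 : ℝ), 0 < W r - 4 * Q r := by
        refine hc.eventually (lt_mem_nhds ?_)
        show 0 < W 0 - 4 * Q 0
        rw [hQzero]; linarith
      have h2 : ∀ᶠ r in 𝓝[>] (0 : ℝ), 0 < W r - 4 * Q r := by
        have h3 : 𝓝[>] (0 : ℝ) ≤ 𝓝[Icc 0 r₀] 0 :=
          nhdsWithin_le_of_mem (mem_of_superset (Ioc_mem_nhdsGT hr₀) Ioc_subset_Icc_self)
        exact h1.filter_mono h3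
      obtain ⟨r, h4, h5⟩ := (h2.and (Ioc_mem_nhdsGT hr₀)).exists
      have := hbad r (by rw [← h]; exact h5)
      linarith
    · exact h
  have hr₁' : r₁ ∈ Ioc 0 r₀ := ⟨hr₁pos, hr₁.2⟩
  -- Step 4 : on `[r₁, r₀]`
  have hstep4 : f (1 - W r₁) ≤ f (1 - W r₀) * Real.exp (1 / 2) := by
    have hmono : MonotoneOn (fun r => f (1 - W r) * Real.exp (2 * J r)) (Icc r₁ r₀) := by
      have hsub : Icc r₁ r₀ ⊆ Icc 0 r₀ := Icc_subset_Icc_left hr₁.1
      have hd : ∀ r ∈ Ioo r₁ r₀, HasDerivAt (fun r => f (1 - W r) * Real.exp (2 * J r))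
          (-(f' (1 - W r) * W' r) * Real.exp (2 * J r) +
            f (1 - W r) * (Real.exp (2 * J r) * (2 * j r))) r := by
        intro r hr
        have hr' : r ∈ Ioo 0 r₀ := ⟨hr₁pos.trans hr.1, hr.2⟩
        exact (hdfW r (Ioo_subset_Icc_self hr')).mul (((hJd r hr').const_mul 2).exp)
      refine monotoneOn_of_deriv_nonneg (convex_Icc _ _) ?_ ?_ ?_
      · exact (hfW.mono hsub).mul (Real.continuous_exp.comp_continuousOn
          (continuousOn_const.mul (hJc.mono hsub)))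
      · intro r hr
        rw [interior_Icc] at hr
        exact (hd r hr).differentiableAt.differentiableWithinAt
      · intro r hr
        rw [interior_Icc] at hr
        rw [(hd r hr).deriv]
        have hr' : r ∈ Ioc 0 r₀ := ⟨hr₁pos.trans hr.1, hr.2.le⟩
        have h1 := hA r hr'
        have h2 := hbad r ⟨hr.1, hr.2.le⟩
        have h3 : r * W' r ≤ r * (2 * lam * r * f (1 - W r)) := by
          simp only [hQ] at h2
          nlinarith
        have h4 : W' r ≤ 2 * lam * r * f (1 - W r) := le_of_mul_le_mul_left h3 hr'.1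
        have h5 := hf.nonneg' _ (hmem' r (Ioc_subset_Icc_self hr'))
        have h6 : f' (1 - W r) * W' r ≤ f' (1 - W r) * (2 * lam * r * f (1 - W r)) :=
          mul_le_mul_of_nonneg_left h4 h5
        have e : -(f' (1 - W r) * W' r) * Real.exp (2 * J r) +
            f (1 - W r) * (Real.exp (2 * J r) * (2 * j r)) =
            Real.exp (2 * J r) * (f' (1 - W r) * (2 * lam * r * f (1 - W r)) -
              f' (1 - W r) * W' r) := by
          simp only [hj]; ring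
        rw [e]
        exact mul_nonneg (Real.exp_pos _).le (by linarith)
    have h1 := hmono ⟨le_rfl, hr₁.2⟩ ⟨hr₁.2, le_rfl⟩ hr₁.2
    simp only at h1
    have h2 : (1 : ℝ) ≤ Real.exp (2 * J r₁) := Real.one_le_exp (by linarith [hJ0 r₁ hr₁])
    have h3 : Real.exp (2 * J r₀) ≤ Real.exp (1 / 2) :=
      Real.exp_le_exp.2 (by linarith [hJle r₀ hr0r0])
    have h4 := hf.one_le (hmem' r₁ hr₁)
    have h5 := hf.one_le (hmem' r₀ hr0r0)
    calc f (1 - W r₁) ≤ f (1 - W r₁) * Real.exp (2 * J r₁) :=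
          le_mul_of_one_le_right (by linarith) h2
      _ ≤ f (1 - W r₀) * Real.exp (2 * J r₀) := h1
      _ ≤ _ := mul_le_mul_of_nonneg_left h3 (by linarith)
  -- hence `W r₁ ≥ c₁`
  have hWr₁ : c₁ ≤ W r₁ := by
    by_contra hcon
    push Not at hcon
    have h1 : f (1 - c₁) ≤ f (1 - W r₁) :=
      hf.mono ⟨by linarith, by linarith⟩ (hmem' r₁ hr₁) (by linarith)
    have h2 : f (1 - W r₀) ≤ f (1 - c₀) :=
      hf.mono (hmem' r₀ hr0r0) ⟨by linarith, by linarith⟩ (by linarith)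
    have h3 : Real.exp (1 / 2) < 2 := by
      have h4 : Real.exp (1 / 2) * Real.exp (1 / 2) = Real.exp 1 := by
        rw [← Real.exp_add]; norm_num
      have h5 := Real.exp_one_lt_d9
      have h6 := Real.exp_pos (1 / 2 : ℝ)
      nlinarith
    have h7 := hf.one_le (hmem' r₀ hr0r0)
    have h8 : f (1 - W r₀) * Real.exp (1 / 2) < f (1 - W r₀) * 2 :=
      mul_lt_mul_of_pos_left h3 (by linarith)
    linarith
  -- conclusion at `σ² r₁`
  have hs0 : 0 < σ ^ 2 * r₁ := by positivity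
  have hs1 : σ ^ 2 * r₁ ≤ r₁ := by
    have : σ ^ 2 ≤ 1 := pow_le_one₀ hσ0.le hσ1
    nlinarith
  have hsmem : σ ^ 2 * r₁ ∈ Ioc 0 r₀ := ⟨hs0, hs1.trans hr₁.2⟩
  have h1 := hVanti _ hsmem _ hr₁' hs1
  have hsq : √(σ ^ 2 * r₁) = σ * √r₁ := by
    rw [Real.sqrt_mul (by positivity), Real.sqrt_sq hσ0.le]
  rw [hsq] at h1
  have hsqr : 0 < √r₁ := Real.sqrt_pos.2 hr₁pos
  have h2 : σ * V r₁ ≤ V (σ ^ 2 * r₁) := by
    rw [div_le_div_iff₀ hsqr (by positivity)] at h1
    have h3 : (σ * V r₁) * √r₁ ≤ V (σ ^ 2 * r₁) * √r₁ := by linarith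
    exact le_of_mul_le_mul_right h3 hsqr
  have h3 : W r₁ / 2 ≤ V r₁ := by
    have := hr₁S.2
    simp only [hV]; linarith
  have h4 : V (σ ^ 2 * r₁) ≤ W (σ ^ 2 * r₁) := by
    have := hQ0 _ (Ioc_subset_Icc_self hsmem)
    simp only [hV]; linarith
  have h5 := hC _ (Ioc_subset_Icc_self hsmem)
  have h6 : C₃ * (σ ^ 2 * r₁) ≤ σ * (c₁ / 4) := by
    calc C₃ * (σ ^ 2 * r₁) ≤ C₃ * (σ ^ 2 * r₀) := by
          have := hr₁.2
          gcongr
      _ = σ * (C₃ * r₀ * σ) := by ring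
      _ ≤ σ * (c₁ / 4) := by gcongr
  have h7 : σ * (c₁ / 2) ≤ σ * V r₁ := by
    apply mul_le_mul_of_nonneg_left _ hσ0.le
    linarith
  linarith

end Pool.Agent.Helper86.Mems
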