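import Pool.Agent.Helper86.Mems.Mean
import Pool.Agent.Helper86.Mems.Ode

/-!
# The uniform bound
-/

set_option autoImplicit false
set_option maxHeartbeats 4000000

open Filter Topology MeasureTheory Set

namespace Pool.Agent.Helper86.Mems

variable {Ω : Set ℂ} {f f' : ℝ → ℝ} {lam mu : ℝ} {u U : ℂ → ℝ}

lemma f_le_of (hf : Nonlin f f') {a t : ℝ} (ha : a ∈ Ioc (0 : ℝ) 1) (ht : t ∈ Ico (0 : ℝ) 1) :
    f t ≤ f (1 - a) + a * f' t := by
  have ha' : 1 - a ∈ Ico (0 : ℝ) 1 := ⟨by linarith [ha.2], by linarith [ha.1]⟩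
  have h0 := hf.nonneg' t ht
  rcases le_total t (1 - a) with h | h
  · have h1 := hf.mono ht ha' h
    have h2 : 0 ≤ a * f' t := mul_nonneg ha.1.le h0
    linarith
  · have h1 := hf.tangent ha' ht
    have h2 : f' t * (t - (1 - a)) ≤ f' t * a := by
      apply mul_le_mul_of_nonneg_left _ h0
      linarith [ht.2]
    nlinarith

lemma f'_ge_of (hf : Nonlin f f') {W t : ℝ} (hW : W ∈ Ioo (0 : ℝ) 1) (ht : t ∈ Ico (0 : ℝ) 1) :
    f' (1 - W) * (1 - (1 - t) / W) ≤ f' t := by
  have hW' : 1 - W ∈ Ico (0 : ℝ) 1 := ⟨by linarith [hW.2], by linarith [hW.1]⟩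
  have h0 := hf.nonneg' t ht
  have h1 := hf.nonneg' _ hW'
  rcases le_total (1 - W) t with h | h
  · have h2 := hf.mono' hW' ht h
    have h3 : 0 ≤ (1 - t) / W := div_nonneg (by linarith [ht.2]) hW.1.le
    nlinarith
  · have h3 : 1 ≤ (1 - t) / W := by
      rw [le_div_iff₀ hW.1]; linarith
    nlinarith

lemma f_sq_le (hf : Nonlin f f') {t : ℝ} (ht : t ∈ Ico (0 : ℝ) 1) :
    f t ^ 2 ≤ 1 + 2 * (f t * f' t) := by
  have h1 := hf.one_le ht
  have h2 := hf.le_one_add ht
  nlinarith [sq_nonneg (f t - 1)]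

/-- circle integrals are monotone. -/
lemma circ_mono {Φ Ψ : ℂ → ℝ} (hΦ : Continuous Φ) (hΨ : Continuous Ψ) (h : ∀ x, Φ x ≤ Ψ x)
    (x₀ : ℂ) (r : ℝ) : circ Φ x₀ r ≤ circ Ψ x₀ r := by
  have huv := uv_continuous
  unfold circ
  exact intervalIntegral.integral_mono_on (by positivity)
    (Continuous.intervalIntegrable (by fun_prop) _ _)
    (Continuous.intervalIntegrable (by fun_prop) _ _) fun θ _ => h _

lemma circ_const (c : ℝ) (x₀ : ℂ) (r : ℝ) : circ (fun _ => c) x₀ r = 2 * Real.pi * c := by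
  simp [circ]

lemma circ_add {Φ Ψ : ℂ → ℝ} (hΦ : Continuous Φ) (hΨ : Continuous Ψ) (x₀ : ℂ) (r : ℝ) :
    circ (fun x => Φ x + Ψ x) x₀ r = circ Φ x₀ r + circ Ψ x₀ r := by
  have huv := uv_continuous
  unfold circ
  exact intervalIntegral.integral_add
    (Continuous.intervalIntegrable (by fun_prop) _ _)
    (Continuous.intervalIntegrable (by fun_prop) _ _)

lemma circ_const_mul (c : ℝ) (Φ : ℂ → ℝ) (x₀ : ℂ) (r : ℝ) :
    circ (fun x => c * Φ x) x₀ r = c * circ Φ x₀ r := by
  unfold circ
  exact intervalIntegral.integral_const_mul _ _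

lemma circ_affine {Φ : ℂ → ℝ} (hΦ : Continuous Φ) (A B : ℝ) (x₀ : ℂ) (r : ℝ) :
    circ (fun x => A + B * Φ x) x₀ r = 2 * Real.pi * A + B * circ Φ x₀ r := by
  have h : Continuous fun x => B * Φ x := continuous_const.mul hΦ
  rw [circ_add (Φ := fun _ => A) (Ψ := fun x => B * Φ x) continuous_const h, circ_const,
    circ_const_mul]

/-- **The uniform bound**: solutions below another solution stay away from `1`. -/
theorem uniform_bound (hf : Nonlin f f') (hΩ : IsOpen Ω) (hΩb : Bornology.IsBounded Ω)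
    {lam₀ lamS : ℝ} (h0 : 0 < lam₀) (hS : lam₀ ≤ lamS) :
    ∃ c, 0 < c ∧ ∀ (lam mu : ℝ) (u U : ℂ → ℝ), Sol Ω f lam u → Sol Ω f mu U → lam₀ ≤ lam →
      lam ≤ lamS → lam < mu → (∀ x, u x ≤ U x) → ∀ x, u x ≤ 1 - c := by
  obtain ⟨CN, hCN0, hCN⟩ := nedev_estimate hf hΩ hΩb
  have hpi := Real.pi_pos
  have hlS : 0 < lamS := h0.trans_le hS
  have hf'00 : 0 ≤ f' 0 := hf.nonneg' 0 ⟨le_rfl, one_pos⟩
  set N₀ : ℝ := CN + Real.pi * f' 0 with hN₀
  have hN₀0 : 0 ≤ N₀ := by positivity
  -- choice of `a`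
  obtain ⟨a, ha0, -, ha1, hfa⟩ := hf.exists_large (8 * lamS * N₀ / Real.pi + 1) (b := 0) one_pos
  have hf'a : 0 ≤ f' a := hf.nonneg' a ⟨ha0.le, ha1⟩
  set C₃ : ℝ := lamS * (Real.pi + N₀) / Real.pi with hC₃
  have hC₃0 : 0 < C₃ := by positivity
  -- choice of `r₀`
  set r₀ : ℝ := min (min 1 (1 / (2 * C₃))) (1 / (8 * lamS * f' a + 8)) with hr₀
  have hr₀0 : 0 < r₀ := by
    refine lt_min (lt_min one_pos (by positivity)) ?_
    have : 0 ≤ 8 * lamS * f' a := by positivity
    positivity
  have hr₀1 : r₀ ≤ 1 := (min_le_left _ _).trans (min_le_left _ _)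
  have hr₀2 : C₃ * r₀ ≤ 1 / 2 := by
    have h1 : r₀ ≤ 1 / (2 * C₃) := (min_le_left _ _).trans (min_le_right _ _)
    calc C₃ * r₀ ≤ C₃ * (1 / (2 * C₃)) := by gcongr
      _ = 1 / 2 := by field_simp
  have hr₀3 : lamS * (Real.pi * r₀ ^ 2 * f' a) ≤ Real.pi / 8 := by
    have h1 : r₀ ≤ 1 / (8 * lamS * f' a + 8) := min_le_right _ _
    have h2 : 0 ≤ 8 * lamS * f' a := by positivity
    rw [le_div_iff₀ (by positivity)] at h1
    have h3 : r₀ ^ 2 ≤ r₀ := by nlinarith
    have h4 : lamS * f' a * r₀ ^ 2 ≤ lamS * f' a * r₀ := by gcongr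
    have h5 : lamS * f' a * r₀ ≤ 1 / 8 := by nlinarith
    nlinarith
  set c₀ : ℝ := min (lam₀ * r₀ ^ 2 / 2) (1 / 2) with hc₀
  have hc₀0 : 0 < c₀ := lt_min (by positivity) (by norm_num)
  have hc₀1 : c₀ < 1 := (min_le_right _ _).trans_lt (by norm_num)
  obtain ⟨c, hc, hode⟩ := ode_bound hf hr₀0 hC₃0 hc₀0 hc₀1
  refine ⟨min (c / 2) (1 / 8), lt_min (by positivity) (by norm_num), ?_⟩
  intro lam mu u U hu hU hl0 hlS' hlm hle x₀
  have hlam : 0 < lam := h0.trans_le hl0
  by_contra hcon
  push Not at hcon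
  set w₀ : ℝ := 1 - u x₀ with hw₀
  have hw₀0 : 0 < w₀ := by have := hu.lt_one x₀; linarith
  have hw₀c : w₀ < c / 2 := by have := min_le_left (c / 2) (1 / 8 : ℝ); linarith
  have hw₀8 : w₀ < 1 / 8 := by have := min_le_right (c / 2) (1 / 8 : ℝ); linarith
  have hned := hCN lam mu u U hu hU hlam hlm hle
  -- continuity
  have hcf := hu.comp_continuous hf.cont
  have hcf' := hu.comp_continuous hf.cont'
  have hcff : Continuous fun x => f (u x) * f' (u x) := hcf.mul hcf'
  have huc := hu.cont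
  have huv := uv_continuous
  -- bound on the ball of `f f'`
  have hvolball : ∀ r, 0 ≤ r → (volume (Metric.ball x₀ r)).toReal = Real.pi * r ^ 2 := by
    intro r hr
    rw [Complex.volume_ball]
    simp [ENNReal.toReal_mul, ENNReal.toReal_ofReal hr]
    ring
  have hffint : ∀ {φ : ℂ → ℝ}, Continuous φ → ∀ r, IntegrableOn φ (Metric.ball x₀ r) :=
    fun {φ} hφ r => (hφ.continuousOn.integrableOn_compact
      (isCompact_closedBall x₀ r)).mono_set Metric.ball_subset_closedBall
  have hball : ∀ r, 0 ≤ r → r ≤ 1 → ∫ x in Metric.ball x₀ r, f (u x) * f' (u x) ≤ N₀ := by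
    intro r hr hr1
    have hc := hcff
    have hnn : ∀ x, 0 ≤ f (u x) * f' (u x) := fun x =>
      mul_nonneg (zero_le_one.trans (hf.one_le (hu.mem_Ico x))) (hf.nonneg' _ (hu.mem_Ico x))
    have h1 : ∫ x in Metric.ball x₀ r, f (u x) * f' (u x) =
        (∫ x in Metric.ball x₀ r ∩ Ω, f (u x) * f' (u x)) +
          ∫ x in Metric.ball x₀ r \ Ω, f (u x) * f' (u x) :=
      (integral_inter_add_sdiff hΩ.measurableSet (hffint hc r)).symm
    have h2 : ∫ x in Metric.ball x₀ r ∩ Ω, f (u x) * f' (u x) ≤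
        ∫ x in Ω, f (u x) * f' (u x) := by
      refine setIntegral_mono_set ?_ (Eventually.of_forall hnn) inter_subset_right.eventuallyLE
      exact (hc.continuousOn.integrableOn_compact hΩb.isCompact_closure).mono_set subset_closure
    have h3 : ∫ x in Metric.ball x₀ r \ Ω, f (u x) * f' (u x) =
        ∫ x in Metric.ball x₀ r \ Ω, f' 0 := by
      refine setIntegral_congr_fun (Metric.isOpen_ball.measurableSet.diff hΩ.measurableSet)
        fun x hx => ?_
      rw [hu.zero x hx.2, hf.zero, one_mul]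
    have h4 : ∫ x in Metric.ball x₀ r \ Ω, f' 0 ≤ Real.pi * f' 0 := by
      rw [setIntegral_const, smul_eq_mul]
      have h5 : volume.real (Metric.ball x₀ r \ Ω) ≤ Real.pi * r ^ 2 := by
        rw [← hvolball r hr]
        exact ENNReal.toReal_mono measure_ball_lt_top.ne (measure_mono sdiff_subset)
      have h6 : Real.pi * r ^ 2 ≤ Real.pi := by
        have : r ^ 2 ≤ 1 := by nlinarith
        nlinarith
      exact mul_le_mul_of_nonneg_right (h5.trans h6) hf'00
    rw [h1, h3]
    linarith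
  -- `Γ`
  have hΓ : lam * ∫ s in (0 : ℝ)..r₀, s * circ (fun x => f' (u x)) x₀ s ≤ Real.pi / 4 := by
    rw [← integral_ball_eq hcf' x₀ hr₀0.le]
    have h1 : ∫ x in Metric.ball x₀ r₀, f' (u x) ≤
        ∫ x in Metric.ball x₀ r₀, (f' a + 1 / f a * (f (u x) * f' (u x))) := by
      have hfa1 := hf.one_le ⟨ha0.le, ha1⟩
      refine setIntegral_mono (hffint hcf' r₀)
        (hffint (continuous_const.add (continuous_const.mul hcff)) r₀) fun x => ?_
      have h2 := hf.nonneg' _ (hu.mem_Ico x)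
      have h3 := hf.one_le (hu.mem_Ico x)
      rcases le_total (u x) a with h | h
      · have h4 := hf.mono' (hu.mem_Ico x) ⟨ha0.le, ha1⟩ h
        have h5 : 0 ≤ 1 / f a * (f (u x) * f' (u x)) := by positivity
        linarith
      · have h4 := hf.mono ⟨ha0.le, ha1⟩ (hu.mem_Ico x) h
        have h5 : f' (u x) ≤ 1 / f a * (f (u x) * f' (u x)) := by
          rw [← mul_assoc]
          refine le_mul_of_one_le_left h2 ?_
          rw [one_div, inv_mul_eq_div, one_le_div (by linarith)]
          exact h4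
        linarith
    have h2 : ∫ x in Metric.ball x₀ r₀, (f' a + 1 / f a * (f (u x) * f' (u x))) =
        Real.pi * r₀ ^ 2 * f' a + 1 / f a * ∫ x in Metric.ball x₀ r₀, f (u x) * f' (u x) := by
      have hi1 : IntegrableOn (fun _ : ℂ => f' a) (Metric.ball x₀ r₀) := hffint continuous_const r₀
      have hi2 : IntegrableOn (fun x => 1 / f a * (f (u x) * f' (u x))) (Metric.ball x₀ r₀) :=
        hffint (continuous_const.mul hcff) r₀
      rw [integral_add hi1 hi2, setIntegral_const, smul_eq_mul,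
        integral_const_mul]
      congr 2
      exact hvolball r₀ hr₀0.le
    have h3 := hball r₀ hr₀0.le hr₀1
    have hfa0 : 0 < f a := by
      have : 0 ≤ 8 * lamS * N₀ / Real.pi := by positivity
      linarith
    have h4 : lamS * (1 / f a * N₀) ≤ Real.pi / 8 := by
      have h5 : 8 * lamS * N₀ / Real.pi ≤ f a := by linarith
      rw [div_le_iff₀ hpi] at h5
      have e : lamS * (1 / f a * N₀) = lamS * N₀ / f a := by ring
      rw [e, div_le_iff₀ hfa0]
      linarith
    have h6 : ∫ x in Metric.ball x₀ r₀, f' (u x) ≤ Real.pi * r₀ ^ 2 * f' a + 1 / f a * N₀ := by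
      refine h1.trans (h2.le.trans ?_)
      gcongr
    have h7 : 0 ≤ Real.pi * r₀ ^ 2 * f' a + 1 / f a * N₀ := by positivity
    calc lam * ∫ x in Metric.ball x₀ r₀, f' (u x)
        ≤ lam * (Real.pi * r₀ ^ 2 * f' a + 1 / f a * N₀) := by gcongr
      _ ≤ lamS * (Real.pi * r₀ ^ 2 * f' a + 1 / f a * N₀) := by gcongr
      _ ≤ Real.pi / 4 := by linarith
  -- the function `W`
  set F : ℂ → ℝ := fun x => lam * f (u x) with hF
  have hFc : Continuous F := continuous_const.mul hcf
  set cF : ℝ → ℝ := circ F x₀ with hcF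
  have hcFc : Continuous cF := circ_continuous hFc x₀
  have hcfc : Continuous (circ (fun x => f' (u x)) x₀) := circ_continuous hcf' x₀
  have hkc : Continuous (kfun cF) := kfun_continuous hcFc
  set W : ℝ → ℝ := fun r => 2 * w₀ + 1 / Real.pi * ∫ ρ in (0 : ℝ)..r, kfun cF ρ with hW
  set W' : ℝ → ℝ := fun r => 1 / Real.pi * kfun cF r with hW'
  have hWd : ∀ r, HasDerivAt W (W' r) r := by
    intro r
    have h1 : HasDerivAt (fun r => ∫ ρ in (0 : ℝ)..r, kfun cF ρ) (kfun cF r) r :=
      intervalIntegral.integral_hasDerivAt_right (hkc.intervalIntegrable _ _)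
        (hkc.stronglyMeasurableAtFilter _ _) hkc.continuousAt
    exact (h1.const_mul _).const_add _
  have hW0 : W 0 = 2 * w₀ := by simp [hW]
  have hcFge : ∀ s, 2 * Real.pi * lam ≤ cF s := by
    intro s
    rw [← circ_const lam x₀ s]
    refine circ_mono continuous_const hFc (fun x => ?_) x₀ s
    have := hf.one_le (hu.mem_Ico x)
    exact le_mul_of_one_le_right hlam.le this
  have hk : ∀ r, 0 < r → lam * Real.pi * r ≤ kfun cF r := by
    intro r hr
    have h1 : r * (lam * Real.pi * r) ≤ r * kfun cF r := by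
      rw [mul_kfun]
      have h2 : ∫ s in (0 : ℝ)..r, s * (2 * Real.pi * lam) ≤ ∫ s in (0 : ℝ)..r, s * cF s := by
        refine intervalIntegral.integral_mono_on hr.le
          (Continuous.intervalIntegrable (by fun_prop) _ _)
          (Continuous.intervalIntegrable (by fun_prop) _ _) fun s hs => ?_
        exact mul_le_mul_of_nonneg_left (hcFge s) hs.1
      rw [intervalIntegral.integral_mul_const, integral_id] at h2
      nlinarith
    exact le_of_mul_le_mul_left h1 hr
  have hk0 : ∀ r, 0 ≤ r → lam * Real.pi * r ≤ kfun cF r := by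
    intro r hr
    rcases hr.eq_or_lt with rfl | h
    · simp [kfun]
    · exact hk r h
  have hW'0 : ∀ r ∈ Icc 0 r₀, 0 ≤ W' r := by
    intro r hr
    have h1 := hk0 r hr.1
    have h2 : 0 ≤ lam * Real.pi * r := by have := hr.1; positivity
    have h3 : 0 ≤ kfun cF r := h2.trans h1
    simp only [hW']; positivity
  -- upper bound on `k`
  have hkup : ∀ r ∈ Ioc 0 r₀, kfun cF r ≤ lamS * (Real.pi + N₀) := by
    intro r hr
    have hr1 : r ≤ 1 := hr.2.trans hr₀1
    have h1 : r * kfun cF r ≤ r * (lamS * (Real.pi + N₀)) := by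
      rw [mul_kfun, ← integral_ball_eq hFc x₀ hr.1.le]
      have h2 : ∫ x in Metric.ball x₀ r, F x ≤ ∫ x in Metric.ball x₀ r,
          (lam * (1 / (2 * r) + r / 2) + lam * r * (f (u x) * f' (u x))) := by
        refine setIntegral_mono (hffint hFc r) (hffint
          (continuous_const.add (continuous_const.mul hcff)) r) fun x => ?_
        have h3 := f_sq_le hf (hu.mem_Ico x)
        have h4 : f (u x) ≤ 1 / (2 * r) + r / 2 * f (u x) ^ 2 := by
          have h5 : 0 ≤ (1 - r * f (u x)) ^ 2 / (2 * r) := by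
            have := hr.1; positivity
          have h6 : (1 - r * f (u x)) ^ 2 / (2 * r) =
              1 / (2 * r) + r / 2 * f (u x) ^ 2 - f (u x) := by
            have := hr.1.ne'; field_simp; ring
          linarith
        have h7 : r / 2 * f (u x) ^ 2 ≤ r / 2 * (1 + 2 * (f (u x) * f' (u x))) := by
          have := hr.1; gcongr
        have h8 : f (u x) ≤ 1 / (2 * r) + r / 2 + r * (f (u x) * f' (u x)) := by linarith
        calc F x = lam * f (u x) := rfl
          _ ≤ lam * (1 / (2 * r) + r / 2 + r * (f (u x) * f' (u x))) := by gcongr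
          _ = _ := by ring
      have h3 : ∫ x in Metric.ball x₀ r,
          (lam * (1 / (2 * r) + r / 2) + lam * r * (f (u x) * f' (u x))) =
          Real.pi * r ^ 2 * (lam * (1 / (2 * r) + r / 2)) +
            lam * r * ∫ x in Metric.ball x₀ r, f (u x) * f' (u x) := by
        have hi1 : IntegrableOn (fun _ : ℂ => lam * (1 / (2 * r) + r / 2)) (Metric.ball x₀ r) :=
          hffint continuous_const r
        have hi2 : IntegrableOn (fun x => lam * r * (f (u x) * f' (u x))) (Metric.ball x₀ r) :=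
          hffint (continuous_const.mul hcff) r
        rw [integral_add hi1 hi2, setIntegral_const, smul_eq_mul,
          integral_const_mul]
        congr 2
        exact hvolball r hr.1.le
      have h4 := hball r hr.1.le hr1
      have h5 : Real.pi * r ^ 2 * (lam * (1 / (2 * r) + r / 2)) ≤ r * (lam * Real.pi) := by
        have e : Real.pi * r ^ 2 * (lam * (1 / (2 * r) + r / 2)) =
            r * (lam * Real.pi) * ((1 + r ^ 2) / 2) := by
          have := hr.1.ne'; field_simp
        rw [e]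
        have h6 : (1 + r ^ 2) / 2 ≤ 1 := by
          have := hr.1; nlinarith
        have h7 : 0 ≤ r * (lam * Real.pi) := by have := hr.1; positivity
        exact mul_le_of_le_one_right h7 h6
      have h6 : lam * r * ∫ x in Metric.ball x₀ r, f (u x) * f' (u x) ≤ lam * r * N₀ := by
        have := hr.1; gcongr
      have h7 : r * (lam * (Real.pi + N₀)) ≤ r * (lamS * (Real.pi + N₀)) := by
        have := hr.1; gcongr
      calc _ ≤ _ := h2
        _ = _ := h3
        _ ≤ r * (lam * Real.pi) + lam * r * N₀ := add_le_add h5 h6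
        _ = r * (lam * (Real.pi + N₀)) := by ring
        _ ≤ _ := h7
    exact le_of_mul_le_mul_left h1 hr.1
  have hWC : ∀ r ∈ Icc 0 r₀, W r ≤ W 0 + C₃ * r := by
    intro r hr
    rw [hW0]
    have h1 : ∫ ρ in (0 : ℝ)..r, kfun cF ρ ≤ ∫ ρ in (0 : ℝ)..r, lamS * (Real.pi + N₀) := by
      refine intervalIntegral.integral_mono_on_of_le_Ioo hr.1 (hkc.intervalIntegrable _ _)
        (by simp) fun ρ hρ => ?_
      exact hkup ρ ⟨hρ.1, (hρ.2.trans_le hr.2).le⟩
    rw [intervalIntegral.integral_const, smul_eq_mul, sub_zero] at h1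
    have h2 : 1 / Real.pi * ∫ ρ in (0 : ℝ)..r, kfun cF ρ ≤
        1 / Real.pi * (r * (lamS * (Real.pi + N₀))) := by gcongr
    have e : 1 / Real.pi * (r * (lamS * (Real.pi + N₀))) = C₃ * r := by
      rw [hC₃]; ring
    simp only [hW]
    linarith
  have hWmono : MonotoneOn W (Icc 0 r₀) := by
    refine monotoneOn_of_deriv_nonneg (convex_Icc _ _)
      (fun r _ => (hWd r).continuousAt.continuousWithinAt)
      (fun r _ => (hWd r).differentiableAt.differentiableWithinAt) fun r hr => ?_
    rw [interior_Icc] at hr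
    rw [(hWd r).deriv]
    exact hW'0 r (Ioo_subset_Icc_self hr)
  have hWr₀ : W r₀ < 1 := by
    have := hWC r₀ ⟨hr₀0.le, le_rfl⟩
    rw [hW0] at this
    linarith
  have hWmem : ∀ r ∈ Icc 0 r₀, W r ∈ Ioo (0 : ℝ) 1 := by
    intro r hr
    have h1 := hWmono ⟨le_rfl, hr₀0.le⟩ hr hr.1
    have h2 := hWmono hr ⟨hr₀0.le, le_rfl⟩ hr.2
    rw [hW0] at h1
    exact ⟨by linarith, by linarith⟩
  -- (A)
  have hA : ∀ r ∈ Ioc 0 r₀, r * W' r ≤ lam * r ^ 2 * f (1 - W r) + 1 / 4 * W r := by
    intro r hr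
    have hWr := hWmem r (Ioc_subset_Icc_self hr)
    have h1 : ∀ s, cF s ≤ 2 * Real.pi * (lam * f (1 - W r)) +
        lam * W r * circ (fun x => f' (u x)) x₀ s := by
      intro s
      have h2 : cF s ≤ circ (fun x => lam * f (1 - W r) + lam * W r * f' (u x)) x₀ s := by
        have hcc : Continuous fun x => lam * f (1 - W r) + lam * W r * f' (u x) :=
          continuous_const.add (continuous_const.mul hcf')
        refine circ_mono hFc hcc (fun x => ?_) x₀ s
        have := f_le_of hf (a := W r) ⟨hWr.1, hWr.2.le⟩ (hu.mem_Ico x)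
        calc F x = lam * f (u x) := rfl
          _ ≤ lam * (f (1 - W r) + W r * f' (u x)) := by gcongr
          _ = _ := by ring
      rw [circ_affine hcf'] at h2
      exact h2
    have e1 : r * W' r = 1 / Real.pi * ∫ s in (0 : ℝ)..r, s * cF s := by
      simp only [hW']; rw [← mul_kfun]; ring
    rw [e1]
    have h3 : ∫ s in (0 : ℝ)..r, s * cF s ≤ ∫ s in (0 : ℝ)..r,
        (s * (2 * Real.pi * (lam * f (1 - W r))) +
          lam * W r * (s * circ (fun x => f' (u x)) x₀ s)) := by
      refine intervalIntegral.integral_mono_on hr.1.le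
        (Continuous.intervalIntegrable (by fun_prop) _ _)
        (Continuous.intervalIntegrable (by fun_prop) _ _) fun s hs => ?_
      have := mul_le_mul_of_nonneg_left (h1 s) hs.1
      linarith
    rw [intervalIntegral.integral_add (Continuous.intervalIntegrable (by fun_prop) _ _)
        (Continuous.intervalIntegrable (by fun_prop) _ _), intervalIntegral.integral_mul_const,
      integral_id, intervalIntegral.integral_const_mul] at h3
    have h4 : ∫ s in (0 : ℝ)..r, s * circ (fun x => f' (u x)) x₀ s ≤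
        ∫ s in (0 : ℝ)..r₀, s * circ (fun x => f' (u x)) x₀ s := by
      have hint : ∀ a b : ℝ, IntervalIntegrable (fun s => s * circ (fun x => f' (u x)) x₀ s)
          volume a b := fun a b => Continuous.intervalIntegrable (by fun_prop) _ _
      rw [← intervalIntegral.integral_add_adjacent_intervals (hint 0 r) (hint r r₀)]
      have : 0 ≤ ∫ s in r..r₀, s * circ (fun x => f' (u x)) x₀ s := by
        refine intervalIntegral.integral_nonneg hr.2 fun s hs => ?_
        have h5 : 0 ≤ circ (fun x => f' (u x)) x₀ s := by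
          have := circ_mono (Φ := fun _ => 0) continuous_const hcf'
            (fun x => hf.nonneg' _ (hu.mem_Ico x)) x₀ s
          rwa [circ_const, mul_zero] at this
        exact mul_nonneg (hr.1.le.trans hs.1) h5
      linarith
    have h5 : lam * ∫ s in (0 : ℝ)..r, s * circ (fun x => f' (u x)) x₀ s ≤ Real.pi / 4 :=
      (mul_le_mul_of_nonneg_left h4 hlam.le).trans hΓ
    have h6 : lam * W r * ∫ s in (0 : ℝ)..r, s * circ (fun x => f' (u x)) x₀ s ≤
        W r * (Real.pi / 4) := by
      calc lam * W r * ∫ s in (0 : ℝ)..r, s * circ (fun x => f' (u x)) x₀ s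
          = W r * (lam * ∫ s in (0 : ℝ)..r, s * circ (fun x => f' (u x)) x₀ s) := by ring
        _ ≤ W r * (Real.pi / 4) := mul_le_mul_of_nonneg_left h5 hWr.1.le
    have h7 : ∫ s in (0 : ℝ)..r, s * cF s ≤
        Real.pi * (lam * r ^ 2 * f (1 - W r) + 1 / 4 * W r) := by
      refine h3.trans ?_
      have e2 : (r ^ 2 - 0 ^ 2) / 2 * (2 * Real.pi * (lam * f (1 - W r))) =
          Real.pi * (lam * r ^ 2 * f (1 - W r)) := by ring
      rw [e2]
      linarith
    calc 1 / Real.pi * ∫ s in (0 : ℝ)..r, s * cF s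
        ≤ 1 / Real.pi * (Real.pi * (lam * r ^ 2 * f (1 - W r) + 1 / 4 * W r)) := by gcongr
      _ = _ := by field_simp
  -- (B)
  have hBpt : ∀ r ∈ Icc 0 r₀, Real.pi * f' (1 - W r) ≤ circ (fun x => f' (u x)) x₀ r := by
    intro r hr
    have hWr := hWmem r hr
    have h1 := circ_lower hf hΩ hu hlam.le x₀ hr.1
    have h2 : circ (fun x => f' (1 - W r) * (1 - 1 / W r) + f' (1 - W r) / W r * u x) x₀ r ≤
        circ (fun x => f' (u x)) x₀ r := by
      have hcc : Continuous fun x => f' (1 - W r) * (1 - 1 / W r) + f' (1 - W r) / W r * u x :=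
        continuous_const.add (continuous_const.mul huc)
      refine circ_mono hcc hcf' (fun x => ?_) x₀ r
      have := f'_ge_of hf hWr (hu.mem_Ico x)
      have e : f' (1 - W r) * (1 - (1 - u x) / W r) =
          f' (1 - W r) * (1 - 1 / W r) + f' (1 - W r) / W r * u x := by ring
      rwa [e] at this
    rw [circ_affine huc] at h2
    refine le_trans ?_ h2
    have h3 : 0 ≤ f' (1 - W r) := hf.nonneg' _ ⟨by linarith [hWr.2], by linarith [hWr.1]⟩
    have h4 : 2 * Real.pi - Real.pi * W r ≤ circ u x₀ r := by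
      have e : Real.pi * W r = 2 * Real.pi * w₀ + ∫ ρ in (0 : ℝ)..r, kfun cF ρ := by
        simp only [hW]; field_simp
      rw [e]
      have e2 : 2 * Real.pi * u x₀ = 2 * Real.pi - 2 * Real.pi * w₀ := by rw [hw₀]; ring
      have h5 : 2 * Real.pi * u x₀ - ∫ ρ in (0 : ℝ)..r, kfun cF ρ ≤ circ u x₀ r := h1
      linarith
    have h5 : f' (1 - W r) / W r * (2 * Real.pi - Real.pi * W r) ≤
        f' (1 - W r) / W r * circ u x₀ r :=
      mul_le_mul_of_nonneg_left h4 (div_nonneg h3 hWr.1.le)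
    have e3 : 2 * Real.pi * (f' (1 - W r) * (1 - 1 / W r)) +
        f' (1 - W r) / W r * (2 * Real.pi - Real.pi * W r) = Real.pi * f' (1 - W r) := by
      have := hWr.1.ne'
      field_simp
      ring
    linarith
  have hB : ∫ r in (0 : ℝ)..r₀, lam * r * f' (1 - W r) ≤ 1 / 4 := by
    have hWc : Continuous W := continuous_iff_continuousAt.2 fun r => (hWd r).continuousAt
    have hf'W : ContinuousOn (fun r => f' (1 - W r)) (Icc 0 r₀) :=
      hf.cont'.comp (continuous_const.sub hWc).continuousOn fun r hr => by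
        have := hWmem r hr
        exact ⟨by linarith [this.2], by linarith [this.1]⟩
    have h1 : ∫ r in (0 : ℝ)..r₀, lam * r * f' (1 - W r) ≤
        ∫ r in (0 : ℝ)..r₀, lam / Real.pi * (r * circ (fun x => f' (u x)) x₀ r) := by
      refine intervalIntegral.integral_mono_on hr₀0.le ?_
        (Continuous.intervalIntegrable (by fun_prop) _ _) fun r hr => ?_
      · refine ContinuousOn.intervalIntegrable ?_
        rw [uIcc_of_le hr₀0.le]
        have : ContinuousOn (fun r : ℝ => lam * r) (Icc 0 r₀) := by fun_prop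
        exact this.mul hf'W
      · have h2 := hBpt r hr
        have h3 : 0 ≤ lam * r / Real.pi := by have := hr.1; positivity
        have h4 := mul_le_mul_of_nonneg_left h2 h3
        have e1 : lam * r / Real.pi * (Real.pi * f' (1 - W r)) = lam * r * f' (1 - W r) := by
          field_simp
        rw [e1] at h4
        refine h4.trans (le_of_eq ?_)
        ring
    rw [intervalIntegral.integral_const_mul] at h1
    refine h1.trans ?_
    have e : lam / Real.pi * ∫ r in (0 : ℝ)..r₀, r * circ (fun x => f' (u x)) x₀ r =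
        1 / Real.pi * (lam * ∫ r in (0 : ℝ)..r₀, r * circ (fun x => f' (u x)) x₀ r) := by ring
    rw [e]
    calc 1 / Real.pi * (lam * ∫ r in (0 : ℝ)..r₀, r * circ (fun x => f' (u x)) x₀ r)
        ≤ 1 / Real.pi * (Real.pi / 4) := by gcongr
      _ = 1 / 4 := by field_simp
  -- (D)
  have hD : c₀ ≤ W r₀ := by
    refine (min_le_left _ _).trans ?_
    have h1 : ∫ ρ in (0 : ℝ)..r₀, lam * Real.pi * ρ ≤ ∫ ρ in (0 : ℝ)..r₀, kfun cF ρ :=
      intervalIntegral.integral_mono_on hr₀0.le
        (Continuous.intervalIntegrable (by fun_prop) _ _)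
        (hkc.intervalIntegrable _ _) fun ρ hρ => hk0 ρ hρ.1
    rw [intervalIntegral.integral_const_mul, integral_id] at h1
    have h2 : 1 / Real.pi * (lam * Real.pi * ((r₀ ^ 2 - 0 ^ 2) / 2)) ≤
        1 / Real.pi * ∫ ρ in (0 : ℝ)..r₀, kfun cF ρ := by gcongr
    have e : 1 / Real.pi * (lam * Real.pi * ((r₀ ^ 2 - 0 ^ 2) / 2)) = lam * r₀ ^ 2 / 2 := by
      field_simp
      ring
    rw [e] at h2
    have h3 : lam₀ * r₀ ^ 2 / 2 ≤ lam * r₀ ^ 2 / 2 := by gcongr
    simp only [hW]
    linarith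
  have hfin := hode lam W W' hlam hWd hW'0 (by rw [hW0]; linarith) hWr₀ hA hB hWC hD
  rw [hW0] at hfin
  linarith

end Pool.Agent.Helper86.Mems
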