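import Pool.Agent.Helper86.Mems.Basic

/-!
# Circular means
-/

set_option autoImplicit false

open Filter Topology MeasureTheory

namespace Pool.Agent.Helper86.Mems

/-- differentiation under the integral sign, continuous version. -/
lemma hasDerivAt_param {F F' : ℝ → ℝ → ℝ} (hF : Continuous (Function.uncurry F))
    (hF' : Continuous (Function.uncurry F')) (a b : ℝ)
    (h : ∀ r θ, HasDerivAt (fun r => F r θ) (F' r θ) r) (r₀ : ℝ) :
    HasDerivAt (fun r => ∫ θ in a..b, F r θ) (∫ θ in a..b, F' r₀ θ) r₀ := by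
  obtain ⟨C, hC⟩ : ∃ C, ∀ x ∈ Set.Icc (r₀ - 1) (r₀ + 1) ×ˢ Set.uIcc a b,
      ‖Function.uncurry F' x‖ ≤ C :=
    (isCompact_Icc.prod isCompact_uIcc).exists_bound_of_continuousOn hF'.continuousOn
  have := (intervalIntegral.hasDerivAt_integral_of_dominated_loc_of_deriv_le (μ := volume)
    (F := F) (F' := F') (x₀ := r₀) (s := Set.Icc (r₀ - 1) (r₀ + 1)) (a := a) (b := b)
    (bound := fun _ => C) (Icc_mem_nhds (by linarith) (by linarith)) ?_ ?_ ?_ ?_ ?_ ?_).2
  · exact this
  · refine Eventually.of_forall fun r => ?_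
    exact (hF.comp (by fun_prop : Continuous fun θ : ℝ => (r, θ))).aestronglyMeasurable
  · exact (hF.comp (by fun_prop : Continuous fun θ : ℝ => (r₀, θ))).intervalIntegrable _ _
  · exact (hF'.comp (by fun_prop : Continuous fun θ : ℝ => (r₀, θ))).aestronglyMeasurable
  · refine Eventually.of_forall fun θ hθ r hr => ?_
    exact hC (r, θ) ⟨hr, Set.uIoc_subset_uIcc hθ⟩
  · exact intervalIntegrable_const
  · exact Eventually.of_forall fun θ _ r _ => h r θ

lemma continuous_param {F : ℝ → ℝ → ℝ} (hF : Continuous (Function.uncurry F)) (a b : ℝ) :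
    Continuous fun r => ∫ θ in a..b, F r θ :=
  intervalIntegral.continuous_parametric_intervalIntegral_of_continuous' hF a b

/-- the unit vector of angle `θ`. -/
noncomputable def uv (θ : ℝ) : ℂ := Complex.exp (θ * Complex.I)

lemma uv_norm (θ : ℝ) : ‖uv θ‖ = 1 := Complex.norm_exp_ofReal_mul_I θ

lemma uv_continuous : Continuous uv := by unfold uv; fun_prop

lemma uv_hasDerivAt (θ : ℝ) : HasDerivAt uv (Complex.I * uv θ) θ := by
  unfold uv
  have h1 : HasDerivAt (fun t : ℝ => (t : ℂ) * Complex.I) (1 * Complex.I) θ :=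
    Complex.ofRealCLM.hasDerivAt.mul_const Complex.I
  have := h1.cexp
  convert this using 1
  ring

lemma uv_two_pi : uv (2 * Real.pi) = 1 := by
  unfold uv; push_cast; exact Complex.exp_two_pi_mul_I

lemma uv_zero : uv 0 = 1 := by simp [uv]

/-- integral over the circle of radius `r`. -/
noncomputable def circ (Φ : ℂ → ℝ) (x₀ : ℂ) (r : ℝ) : ℝ :=
  ∫ θ in (0 : ℝ)..(2 * Real.pi), Φ (x₀ + r * uv θ)

lemma circ_continuous {Φ : ℂ → ℝ} (hΦ : Continuous Φ) (x₀ : ℂ) : Continuous (circ Φ x₀) := by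
  refine continuous_param (F := fun r θ => Φ (x₀ + r * uv θ)) ?_ _ _
  have := uv_continuous
  simp only [Function.uncurry_def]
  fun_prop

lemma circ_zero (Φ : ℂ → ℝ) (x₀ : ℂ) : circ Φ x₀ 0 = 2 * Real.pi * Φ x₀ := by
  simp [circ]

/-- radial derivative of circular integrals. -/
noncomputable def circD (v : ℂ → ℝ) (x₀ : ℂ) (r : ℝ) : ℝ :=
  ∫ θ in (0 : ℝ)..(2 * Real.pi), fderiv ℝ v (x₀ + r * uv θ) (uv θ)

variable {v : ℂ → ℝ}

lemma circ_hasDerivAt (hv : ContDiff ℝ 1 v) (x₀ : ℂ) (r : ℝ) :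
    HasDerivAt (circ v x₀) (circD v x₀ r) r := by
  have huv := uv_continuous
  have hvc := hv.continuous
  have hdv : Continuous (fderiv ℝ v) := hv.continuous_fderiv (by norm_num)
  refine hasDerivAt_param (F := fun r θ => v (x₀ + r * uv θ))
    (F' := fun r θ => fderiv ℝ v (x₀ + r * uv θ) (uv θ)) ?_ ?_ _ _ ?_ r
  · simp only [Function.uncurry_def]; fun_prop
  · simp only [Function.uncurry_def]; fun_prop
  · intro r θ
    exact deriv_line ((hv.differentiable (by norm_num)).differentiableAt)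

lemma circD_continuous (hv : ContDiff ℝ 1 v) (x₀ : ℂ) : Continuous (circD v x₀) := by
  have huv := uv_continuous
  have hdv : Continuous (fderiv ℝ v) := hv.continuous_fderiv (by norm_num)
  refine continuous_param (F := fun r θ => fderiv ℝ v (x₀ + r * uv θ) (uv θ)) ?_ _ _
  simp only [Function.uncurry_def]; fun_prop

lemma lap_continuous (hv : ContDiff ℝ 2 v) : Continuous (lap v) := by
  have h1 : ContDiff ℝ 1 (fderiv ℝ v) := hv.fderiv_right (by norm_num)
  have h2 : Continuous (fderiv ℝ (fderiv ℝ v)) := h1.continuous_fderiv (by norm_num)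
  have h3 : lap v = fun x => (fderiv ℝ (fderiv ℝ v) x 1) 1 +
      (fderiv ℝ (fderiv ℝ v) x Complex.I) Complex.I := by
    ext x; simp only [lap]; rw [dd_eq hv.contDiffAt, dd_eq hv.contDiffAt]
  rw [h3]
  fun_prop

/-- `(r A'(r))' = r ∫ Δ v`. -/
lemma circD_hasDerivAt (hv : ContDiff ℝ 2 v) (x₀ : ℂ) (r : ℝ) :
    HasDerivAt (fun r => r * circD v x₀ r) (r * circ (lap v) x₀ r) r := by
  have huv := uv_continuous
  have h1 : ContDiff ℝ 1 (fderiv ℝ v) := hv.fderiv_right (by norm_num)
  have hdv : Continuous (fderiv ℝ v) := h1.continuous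
  have hddv : Continuous (fderiv ℝ (fderiv ℝ v)) := h1.continuous_fderiv (by norm_num)
  have hd1 : Differentiable ℝ (fderiv ℝ v) := h1.differentiable (by norm_num)
  -- derivative of `circD`
  have hD : HasDerivAt (circD v x₀)
      (∫ θ in (0 : ℝ)..(2 * Real.pi),
        (fderiv ℝ (fderiv ℝ v) (x₀ + r * uv θ) (uv θ)) (uv θ)) r := by
    refine hasDerivAt_param (F := fun r θ => fderiv ℝ v (x₀ + r * uv θ) (uv θ))
      (F' := fun r θ => (fderiv ℝ (fderiv ℝ v) (x₀ + r * uv θ) (uv θ)) (uv θ)) ?_ ?_ _ _ ?_ r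
    · simp only [Function.uncurry_def]; fun_prop
    · simp only [Function.uncurry_def]; fun_prop
    · intro r θ
      have h2 : HasDerivAt (fun s : ℝ => x₀ + (s : ℂ) * uv θ) (uv θ) r := by
        have := ((Complex.ofRealCLM.hasDerivAt (x := r)).mul_const (uv θ)).const_add x₀
        simpa using this
      have h3 : HasDerivAt (fun s : ℝ => fderiv ℝ v (x₀ + (s : ℂ) * uv θ))
          (fderiv ℝ (fderiv ℝ v) (x₀ + (r : ℂ) * uv θ) (uv θ)) r :=
        (hd1 _).hasFDerivAt.comp_hasDerivAt r h2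
      have h4 := h3.clm_apply (hasDerivAt_const r (uv θ))
      simpa using h4
  -- the angular total derivative integrates to zero
  have hang : ∫ θ in (0 : ℝ)..(2 * Real.pi),
      ((fderiv ℝ (fderiv ℝ v) (x₀ + r * uv θ) (r * (Complex.I * uv θ))) (Complex.I * uv θ) -
        fderiv ℝ v (x₀ + r * uv θ) (uv θ)) = 0 := by
    have h5 : ∀ θ : ℝ, HasDerivAt (fun θ => fderiv ℝ v (x₀ + r * uv θ) (Complex.I * uv θ))
        ((fderiv ℝ (fderiv ℝ v) (x₀ + r * uv θ) (r * (Complex.I * uv θ))) (Complex.I * uv θ) -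
        fderiv ℝ v (x₀ + r * uv θ) (uv θ)) θ := by
      intro θ
      have h6 : HasDerivAt (fun θ : ℝ => x₀ + (r : ℂ) * uv θ) (r * (Complex.I * uv θ)) θ :=
        ((uv_hasDerivAt θ).const_mul (r : ℂ)).const_add x₀
      have h7 : HasDerivAt (fun θ : ℝ => fderiv ℝ v (x₀ + (r : ℂ) * uv θ))
          (fderiv ℝ (fderiv ℝ v) (x₀ + (r : ℂ) * uv θ) (r * (Complex.I * uv θ))) θ :=
        (hd1 _).hasFDerivAt.comp_hasDerivAt θ h6
      have h8 : HasDerivAt (fun θ : ℝ => Complex.I * uv θ) (Complex.I * (Complex.I * uv θ)) θ :=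
        (uv_hasDerivAt θ).const_mul Complex.I
      have h9 := h7.clm_apply h8
      refine h9.congr_deriv ?_
      have : Complex.I * (Complex.I * uv θ) = -uv θ := by
        rw [← mul_assoc, Complex.I_mul_I]; ring
      rw [this, map_neg]
      ring
    rw [intervalIntegral.integral_eq_sub_of_hasDerivAt (fun θ _ => h5 θ)]
    · rw [uv_two_pi, uv_zero]; ring
    · refine Continuous.intervalIntegrable ?_ _ _
      fun_prop
  have h10 := (hasDerivAt_id r).mul hD
  simp only [id, one_mul] at h10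
  refine h10.congr_deriv ?_
  unfold circD circ
  have e1 : ∀ θ : ℝ, (r : ℝ) * lap v (x₀ + r * uv θ) =
      fderiv ℝ v (x₀ + r * uv θ) (uv θ) +
      r * (fderiv ℝ (fderiv ℝ v) (x₀ + r * uv θ) (uv θ)) (uv θ) +
      ((fderiv ℝ (fderiv ℝ v) (x₀ + r * uv θ) (r * (Complex.I * uv θ))) (Complex.I * uv θ) -
        fderiv ℝ v (x₀ + r * uv θ) (uv θ)) := by
    intro θ
    rw [lap_rot hv.contDiffAt (uv_norm θ), dd_eq hv.contDiffAt, dd_eq hv.contDiffAt]
    have : (r : ℂ) * (Complex.I * uv θ) = r • (Complex.I * uv θ) := by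
      rw [Complex.real_smul]
    rw [this, map_smul, smul_apply, smul_eq_mul]
    ring
  rw [← intervalIntegral.integral_const_mul, ← intervalIntegral.integral_const_mul]
  simp only [e1]
  rw [intervalIntegral.integral_add, hang, add_zero, intervalIntegral.integral_add]
  all_goals (refine Continuous.intervalIntegrable ?_ _ _; fun_prop)

/-- `r A'(r) = ∫_0^r s ∫ Δ v`. -/
theorem mul_circD (hv : ContDiff ℝ 2 v) (x₀ : ℂ) (r : ℝ) :
    r * circD v x₀ r = ∫ s in (0 : ℝ)..r, s * circ (lap v) x₀ s := by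
  have h := intervalIntegral.integral_eq_sub_of_hasDerivAt (a := 0) (b := r)
    (f := fun r => r * circD v x₀ r) (fun s _ => circD_hasDerivAt hv x₀ s)
    ((continuous_id.mul (circ_continuous (lap_continuous hv) x₀)).intervalIntegrable _ _)
  rw [h]; simp

/-- `A(r) - A(0) = ∫_0^r A'`. -/
theorem circ_sub (hv : ContDiff ℝ 2 v) (x₀ : ℂ) (r : ℝ) :
    circ v x₀ r - 2 * Real.pi * v x₀ = ∫ s in (0 : ℝ)..r, circD v x₀ s := by
  have h := intervalIntegral.integral_eq_sub_of_hasDerivAt (a := 0) (b := r)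
    (f := circ v x₀) (fun s _ => circ_hasDerivAt (hv.of_le (by norm_num)) x₀ s)
    ((circD_continuous (hv.of_le (by norm_num)) x₀).intervalIntegrable _ _)
  rw [h, circ_zero]

/-- polar coordinates. -/
theorem integral_ball_eq {Φ : ℂ → ℝ} (hΦ : Continuous Φ) (x₀ : ℂ) {r : ℝ} (hr : 0 ≤ r) :
    ∫ x in Metric.ball x₀ r, Φ x = ∫ s in (0 : ℝ)..r, s * circ Φ x₀ s := by
  classical
  have huv := uv_continuous
  set f : ℂ → ℝ := (Metric.ball (0 : ℂ) r).indicator fun y => Φ (x₀ + y) with hf
  have h1 : ∫ x in Metric.ball x₀ r, Φ x = ∫ y, f y := by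
    rw [← integral_indicator Metric.isOpen_ball.measurableSet,
      ← integral_add_left_eq_self (fun x => (Metric.ball x₀ r).indicator Φ x) x₀]
    refine integral_congr_ae (Eventually.of_forall fun y => ?_)
    simp only [hf, Set.indicator_apply, Metric.mem_ball, dist_self_add_left, dist_zero_right]
  rw [h1, ← Complex.integral_comp_polarCoord_symm]
  have h2 : ∫ p in polarCoord.target, p.1 • f (Complex.polarCoord.symm p) =
      ∫ p in (Set.Ioo (0 : ℝ) r) ×ˢ (Set.Ioo (-Real.pi) Real.pi), p.1 * Φ (x₀ + p.1 * uv p.2) := by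
    rw [← integral_indicator polarCoord.open_target.measurableSet,
      ← integral_indicator ((isOpen_Ioo.prod isOpen_Ioo).measurableSet)]
    refine integral_congr_ae (Eventually.of_forall fun p => ?_)
    simp only [Set.indicator_apply, polarCoord_target, Set.mem_prod, Set.mem_Ioi, Set.mem_Ioo,
      smul_eq_mul]
    have e1 : Complex.polarCoord.symm p = p.1 * uv p.2 := by
      rw [Complex.polarCoord_symm_apply, uv, Complex.exp_mul_I]
      push_cast; rfl
    have e2 : f (Complex.polarCoord.symm p) = if |p.1| < r then Φ (x₀ + p.1 * uv p.2) else 0 := by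
      simp only [hf, Set.indicator_apply, Metric.mem_ball, dist_zero_right]
      rw [e1, norm_mul, uv_norm, mul_one, Complex.norm_real, Real.norm_eq_abs]
    rw [e2]
    by_cases h0 : 0 < p.1
    · rw [abs_of_pos h0]
      by_cases h3 : p.1 < r
      · simp [h0, h3]
      · simp [h0, h3]
    · simp [h0]
  rw [h2, Measure.volume_eq_prod, setIntegral_prod]
  · rw [intervalIntegral.integral_of_le hr, integral_Ioc_eq_integral_Ioo]
    refine setIntegral_congr_fun measurableSet_Ioo fun s _ => ?_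
    simp only
    have hper : Function.Periodic (fun θ : ℝ => s * Φ (x₀ + s * uv θ)) (2 * Real.pi) := by
      intro θ
      simp only
      have : uv (θ + 2 * Real.pi) = uv θ := by
        have h3 : ∀ a b : ℝ, uv (a + b) = uv a * uv b := by
          intro a b; unfold uv; rw [← Complex.exp_add]; congr 1; push_cast; ring
        rw [h3, uv_two_pi, mul_one]
      rw [this]
    have h4 := hper.intervalIntegral_add_eq (-Real.pi) 0
    rw [zero_add, show -Real.pi + 2 * Real.pi = Real.pi by ring] at h4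
    rw [← integral_Ioc_eq_integral_Ioo, ← intervalIntegral.integral_of_le
      (by linarith [Real.pi_pos] : -Real.pi ≤ Real.pi), h4, circ,
      intervalIntegral.integral_const_mul]
  · have hcont : Continuous fun p : ℝ × ℝ => p.1 * Φ (x₀ + p.1 * uv p.2) := by fun_prop
    refine IntegrableOn.mono_set (t := Set.Icc (0 : ℝ) r ×ˢ Set.Icc (-Real.pi) Real.pi) ?_ ?_
    · exact hcont.continuousOn.integrableOn_compact (isCompact_Icc.prod isCompact_Icc)
    · exact Set.prod_mono Set.Ioo_subset_Icc_self Set.Ioo_subset_Icc_self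

end Pool.Agent.Helper86.Mems
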