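import Pool.Agent.Helper86.Mems.Basic

/-!
# Minimum principle and interior gradient / Hessian estimates in the plane
-/

set_option autoImplicit false
set_option maxHeartbeats 4000000

open Filter Topology MeasureTheory Set

namespace Pool.Agent.Helper86.Mems

/-- quadratic polynomials without mixed term. -/
def quad (a b c d : ℝ) (z : ℂ) : ℝ := a * z.re ^ 2 + b * z.im ^ 2 + c * z.re + d

lemma quad_hasFDerivAt (a b c d : ℝ) (z : ℂ) : HasFDerivAt (quad a b c d)
    ((2 * a * z.re + c) • Complex.reCLM + (2 * b * z.im) • Complex.imCLM) z := by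
  have h1 : HasFDerivAt (fun z : ℂ => z.re) Complex.reCLM z := Complex.reCLM.hasFDerivAt
  have h2 : HasFDerivAt (fun z : ℂ => z.im) Complex.imCLM z := Complex.imCLM.hasFDerivAt
  have h3 := ((((h1.pow 2).const_mul a).add ((h2.pow 2).const_mul b)).add
    (h1.const_mul c)).add_const d
  refine (h3.congr_fderiv ?_).congr_of_eventuallyEq (Eventually.of_forall fun y => ?_)
  · ext v
    simp
    ring
  · simp [quad]

lemma quad_contDiff (a b c d : ℝ) {n : WithTop ℕ∞} : ContDiff ℝ n (quad a b c d) := by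
  have h1 : ContDiff ℝ n (fun z : ℂ => z.re) := Complex.reCLM.contDiff
  have h2 : ContDiff ℝ n (fun z : ℂ => z.im) := Complex.imCLM.contDiff
  unfold quad
  fun_prop

lemma quad_dd (a b c d : ℝ) (v z : ℂ) :
    dd (quad a b c d) v z = 2 * a * v.re ^ 2 + 2 * b * v.im ^ 2 := by
  have e : (fun y => fderiv ℝ (quad a b c d) y v) =
      quad 0 0 0 0 + fun y : ℂ => (2 * a * y.re + c) * v.re + 2 * b * y.im * v.im := by
    ext y
    rw [(quad_hasFDerivAt a b c d y).fderiv]
    simp [quad]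
  have h1 : HasFDerivAt (fun z : ℂ => z.re) Complex.reCLM z := Complex.reCLM.hasFDerivAt
  have h2 : HasFDerivAt (fun z : ℂ => z.im) Complex.imCLM z := Complex.imCLM.hasFDerivAt
  have h3 : HasFDerivAt (fun y : ℂ => (2 * a * y.re + c) * v.re + 2 * b * y.im * v.im)
      ((2 * a * v.re) • Complex.reCLM + (2 * b * v.im) • Complex.imCLM) z := by
    have h4 := (((h1.const_mul (2 * a)).add_const c).mul_const v.re).add
      ((h2.const_mul (2 * b)).mul_const v.im)
    refine h4.congr_fderiv ?_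
    ext v
    simp
    ring
  have e2 : (fun y => fderiv ℝ (quad a b c d) y v) =
      fun y : ℂ => (2 * a * y.re + c) * v.re + 2 * b * y.im * v.im := by
    rw [e]; ext y; simp [quad]
  unfold dd
  rw [e2, h3.fderiv]
  simp
  ring

lemma quad_lap (a b c d : ℝ) (z : ℂ) : lap (quad a b c d) z = 2 * a + 2 * b := by
  unfold lap
  rw [quad_dd, quad_dd]; simp

/-- **Minimum principle.** -/
theorem min_principle {D : Set ℂ} (hD : IsOpen D) (hDb : Bornology.IsBounded D) {w : ℂ → ℝ}
    (hc : ContinuousOn w (closure D)) (h2 : ∀ x ∈ D, ContDiffAt ℝ 2 w x)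
    (hl : ∀ x ∈ D, lap w x ≤ 0) (hb : ∀ x ∈ closure D, x ∉ D → 0 ≤ w x) :
    ∀ x ∈ closure D, 0 ≤ w x := by
  obtain ⟨R, hR⟩ := hDb.closure.exists_norm_le
  have hR2 : ∀ x ∈ closure D, x.re ^ 2 + x.im ^ 2 ≤ R ^ 2 := by
    intro x hx
    have h := hR x hx
    have h3 := Complex.sq_norm x
    rw [Complex.normSq_apply] at h3
    have h4 : ‖x‖ ^ 2 ≤ R ^ 2 := by
      have := norm_nonneg x
      gcongr
    linarith
  have key : ∀ ε > 0, ∀ x ∈ closure D, 0 ≤ w x + ε * R ^ 2 := by
    intro ε hε x hx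
    have hcc : ContinuousOn (fun y => w y + quad (-ε) (-ε) 0 (ε * R ^ 2) y) (closure D) :=
      hc.add (quad_contDiff _ _ _ _ (n := 0)).continuous.continuousOn
    obtain ⟨y, hy, hmin⟩ := hDb.isCompact_closure.exists_isMinOn ⟨x, hx⟩ hcc
    have hq : ∀ z ∈ closure D, 0 ≤ quad (-ε) (-ε) 0 (ε * R ^ 2) z := by
      intro z hz
      have := hR2 z hz
      have h5 : 0 ≤ ε * (R ^ 2 - (z.re ^ 2 + z.im ^ 2)) := mul_nonneg hε.le (by linarith)
      have e : quad (-ε) (-ε) 0 (ε * R ^ 2) z = ε * (R ^ 2 - (z.re ^ 2 + z.im ^ 2)) := by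
        unfold quad; ring
      rw [e]; exact h5
    have hyD : y ∉ D := by
      intro hyD
      have hloc : IsLocalMin (fun y => w y + quad (-ε) (-ε) 0 (ε * R ^ 2) y) y :=
        hmin.isLocalMin (mem_of_superset (hD.mem_nhds hyD) subset_closure)
      have h3 := lap_nonneg_of_isLocalMin
        ((h2 y hyD).add (quad_contDiff (-ε) (-ε) 0 (ε * R ^ 2)).contDiffAt) hloc
      rw [lap_add (h2 y hyD) (quad_contDiff (-ε) (-ε) 0 (ε * R ^ 2)).contDiffAt, quad_lap] at h3
      have := hl y hyD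
      linarith
    have h3 := hmin hx
    simp only [mem_ofPred_eq] at h3
    have h4 := hb y hy hyD
    have h5 := hq y hy
    have h6 : quad (-ε) (-ε) 0 (ε * R ^ 2) x ≤ ε * R ^ 2 := by
      unfold quad
      nlinarith [sq_nonneg x.re, sq_nonneg x.im]
    linarith
  intro x hx
  have hlim : Tendsto (fun ε : ℝ => w x + ε * R ^ 2) (𝓝[>] 0) (𝓝 (w x + 0 * R ^ 2)) := by
    have : Continuous fun ε : ℝ => w x + ε * R ^ 2 := by fun_prop
    exact (this.tendsto 0).mono_left nhdsWithin_le_nhds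
  rw [zero_mul, add_zero] at hlim
  exact ge_of_tendsto hlim (eventually_mem_nhdsWithin.mono fun ε hε => key ε hε x hx)

/-- composition with an affine map. -/
lemma dd_comp_affine {u : ℂ → ℝ} {x₀ z : ℂ} (L : ℂ →L[ℝ] ℂ) (h : ContDiffAt ℝ 2 u (x₀ + L z))
    (v : ℂ) : dd (fun z => u (x₀ + L z)) v z = dd u (L v) (x₀ + L z) := by
  have haff : ∀ y, HasFDerivAt (fun z => x₀ + L z) L y := fun y => L.hasFDerivAt.const_add x₀
  have hcont : Continuous fun z => x₀ + L z := by fun_prop
  have hev : ∀ᶠ y in 𝓝 z, ContDiffAt ℝ 2 u (x₀ + L y) :=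
    (hcont.tendsto z).eventually (h.eventually (by simp))
  have h1 : (fun y => fderiv ℝ (fun z => u (x₀ + L z)) y v) =ᶠ[𝓝 z]
      fun y => (fun y => fderiv ℝ u y (L v)) (x₀ + L y) := by
    filter_upwards [hev] with y hy
    have h2 : HasFDerivAt (fun z => u (x₀ + L z)) ((fderiv ℝ u (x₀ + L y)).comp L) y :=
      (hy.differentiableAt (by norm_num)).hasFDerivAt.comp y (haff y)
    rw [h2.fderiv]; rfl
  unfold dd
  rw [h1.fderiv_eq]
  have h3 : DifferentiableAt ℝ (fun y => fderiv ℝ u y (L v)) (x₀ + L z) :=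
    (differentiableAt_fderiv h).clm_apply (differentiableAt_const _)
  have h4 : HasFDerivAt (fun y => (fun y => fderiv ℝ u y (L v)) (x₀ + L y))
      ((fderiv ℝ (fun y => fderiv ℝ u y (L v)) (x₀ + L z)).comp L) z :=
    HasFDerivAt.comp (g := fun y => fderiv ℝ u y (L v)) z h3.hasFDerivAt (haff z)
  rw [h4.fderiv]; rfl

lemma contDiffAt_comp_affine {u : ℂ → ℝ} {x₀ z : ℂ} (L : ℂ →L[ℝ] ℂ)
    (h : ContDiffAt ℝ 2 u (x₀ + L z)) : ContDiffAt ℝ 2 (fun z => u (x₀ + L z)) z :=
  h.comp z (contDiffAt_const.add L.contDiff.contDiffAt)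

/-- multiplication by a complex number as a real-linear map. -/
noncomputable def mulL (e : ℂ) : ℂ →L[ℝ] ℂ := ContinuousLinearMap.mul ℝ ℂ e

@[simp] lemma mulL_apply (e z : ℂ) : mulL e z = e * z := by simp [mulL]

/-- `z ↦ - e * conj z`. -/
noncomputable def mulR (e : ℂ) : ℂ →L[ℝ] ℂ := (mulL (-e)).comp (Complex.conjCLE : ℂ →L[ℝ] ℂ)

@[simp] lemma mulR_apply (e z : ℂ) : mulR e z = -e * (starRingEnd ℂ) z := by simp [mulR]

lemma lap_mulL {u : ℂ → ℝ} {x₀ z e : ℂ} (he : ‖e‖ = 1) (h : ContDiffAt ℝ 2 u (x₀ + mulL e z)) :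
    lap (fun z => u (x₀ + mulL e z)) z = lap u (x₀ + mulL e z) := by
  rw [lap_rot h he]
  unfold lap
  rw [dd_comp_affine _ h, dd_comp_affine _ h]
  simp [mul_comm e]

lemma dd_neg_dir {u : ℂ → ℝ} {x : ℂ} (h : ContDiffAt ℝ 2 u x) (v : ℂ) :
    dd u (-v) x = dd u v x := by
  rw [dd_eq h, dd_eq h]; simp

lemma lap_mulR {u : ℂ → ℝ} {x₀ z e : ℂ} (he : ‖e‖ = 1) (h : ContDiffAt ℝ 2 u (x₀ + mulR e z)) :
    lap (fun z => u (x₀ + mulR e z)) z = lap u (x₀ + mulR e z) := by
  rw [lap_rot h he]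
  unfold lap
  rw [dd_comp_affine _ h, dd_comp_affine _ h]
  have e1 : mulR e 1 = -e := by simp
  have e2 : mulR e Complex.I = Complex.I * e := by simp [mul_comm e]
  rw [e1, e2, dd_neg_dir h]

lemma lap_const_mul {u : ℂ → ℝ} {x : ℂ} (h : ContDiffAt ℝ 2 u x) (c : ℝ) :
    lap (fun y => c * u y) x = c * lap u x := by
  have key : ∀ v, dd (fun y => c * u y) v x = c * dd u v x := by
    intro v
    have hev : ∀ᶠ y in 𝓝 x, ContDiffAt ℝ 2 u y := h.eventually (by simp)
    have h1 : (fun y => fderiv ℝ (fun y => c * u y) y v) =ᶠ[𝓝 x]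
        fun y => c * (fderiv ℝ u y v) := by
      filter_upwards [hev] with y hy
      have h2 : HasFDerivAt (fun y => c * u y) (c • fderiv ℝ u y) y :=
        (hy.differentiableAt (by norm_num)).hasFDerivAt.const_mul c
      rw [h2.fderiv]; simp
    unfold dd
    rw [h1.fderiv_eq]
    have h3 : DifferentiableAt ℝ (fun y => fderiv ℝ u y v) x :=
      (differentiableAt_fderiv h).clm_apply (differentiableAt_const _)
    have h4 : HasFDerivAt (fun y => c * fderiv ℝ u y v)
        (c • fderiv ℝ (fun y => fderiv ℝ u y v) x) x := h3.hasFDerivAt.const_mul c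
    rw [h4.fderiv]; simp
  unfold lap
  rw [key, key]; ring

/-- a smooth function of one real variable which is `≥ 0` for small positive times and vanishes at
`0` has nonnegative derivative. -/
lemma deriv_nonneg_of_right {φ : ℝ → ℝ} {c : ℝ} (h : HasDerivAt φ c 0) (h0 : φ 0 = 0)
    (hpos : ∀ᶠ t in 𝓝[>] (0 : ℝ), 0 ≤ φ t) : 0 ≤ c := by
  have h1 := h.tendsto_slope_zero_right
  refine ge_of_tendsto h1 ?_
  filter_upwards [hpos, eventually_mem_nhdsWithin] with t ht ht0
  have : (0 : ℝ) < t := ht0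
  rw [zero_add, h0, sub_zero, smul_eq_mul]
  positivity

/-- **Interior gradient estimate.** -/
theorem grad_est {v : ℂ → ℝ} {x₀ : ℂ} {d M N : ℝ} (hd : 0 < d)
    (hv : ContDiffOn ℝ 2 v (Metric.ball x₀ (2 * d)))
    (hM : ∀ x ∈ Metric.ball x₀ (2 * d), |v x| ≤ M)
    (hN : ∀ x ∈ Metric.ball x₀ (2 * d), |lap v x| ≤ N) :
    ‖fderiv ℝ v x₀‖ ≤ 2 * M / d + d * N / 2 := by
  have hx₀ : x₀ ∈ Metric.ball x₀ (2 * d) := Metric.mem_ball_self (by positivity)
  have hM0 : 0 ≤ M := (abs_nonneg _).trans (hM x₀ hx₀)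
  have hN0 : 0 ≤ N := (abs_nonneg _).trans (hN x₀ hx₀)
  have hvat : ∀ x ∈ Metric.ball x₀ (2 * d), ContDiffAt ℝ 2 v x := fun x hx =>
    hv.contDiffAt (Metric.isOpen_ball.mem_nhds hx)
  -- unit directions
  have key : ∀ e : ℂ, ‖e‖ = 1 → fderiv ℝ v x₀ e ≤ 2 * M / d + d * N / 2 := by
    intro e he
    set D : Set ℂ := Ioo 0 d ×ℂ Ioo (-d) d with hDdef
    have hDo : IsOpen D := isOpen_Ioo.reProdIm isOpen_Ioo
    have hclD : closure D = Icc 0 d ×ℂ Icc (-d) d := by
      rw [hDdef, Complex.closure_reProdIm, closure_Ioo hd.ne, closure_Ioo (by linarith)]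
    have hnorm : ∀ z ∈ closure D, ‖z‖ < 2 * d := by
      intro z hz
      rw [hclD, Complex.mem_reProdIm] at hz
      have h1 : z.re ^ 2 ≤ d ^ 2 := by nlinarith [hz.1.1, hz.1.2]
      have h2 : z.im ^ 2 ≤ d ^ 2 := by nlinarith [hz.2.1, hz.2.2]
      have h3 := Complex.sq_norm z
      rw [Complex.normSq_apply] at h3
      have h4 : ‖z‖ ^ 2 < (2 * d) ^ 2 := by nlinarith
      exact lt_of_pow_lt_pow_left₀ 2 (by positivity) h4
    have hDb : Bornology.IsBounded D :=
      (Metric.isBounded_iff_subset_closedBall 0).2 ⟨2 * d, fun z hz => by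
        simpa using (hnorm z (subset_closure hz)).le⟩
    have hL : ∀ z, ‖z‖ < 2 * d → x₀ + mulL e z ∈ Metric.ball x₀ (2 * d) := by
      intro z hz
      simp [he, hz]
    have hR : ∀ z, ‖z‖ < 2 * d → x₀ + mulR e z ∈ Metric.ball x₀ (2 * d) := by
      intro z hz
      simp [he, hz]
    set a : ℝ := -(M / d ^ 2 + N / 2) with ha
    set b : ℝ := M / d ^ 2 with hb
    set c : ℝ := 2 * M / d + d * N / 2 with hc
    -- the comparison function
    set W : ℂ → ℝ := fun z => quad a b c 0 z -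
      (1 / 2 * v (x₀ + mulL e z) - 1 / 2 * v (x₀ + mulR e z)) with hW
    have hV1 : ∀ z, ‖z‖ < 2 * d → ContDiffAt ℝ 2 (fun z => v (x₀ + mulL e z)) z := fun z hz =>
      contDiffAt_comp_affine _ (hvat _ (hL z hz))
    have hV2 : ∀ z, ‖z‖ < 2 * d → ContDiffAt ℝ 2 (fun z => v (x₀ + mulR e z)) z := fun z hz =>
      contDiffAt_comp_affine _ (hvat _ (hR z hz))
    have hV1' : ∀ z, ‖z‖ < 2 * d → ContDiffAt ℝ 2 (fun z => 1 / 2 * v (x₀ + mulL e z)) z :=
      fun z hz => contDiffAt_const.mul (hV1 z hz)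
    have hV2' : ∀ z, ‖z‖ < 2 * d → ContDiffAt ℝ 2 (fun z => 1 / 2 * v (x₀ + mulR e z)) z :=
      fun z hz => contDiffAt_const.mul (hV2 z hz)
    have hWat : ∀ z, ‖z‖ < 2 * d → ContDiffAt ℝ 2 W z := fun z hz =>
      (quad_contDiff _ _ _ _).contDiffAt.sub ((hV1' z hz).sub (hV2' z hz))
    have hWl : ∀ z ∈ D, lap W z ≤ 0 := by
      intro z hz
      have hz' := hnorm z (subset_closure hz)
      rw [hW, lap_sub (quad_contDiff _ _ _ _).contDiffAt ((hV1' z hz').sub (hV2' z hz')), quad_lap,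
        lap_sub (hV1' z hz') (hV2' z hz'), lap_const_mul (hV1 z hz'), lap_const_mul (hV2 z hz'),
        lap_mulL he (hvat _ (hL z hz')), lap_mulR he (hvat _ (hR z hz'))]
      have h1 := abs_le.1 (hN _ (hL z hz'))
      have h2 := abs_le.1 (hN _ (hR z hz'))
      have e1 : 2 * a + 2 * b = -N := by rw [ha, hb]; ring
      rw [e1]
      linarith [h1.1, h2.2]
    have hWb : ∀ z ∈ closure D, z ∉ D → 0 ≤ W z := by
      intro z hz hzD
      have hz' := hnorm z hz
      have h1 := abs_le.1 (hM _ (hL z hz'))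
      have h2 := abs_le.1 (hM _ (hR z hz'))
      rw [hclD, Complex.mem_reProdIm] at hz
      have hq : quad a b c 0 z = M / d ^ 2 * (z.im ^ 2 + z.re * (2 * d - z.re)) +
          N / 2 * (z.re * (d - z.re)) := by
        simp only [quad, ha, hb, hc]
        field_simp
        ring
      have hMd : 0 ≤ M / d ^ 2 := by positivity
      have hr0 := hz.1.1
      have hrd := hz.1.2
      have h3 : 0 ≤ N / 2 * (z.re * (d - z.re)) :=
        mul_nonneg (by positivity) (mul_nonneg hr0 (by linarith))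
      -- cases
      rcases hr0.eq_or_lt with h | h
      · -- `re z = 0`
        have hre : z.re = 0 := h.symm
        have e1 : mulR e z = mulL e z := by
          simp only [mulR_apply, mulL_apply]
          have : (starRingEnd ℂ) z = -z := by
            apply Complex.ext <;> simp [hre]
          rw [this]; ring
        simp only [hW, e1, sub_self, sub_zero]
        rw [hq]
        have : 0 ≤ M / d ^ 2 * (z.im ^ 2 + z.re * (2 * d - z.re)) := by
          rw [hre, zero_mul, add_zero]; positivity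
        linarith
      · have hbig : d ^ 2 ≤ z.im ^ 2 + z.re * (2 * d - z.re) := by
          rcases hrd.eq_or_lt with h' | h'
          · rw [h']; nlinarith [sq_nonneg z.im]
          · have h4 : z.im ^ 2 = d ^ 2 := by
              by_contra hne
              apply hzD
              rw [hDdef, Complex.mem_reProdIm]
              refine ⟨⟨h, h'⟩, ?_, ?_⟩
              · rcases hz.2.1.eq_or_lt with h5 | h5
                · exfalso; apply hne; rw [← h5]; ring
                · exact h5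
              · rcases hz.2.2.eq_or_lt with h5 | h5
                · exfalso; apply hne; rw [h5]
                · exact h5
            have h5 : 0 ≤ z.re * (2 * d - z.re) := mul_nonneg hr0 (by linarith)
            linarith
        have h6 : M ≤ M / d ^ 2 * (z.im ^ 2 + z.re * (2 * d - z.re)) := by
          calc M = M / d ^ 2 * d ^ 2 := by field_simp
            _ ≤ _ := mul_le_mul_of_nonneg_left hbig hMd
        simp only [hW]
        rw [hq]
        linarith [h1.2, h2.1]
    have hWnn := min_principle hDo hDb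
      (fun z hz => (hWat z (hnorm z hz)).continuousAt.continuousWithinAt)
      (fun z hz => hWat z (hnorm z (subset_closure hz))) hWl hWb
    -- derivative at zero along the real axis
    have hdv : HasFDerivAt v (fderiv ℝ v x₀) x₀ := ((hvat x₀ hx₀).differentiableAt
      (by norm_num)).hasFDerivAt
    have hd1 : HasDerivAt (fun t : ℝ => v (x₀ + mulL e (t : ℂ))) (fderiv ℝ v x₀ e) 0 := by
      have h1 : HasDerivAt (fun t : ℝ => x₀ + mulL e (t : ℂ)) (mulL e 1) 0 :=
        ((mulL e).hasFDerivAt.comp_hasDerivAt (0 : ℝ)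
          (Complex.ofRealCLM.hasDerivAt (x := (0 : ℝ)))).const_add x₀
      have h2 : HasFDerivAt v (fderiv ℝ v x₀) (x₀ + mulL e ((0 : ℝ) : ℂ)) := by
        simpa using hdv
      have h3 := h2.comp_hasDerivAt (0 : ℝ) h1
      have e3 : mulL e 1 = e := by simp
      rw [e3] at h3
      exact h3
    have hd2 : HasDerivAt (fun t : ℝ => v (x₀ + mulR e (t : ℂ))) (-(fderiv ℝ v x₀ e)) 0 := by
      have h1 : HasDerivAt (fun t : ℝ => x₀ + mulR e (t : ℂ)) (mulR e 1) 0 :=
        ((mulR e).hasFDerivAt.comp_hasDerivAt (0 : ℝ)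
          (Complex.ofRealCLM.hasDerivAt (x := (0 : ℝ)))).const_add x₀
      have h2 : HasFDerivAt v (fderiv ℝ v x₀) (x₀ + mulR e ((0 : ℝ) : ℂ)) := by
        simpa using hdv
      have h3 := h2.comp_hasDerivAt (0 : ℝ) h1
      have e3 : mulR e 1 = -e := by simp
      rw [e3, map_neg] at h3
      exact h3
    have hd3 : HasDerivAt (fun t : ℝ => quad a b c 0 (t : ℂ)) c 0 := by
      have e4 : (fun t : ℝ => quad a b c 0 (t : ℂ)) = fun t => a * t ^ 2 + c * t := by
        ext t; simp [quad]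
      rw [e4]
      have h1 : HasDerivAt (fun t : ℝ => a * t ^ 2 + c * t) (a * (2 * (0 : ℝ)) + c * 1) 0 := by
        have h0 : HasDerivAt (fun t : ℝ => t ^ 2) (2 * (0 : ℝ)) 0 := by
          have := hasDerivAt_pow 2 (0 : ℝ)
          simpa using this
        exact (h0.const_mul a).add ((hasDerivAt_id (0 : ℝ)).const_mul c)
      have e5 : a * (2 * (0 : ℝ)) + c * 1 = c := by ring
      rw [e5] at h1
      exact h1
    have hdW : HasDerivAt (fun t : ℝ => W (t : ℂ))
        (c - (1 / 2 * fderiv ℝ v x₀ e - 1 / 2 * (-(fderiv ℝ v x₀ e)))) 0 :=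
      hd3.sub ((hd1.const_mul (1 / 2)).sub (hd2.const_mul (1 / 2)))
    have hfin := deriv_nonneg_of_right hdW (by simp [hW, quad]) (by
      filter_upwards [Ioo_mem_nhdsGT hd] with t ht
      apply hWnn
      rw [hclD, Complex.mem_reProdIm]
      simp only [Complex.ofReal_re, Complex.ofReal_im]
      exact ⟨⟨ht.1.le, ht.2.le⟩, by linarith, hd.le⟩)
    linarith
  refine ContinuousLinearMap.opNorm_le_bound _ (by positivity) fun y => ?_
  rcases eq_or_ne y 0 with rfl | hy
  · simp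
  · have hy0 : 0 < ‖y‖ := norm_pos_iff.2 hy
    set e : ℂ := (‖y‖⁻¹ : ℝ) • y with he
    have he1 : ‖e‖ = 1 := by
      rw [he, norm_smul, Real.norm_eq_abs, abs_of_pos (inv_pos.2 hy0), inv_mul_cancel₀ hy0.ne']
    have h1 := key e he1
    have h2 := key (-e) (by rw [norm_neg, he1])
    have h3 : fderiv ℝ v x₀ y = ‖y‖ * fderiv ℝ v x₀ e := by
      rw [he, map_smul, smul_eq_mul, ← mul_assoc, mul_inv_cancel₀ hy0.ne', one_mul]
    rw [map_neg] at h2
    rw [Real.norm_eq_abs, h3, abs_mul, abs_of_pos hy0, mul_comm]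
    have h4 : |fderiv ℝ v x₀ e| ≤ 2 * M / d + d * N / 2 := abs_le.2 ⟨by linarith, h1⟩
    gcongr

end Pool.Agent.Helper86.Mems
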