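import Mathlib

/-!
# Nonlinearities blowing up at 1: Nedev's pointwise inequality
-/

set_option autoImplicit false

open Filter Topology MeasureTheory Set

namespace Pool.Agent.Helper86.Mems

/-- A convex nondecreasing nonlinearity on `[0,1)` with `f 0 = 1`, blowing up at `1`; `f'` is its
(one-sided at `0`) derivative. -/
structure Nonlin (f f' : ℝ → ℝ) : Prop where
  hasDeriv : ∀ t ∈ Ioo (0 : ℝ) 1, HasDerivAt f (f' t) t
  cont : ContinuousOn f (Ico 0 1)
  cont' : ContinuousOn f' (Ico 0 1)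
  mono : MonotoneOn f (Ico 0 1)
  mono' : MonotoneOn f' (Ico 0 1)
  nonneg' : ∀ t ∈ Ico (0 : ℝ) 1, 0 ≤ f' t
  zero : f 0 = 1
  blowup : Tendsto f (𝓝[<] 1) atTop

variable {f f' : ℝ → ℝ}

/-- cut-off. -/
noncomputable def chi (t : ℝ) : ℝ := max 0 (min 1 (4 * t - 1))

lemma chi_nonneg (t : ℝ) : 0 ≤ chi t := le_max_left _ _
lemma chi_le_one (t : ℝ) : chi t ≤ 1 := max_le zero_le_one (min_le_left _ _)
lemma chi_continuous : Continuous chi := by unfold chi; fun_prop
lemma chi_eq_zero {t : ℝ} (h : t ≤ 1 / 4) : chi t = 0 := by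
  unfold chi; exact max_eq_left ((min_le_right _ _).trans (by linarith))
lemma chi_eq_one {t : ℝ} (h : 1 / 2 ≤ t) : chi t = 1 := by
  unfold chi; rw [min_eq_left (by linarith)]; exact max_eq_right zero_le_one

/-- `ψ' = χ f'`. -/
noncomputable def mfun (f' : ℝ → ℝ) (t : ℝ) : ℝ := chi t * f' t
/-- `ψ`. -/
noncomputable def psi (f' : ℝ → ℝ) (t : ℝ) : ℝ := ∫ s in (0 : ℝ)..t, mfun f' s
/-- `g = ∫ ψ'^2`. -/
noncomputable def gfun (f' : ℝ → ℝ) (t : ℝ) : ℝ := ∫ s in (0 : ℝ)..t, mfun f' s ^ 2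

namespace Nonlin

lemma one_le (h : Nonlin f f') {t : ℝ} (ht : t ∈ Ico (0 : ℝ) 1) : 1 ≤ f t := by
  rw [← h.zero]; exact h.mono ⟨le_rfl, one_pos⟩ ht ht.1

lemma tangent (h : Nonlin f f') {s t : ℝ} (hs : s ∈ Ico (0 : ℝ) 1) (ht : t ∈ Ico (0 : ℝ) 1) :
    f t + f' t * (s - t) ≤ f s := by
  rcases lt_trichotomy s t with hst | rfl | hst
  · obtain ⟨c, hc, hc'⟩ := exists_hasDerivAt_eq_slope f f' hst
      (h.cont.mono fun x hx => ⟨hs.1.trans hx.1, hx.2.trans_lt ht.2⟩)
      (fun x hx => h.hasDeriv x ⟨hs.1.trans_lt hx.1, hx.2.trans ht.2⟩)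
    have h1 : f' c ≤ f' t := h.mono' ⟨hs.1.trans hc.1.le, hc.2.trans ht.2⟩ ht hc.2.le
    rw [eq_div_iff (by linarith)] at hc'
    have h2 : f' c * (t - s) ≤ f' t * (t - s) := mul_le_mul_of_nonneg_right h1 (by linarith)
    linarith
  · simp
  · obtain ⟨c, hc, hc'⟩ := exists_hasDerivAt_eq_slope f f' hst
      (h.cont.mono fun x hx => ⟨ht.1.trans hx.1, hx.2.trans_lt hs.2⟩)
      (fun x hx => h.hasDeriv x ⟨ht.1.trans_lt hx.1, hx.2.trans hs.2⟩)
    have h1 : f' t ≤ f' c := h.mono' ht ⟨ht.1.trans hc.1.le, hc.2.trans hs.2⟩ hc.1.le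
    rw [eq_div_iff (by linarith)] at hc'
    have h2 : f' t * (s - t) ≤ f' c * (s - t) := mul_le_mul_of_nonneg_right h1 (by linarith)
    linarith

lemma le_one_add (h : Nonlin f f') {t : ℝ} (ht : t ∈ Ico (0 : ℝ) 1) : f t ≤ 1 + f' t := by
  have h1 := h.tangent (s := 0) ⟨le_rfl, one_pos⟩ ht
  rw [h.zero] at h1
  have h2 := h.nonneg' t ht
  have h3 : f' t * t ≤ f' t := by nlinarith [ht.2]
  linarith

lemma exists_large (h : Nonlin f f') (K : ℝ) {b : ℝ} (hb : b < 1) :
    ∃ a, 0 < a ∧ b ≤ a ∧ a < 1 ∧ K ≤ f a := by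
  have h1 := (h.blowup.eventually_ge_atTop K)
  have h2 : ∀ᶠ t in 𝓝[<] (1 : ℝ), t ∈ Ioo (max b 0) 1 :=
    Ioo_mem_nhdsLT (max_lt hb one_pos)
  obtain ⟨a, ha1, ha2⟩ := (h1.and h2).exists
  exact ⟨a, (le_max_right _ _).trans_lt ha2.1, ((le_max_left _ _).trans_lt ha2.1).le, ha2.2, ha1⟩

lemma m_continuousOn (h : Nonlin f f') : ContinuousOn (mfun f') (Iio 1) := by
  intro t ht
  apply ContinuousAt.continuousWithinAt
  rcases lt_or_ge t (1 / 4) with h1 | h1
  · have : mfun f' =ᶠ[𝓝 t] fun _ => 0 := by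
      filter_upwards [Iio_mem_nhds h1] with s hs
      simp [mfun, chi_eq_zero (le_of_lt hs)]
    exact continuousAt_const.congr this.symm
  · exact chi_continuous.continuousAt.mul (h.cont'.continuousAt
      (Ico_mem_nhds (by linarith) ht))

lemma m_nonneg (h : Nonlin f f') {t : ℝ} (ht : t < 1) : 0 ≤ mfun f' t := by
  rcases lt_or_ge t (1 / 4) with h1 | h1
  · simp [mfun, chi_eq_zero h1.le]
  · exact mul_nonneg (chi_nonneg _) (h.nonneg' t ⟨by linarith, ht⟩)

lemma m_intervalIntegrable (h : Nonlin f f') {a b : ℝ} (ha : a < 1) (hb : b < 1) :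
    IntervalIntegrable (mfun f') volume a b := by
  refine ContinuousOn.intervalIntegrable (h.m_continuousOn.mono fun x hx => ?_)
  rw [mem_uIcc] at hx
  rcases hx with hx | hx
  · exact hx.2.trans_lt hb
  · exact hx.2.trans_lt ha

lemma m2_intervalIntegrable (h : Nonlin f f') {a b : ℝ} (ha : a < 1) (hb : b < 1) :
    IntervalIntegrable (fun s => mfun f' s ^ 2) volume a b := by
  refine ContinuousOn.intervalIntegrable ((h.m_continuousOn.pow 2).mono fun x hx => ?_)
  rw [mem_uIcc] at hx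
  rcases hx with hx | hx
  · exact hx.2.trans_lt hb
  · exact hx.2.trans_lt ha

lemma psi_hasDerivAt (h : Nonlin f f') {t : ℝ} (ht : t < 1) :
    HasDerivAt (psi f') (mfun f' t) t :=
  intervalIntegral.integral_hasDerivAt_right (h.m_intervalIntegrable one_pos ht)
    (h.m_continuousOn.stronglyMeasurableAtFilter isOpen_Iio t ht)
    (h.m_continuousOn.continuousAt (Iio_mem_nhds ht))

lemma gfun_hasDerivAt (h : Nonlin f f') {t : ℝ} (ht : t < 1) :
    HasDerivAt (gfun f') (mfun f' t ^ 2) t :=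
  intervalIntegral.integral_hasDerivAt_right (h.m2_intervalIntegrable one_pos ht)
    ((h.m_continuousOn.pow 2).stronglyMeasurableAtFilter isOpen_Iio t ht)
    ((h.m_continuousOn.pow 2).continuousAt (Iio_mem_nhds ht))

lemma psi_eq_zero {t : ℝ} (ht : t ≤ 1 / 4) : psi f' t = 0 := by
  unfold psi
  rw [intervalIntegral.integral_congr (g := fun _ => (0 : ℝ))]
  · simp
  · intro s hs
    have : s ≤ 1 / 4 := by
      rw [mem_uIcc] at hs
      rcases hs with hs | hs <;> linarith [hs.2]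
    simp [mfun, chi_eq_zero this]

lemma gfun_eq_zero {t : ℝ} (ht : t ≤ 1 / 4) : gfun f' t = 0 := by
  unfold gfun
  rw [intervalIntegral.integral_congr (g := fun _ => (0 : ℝ))]
  · simp
  · intro s hs
    have : s ≤ 1 / 4 := by
      rw [mem_uIcc] at hs
      rcases hs with hs | hs <;> linarith [hs.2]
    simp [mfun, chi_eq_zero this]

lemma psi_contDiffOn (h : Nonlin f f') : ContDiffOn ℝ 1 (psi f') (Iio 1) := by
  rw [show (1 : WithTop ℕ∞) = 0 + 1 by norm_num, contDiffOn_succ_iff_deriv_of_isOpen isOpen_Iio]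
  refine ⟨fun t ht => (h.psi_hasDerivAt ht).differentiableAt.differentiableWithinAt, by simp, ?_⟩
  rw [contDiffOn_zero]
  exact h.m_continuousOn.congr fun t ht => (h.psi_hasDerivAt ht).deriv

lemma gfun_contDiffOn (h : Nonlin f f') : ContDiffOn ℝ 1 (gfun f') (Iio 1) := by
  rw [show (1 : WithTop ℕ∞) = 0 + 1 by norm_num, contDiffOn_succ_iff_deriv_of_isOpen isOpen_Iio]
  refine ⟨fun t ht => (h.gfun_hasDerivAt ht).differentiableAt.differentiableWithinAt, by simp, ?_⟩
  rw [contDiffOn_zero]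
  exact (h.m_continuousOn.pow 2).congr fun t ht => (h.gfun_hasDerivAt ht).deriv

lemma psi_mono (h : Nonlin f f') {s t : ℝ} (hst : s ≤ t) (ht : t < 1) :
    psi f' s ≤ psi f' t := by
  have h1 : psi f' t - psi f' s = ∫ x in s..t, mfun f' x := by
    unfold psi
    exact intervalIntegral.integral_interval_sub_left
      (h.m_intervalIntegrable one_pos ht) (h.m_intervalIntegrable one_pos (hst.trans_lt ht))
  have h2 : 0 ≤ ∫ x in s..t, mfun f' x :=
    intervalIntegral.integral_nonneg hst fun x hx => h.m_nonneg (hx.2.trans_lt ht)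
  linarith

lemma gfun_mono (h : Nonlin f f') {s t : ℝ} (hst : s ≤ t) (ht : t < 1) :
    gfun f' s ≤ gfun f' t := by
  have h1 : gfun f' t - gfun f' s = ∫ x in s..t, mfun f' x ^ 2 := by
    unfold gfun
    exact intervalIntegral.integral_interval_sub_left
      (h.m2_intervalIntegrable one_pos ht) (h.m2_intervalIntegrable one_pos (hst.trans_lt ht))
  have h2 : 0 ≤ ∫ x in s..t, mfun f' x ^ 2 :=
    intervalIntegral.integral_nonneg hst fun x hx => sq_nonneg _
  linarith

lemma psi_nonneg (h : Nonlin f f') {t : ℝ} (h0 : 0 ≤ t) (ht : t < 1) : 0 ≤ psi f' t := by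
  have := h.psi_mono h0 ht
  simpa [psi] using this

lemma gfun_nonneg (h : Nonlin f f') {t : ℝ} (h0 : 0 ≤ t) (ht : t < 1) : 0 ≤ gfun f' t := by
  have := h.gfun_mono h0 ht
  simpa [gfun] using this

/-- for `a ≤ t`, `f'(t)ψ(t) - g(t) ≥ (f'(t) - f'(a)) ψ(a)`. -/
lemma key_ineq (h : Nonlin f f') {a t : ℝ} (ha : 0 ≤ a) (hat : a ≤ t) (ht : t < 1) :
    (f' t - f' a) * psi f' a ≤ f' t * psi f' t - gfun f' t := by
  have hi1 := h.m_intervalIntegrable (a := 0) one_pos (hat.trans_lt ht)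
  have hi2 := h.m2_intervalIntegrable (a := 0) one_pos (hat.trans_lt ht)
  have hj1 := h.m_intervalIntegrable (hat.trans_lt ht) ht
  have hj2 := h.m2_intervalIntegrable (hat.trans_lt ht) ht
  have e1 : psi f' t = psi f' a + ∫ x in a..t, mfun f' x := by
    unfold psi; rw [intervalIntegral.integral_add_adjacent_intervals hi1 hj1]
  have e2 : gfun f' t = gfun f' a + ∫ x in a..t, mfun f' x ^ 2 := by
    unfold gfun; rw [intervalIntegral.integral_add_adjacent_intervals hi2 hj2]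
  have hm : ∀ x, 0 ≤ x → x ≤ t → mfun f' x ^ 2 ≤ f' x * mfun f' x := by
    intro x hx0 hx
    have h1 := h.m_nonneg (hx.trans_lt ht)
    have h2 := h.nonneg' x ⟨hx0, hx.trans_lt ht⟩
    have h3 : mfun f' x ≤ f' x := by
      unfold mfun; exact mul_le_of_le_one_left h2 (chi_le_one x)
    nlinarith
  have h1 : gfun f' a ≤ f' a * psi f' a := by
    unfold gfun psi
    rw [← intervalIntegral.integral_const_mul]
    refine intervalIntegral.integral_mono_on ha hi2 (hi1.const_mul _) fun x hx => ?_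
    have h3 := hm x hx.1 (hx.2.trans hat)
    have h4 : f' x ≤ f' a := h.mono' ⟨hx.1, hx.2.trans_lt (hat.trans_lt ht)⟩
      ⟨ha, hat.trans_lt ht⟩ hx.2
    have h5 := h.m_nonneg (hx.2.trans_lt (hat.trans_lt ht))
    nlinarith
  have h2 : ∫ x in a..t, mfun f' x ^ 2 ≤ f' t * ∫ x in a..t, mfun f' x := by
    rw [← intervalIntegral.integral_const_mul]
    refine intervalIntegral.integral_mono_on hat hj2 (hj1.const_mul _) fun x hx => ?_
    have h3 := hm x (ha.trans hx.1) hx.2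
    have h4 : f' x ≤ f' t := h.mono' ⟨ha.trans hx.1, hx.2.trans_lt ht⟩ ⟨ha.trans hat, ht⟩ hx.2
    have h5 := h.m_nonneg (hx.2.trans_lt ht)
    nlinarith
  rw [e1, e2]
  nlinarith

lemma le_psi_add (h : Nonlin f f') {t : ℝ} (h0 : 0 ≤ t) (ht : t < 1) :
    f t ≤ psi f' t + f (1 / 2) := by
  rcases le_total t (1 / 2) with h1 | h1
  · have h2 := h.psi_nonneg h0 ht
    have h3 : f t ≤ f (1 / 2) := h.mono ⟨h0, ht⟩ ⟨by norm_num, by norm_num⟩ h1
    linarith
  · have h2 : ∫ x in (1 / 2 : ℝ)..t, mfun f' x = f t - f (1 / 2) := by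
      refine intervalIntegral.integral_eq_sub_of_hasDerivAt (fun x hx => ?_)
        (h.m_intervalIntegrable (by norm_num) ht)
      rw [uIcc_of_le h1] at hx
      have := h.hasDeriv x ⟨by linarith [hx.1], hx.2.trans_lt ht⟩
      simpa [mfun, chi_eq_one hx.1] using this
    have h3 : psi f' t = psi f' (1 / 2) + ∫ x in (1 / 2 : ℝ)..t, mfun f' x := by
      unfold psi
      rw [intervalIntegral.integral_add_adjacent_intervals
        (h.m_intervalIntegrable one_pos (by norm_num)) (h.m_intervalIntegrable (by norm_num) ht)]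
    have h4 := h.psi_nonneg (t := 1 / 2) (by norm_num) (by norm_num)
    linarith

/-- **Nedev's pointwise inequality.** -/
theorem nedev (h : Nonlin f f') : ∃ C, 0 ≤ C ∧ ∀ t ∈ Ico (0 : ℝ) 1,
    1 / 4 * (f t * f' t) ≤ f' t * psi f' t ^ 2 - f t * gfun f' t + C := by
  set k := f (1 / 2) with hk
  have hk1 : 1 ≤ k := h.one_le ⟨by norm_num, by norm_num⟩
  obtain ⟨a, ha0, -, ha1, hfa⟩ := h.exists_large (2 * k + 1) (b := 0) one_pos
  set P := psi f' a with hP
  have hPk : k + 1 ≤ P := by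
    have := h.le_psi_add ha0.le ha1
    linarith
  obtain ⟨b, hb0, hab, hb1, hfb⟩ := h.exists_large (1 + 2 * f' a * P) ha1
  have hf'a := h.nonneg' a ⟨ha0.le, ha1⟩
  have hf'b : 2 * f' a * P ≤ f' b := by
    have := h.le_one_add ⟨hb0.le, hb1⟩; linarith
  have hfb1 := h.one_le ⟨hb0.le, hb1⟩
  have hf'b0 := h.nonneg' b ⟨hb0.le, hb1⟩
  have hgb0 := h.gfun_nonneg hb0.le hb1
  refine ⟨f b * gfun f' b + 1 / 4 * (f b * f' b), by positivity, fun t ht => ?_⟩
  have hft := h.one_le ht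
  have hf't := h.nonneg' t ht
  have hψ := h.psi_nonneg ht.1 ht.2
  have hg := h.gfun_nonneg ht.1 ht.2
  rcases le_total t b with htb | htb
  · have h1 : f t ≤ f b := h.mono ht ⟨hb0.le, hb1⟩ htb
    have h2 : f' t ≤ f' b := h.mono' ht ⟨hb0.le, hb1⟩ htb
    have h3 : gfun f' t ≤ gfun f' b := h.gfun_mono htb hb1
    have h4 : f t * f' t ≤ f b * f' b := by gcongr
    have h5 : f t * gfun f' t ≤ f b * gfun f' b := by gcongr
    have h6 : 0 ≤ f' t * psi f' t ^ 2 := by positivity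
    linarith
  · have hat := hab.trans htb
    have h1 := h.key_ineq ha0.le hat ht.2
    have h2 := h.key_ineq le_rfl ht.1 ht.2
    have h2' : gfun f' t ≤ f' t * psi f' t := by
      have e : psi f' 0 = 0 := by simp [psi]
      rw [e, mul_zero] at h2
      linarith
    have h3 := h.le_psi_add ht.1 ht.2
    have h4 : P ≤ psi f' t := h.psi_mono hat ht.2
    have h5 : f' b ≤ f' t := h.mono' ⟨hb0.le, hb1⟩ ht htb
    -- main chain
    have h6 : (psi f' t + k) * gfun f' t ≥ f t * gfun f' t := by gcongr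
    have h7 : psi f' t * ((f' t - f' a) * P) ≤ psi f' t * (f' t * psi f' t - gfun f' t) := by
      gcongr
    have h8 : k * gfun f' t ≤ k * (f' t * psi f' t) := by gcongr
    have h9 : psi f' t * (f' t * (P - k) - f' a * P) ≥ psi f' t * (f' t - f' a * P) := by
      apply mul_le_mul_of_nonneg_left _ hψ
      nlinarith
    have h10 : psi f' t * (f' t - f' a * P) ≥ psi f' t * (f' t / 2) := by
      apply mul_le_mul_of_nonneg_left _ hψ
      linarith
    have h11 : f t ≤ 2 * psi f' t := by linarith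
    have h12 : f t * f' t ≤ 2 * psi f' t * f' t := by gcongr
    have h13 : 0 ≤ f b * gfun f' b + 1 / 4 * (f b * f' b) := by positivity
    nlinarith

end Nonlin

end Pool.Agent.Helper86.Mems
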