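import Pool.Agent.Helper86.Mems.Circle
import Pool.Agent.Helper86.Mems.Nonlin

/-!
# Stability inequality and Nedev's estimate
-/

set_option autoImplicit false

open Filter Topology MeasureTheory Set

namespace Pool.Agent.Helper86.Mems

/-- A classical solution of `-Δ u = λ f(u)` in `Ω`, `u = 0` on the boundary, extended by zero. -/
structure Sol (Ω : Set ℂ) (f : ℝ → ℝ) (lam : ℝ) (u : ℂ → ℝ) : Prop where
  c2 : ContDiffOn ℝ 2 u Ω
  cont : Continuous u
  zero : ∀ x, x ∉ Ω → u x = 0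
  nonneg : ∀ x, 0 ≤ u x
  lt_one : ∀ x, u x < 1
  eqn : ∀ x ∈ Ω, lap u x = -(lam * f (u x))

variable {Ω : Set ℂ} {f f' : ℝ → ℝ} {lam mu : ℝ} {u U : ℂ → ℝ}

lemma Sol.mem_Ico (hu : Sol Ω f lam u) (x : ℂ) : u x ∈ Ico (0 : ℝ) 1 := ⟨hu.nonneg x, hu.lt_one x⟩

lemma Sol.c2At (hΩ : IsOpen Ω) (hu : Sol Ω f lam u) {x : ℂ} (hx : x ∈ Ω) : ContDiffAt ℝ 2 u x :=
  hu.c2.contDiffAt (hΩ.mem_nhds hx)

lemma Sol.comp_continuous (hu : Sol Ω f lam u) {φ : ℝ → ℝ} (hφ : ContinuousOn φ (Ico 0 1)) :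
    Continuous fun x => φ (u x) :=
  hφ.comp_continuous hu.cont hu.mem_Ico

section comp

variable (hΩ : IsOpen Ω) (hΩb : Bornology.IsBounded Ω) (hu : Sol Ω f lam u)
include hu

lemma Sol.superlevel_subset {c : ℝ} (hc : 0 < c) : {x | c ≤ u x} ⊆ Ω := by
  intro x hx
  by_contra h
  have := hu.zero x h
  rw [mem_ofPred_eq, this] at hx
  linarith

lemma Sol.superlevel_closed (c : ℝ) : IsClosed {x | c ≤ u x} :=
  isClosed_le continuous_const hu.cont

include hΩb in
lemma Sol.superlevel_compact {c : ℝ} (hc : 0 < c) : IsCompact {x | c ≤ u x} :=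
  Metric.isCompact_of_isClosed_isBounded (hu.superlevel_closed c)
    (hΩb.subset (hu.superlevel_subset hc))

omit hu in
lemma tsupport_subset_of {ζ : ℂ → ℝ} {S : Set ℂ} (hS : IsClosed S) (h : ∀ x, x ∉ S → ζ x = 0) :
    tsupport ζ ⊆ S :=
  closure_minimal (fun x hx => by
    by_contra hcon
    exact hx (h x hcon)) hS

/-- smoothness of functions which are `C^1` in `Ω` and vanish where `u < 1/4`. -/
lemma Sol.contDiff_of {ζ : ℂ → ℝ} (h1 : ∀ x ∈ Ω, ContDiffAt ℝ 1 ζ x)
    (h2 : ∀ x, u x < 1 / 4 → ζ x = 0) : ContDiff ℝ 1 ζ := by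
  rw [contDiff_iff_contDiffAt]
  intro x
  rcases lt_or_ge (u x) (1 / 4) with h | h
  · have : ζ =ᶠ[𝓝 x] fun _ => 0 := by
      filter_upwards [hu.cont.continuousAt.eventually_lt continuousAt_const h] with y hy
      exact h2 y hy
    exact contDiffAt_const.congr_of_eventuallyEq this
  · exact h1 x (hu.superlevel_subset (by norm_num) h)

lemma Sol.tsupport_subset {ζ : ℂ → ℝ} (h2 : ∀ x, u x < 1 / 4 → ζ x = 0) :
    tsupport ζ ⊆ {x | 1 / 4 ≤ u x} :=
  tsupport_subset_of (hu.superlevel_closed _) fun x hx => h2 x (by simpa using hx)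

include hΩb in
lemma Sol.hasCompactSupport {ζ : ℂ → ℝ} (h2 : ∀ x, u x < 1 / 4 → ζ x = 0) :
    HasCompactSupport ζ :=
  (hu.superlevel_compact hΩb (by norm_num : (0 : ℝ) < 1 / 4)).of_isClosed_subset
    (isClosed_tsupport _) (hu.tsupport_subset h2)

include hΩ in
lemma Sol.pos (hf : Nonlin f f') (hlam : 0 < lam) {x : ℂ} (hx : x ∈ Ω) : 0 < u x := by
  rcases (hu.nonneg x).eq_or_lt with h | h
  · exfalso
    have hmin : IsLocalMin u x := by
      refine Eventually.of_forall fun y => ?_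
      rw [← h]; exact hu.nonneg y
    have h1 := lap_nonneg_of_isLocalMin (hu.c2At hΩ hx) hmin
    have h2 := hu.eqn x hx
    have h3 := hf.one_le (hu.mem_Ico x)
    nlinarith
  · exact h

include hΩ in
lemma Sol.psi_comp_c1At {φ : ℝ → ℝ} (hφ : ContDiffOn ℝ 1 φ (Iio 1)) {x : ℂ}
    (hx : x ∈ Ω) : ContDiffAt ℝ 1 (fun y => φ (u y)) x :=
  (hφ.contDiffAt (Iio_mem_nhds (hu.lt_one x))).comp x ((hu.c2At hΩ hx).of_le (by norm_num))

include hΩ in
lemma Sol.fderiv_comp {φ : ℝ → ℝ} {c : ℝ} {x : ℂ} (hx : x ∈ Ω) (hφ : HasDerivAt φ c (u x)) (v : ℂ) :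
    fderiv ℝ (fun y => φ (u y)) x v = c * fderiv ℝ u x v := by
  have h1 := ((hu.c2At hΩ hx).differentiableAt (by norm_num)).hasFDerivAt
  have h2 := hφ.comp_hasFDerivAt x h1
  have h3 : fderiv ℝ (fun y => φ (u y)) x = c • fderiv ℝ u x := h2.fderiv
  rw [h3]; simp

end comp

lemma lap_diff_le (hf : Nonlin f f') (hΩ : IsOpen Ω) (hu : Sol Ω f lam u) (hU : Sol Ω f mu U)
    (hlam : 0 ≤ lam) (hlm : lam ≤ mu) {x : ℂ} (hx : x ∈ Ω) :
    lap (fun y => U y - u y) x ≤ -(mu - lam) - lam * (f' (u x) * (U x - u x)) := by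
  rw [lap_sub (hU.c2At hΩ hx) (hu.c2At hΩ hx), hU.eqn x hx, hu.eqn x hx]
  have h1 := hf.tangent (hU.mem_Ico x) (hu.mem_Ico x)
  have h2 := hf.one_le (hU.mem_Ico x)
  nlinarith

lemma diff_pos (hf : Nonlin f f') (hΩ : IsOpen Ω) (hu : Sol Ω f lam u) (hU : Sol Ω f mu U)
    (hlam : 0 ≤ lam) (hlm : lam < mu) (hle : ∀ x, u x ≤ U x) {x : ℂ} (hx : x ∈ Ω) :
    0 < U x - u x := by
  rcases (sub_nonneg.2 (hle x)).eq_or_lt with h | h
  · exfalso
    have hmin : IsLocalMin (fun y => U y - u y) x := by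
      refine Eventually.of_forall fun y => ?_
      show U x - u x ≤ U y - u y
      rw [← h]; exact sub_nonneg.2 (hle y)
    have h1 := lap_nonneg_of_isLocalMin ((hU.c2At hΩ hx).sub (hu.c2At hΩ hx)) hmin
    have h2 := lap_diff_le hf hΩ hu hU hlam hlm.le hx
    have h3 := hf.nonneg' _ (hu.mem_Ico x)
    rw [← h] at h2
    linarith
  · exact h

/-- **Stability + energy identity**: `∫ f'(u) ψ(u)^2 ≤ ∫ f(u) g(u)`. -/
theorem stability (hf : Nonlin f f') (hΩ : IsOpen Ω) (hΩb : Bornology.IsBounded Ω)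
    (hu : Sol Ω f lam u) (hU : Sol Ω f mu U) (hlam : 0 < lam) (hlm : lam < mu)
    (hle : ∀ x, u x ≤ U x) :
    ∫ x, f' (u x) * psi f' (u x) ^ 2 ≤ ∫ x, f (u x) * gfun f' (u x) := by
  -- the test functions
  set η : ℂ → ℝ := fun x => psi f' (u x) with hη
  set w : ℂ → ℝ := fun x => U x - u x with hw
  set ζ : ℂ → ℝ := fun x => η x ^ 2 * (w x)⁻¹ with hζ
  set γ : ℂ → ℝ := fun x => gfun f' (u x) with hγ
  have hη0 : ∀ x, u x < 1 / 4 → η x = 0 := fun x hx => Nonlin.psi_eq_zero hx.le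
  have hζ0 : ∀ x, u x < 1 / 4 → ζ x = 0 := fun x hx => by simp [hζ, hη0 x hx]
  have hγ0 : ∀ x, u x < 1 / 4 → γ x = 0 := fun x hx => Nonlin.gfun_eq_zero hx.le
  have hwpos : ∀ x ∈ Ω, 0 < w x := fun x hx => diff_pos hf hΩ hu hU hlam.le hlm hle hx
  have hwc2 : ∀ x ∈ Ω, ContDiffAt ℝ 2 w x := fun x hx => (hU.c2At hΩ hx).sub (hu.c2At hΩ hx)
  have hηc : ∀ x ∈ Ω, ContDiffAt ℝ 1 η x := fun x hx =>
    hu.psi_comp_c1At hΩ hf.psi_contDiffOn hx
  have hγc : ∀ x ∈ Ω, ContDiffAt ℝ 1 γ x := fun x hx =>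
    hu.psi_comp_c1At hΩ hf.gfun_contDiffOn hx
  have hζc : ∀ x ∈ Ω, ContDiffAt ℝ 1 ζ x := fun x hx =>
    ((hηc x hx).pow 2).mul (((hwc2 x hx).of_le (by norm_num)).inv (hwpos x hx).ne')
  have hsub : {x | 1 / 4 ≤ u x} ⊆ Ω := hu.superlevel_subset (by norm_num)
  have hηC := hu.contDiff_of hηc hη0
  have hζC := hu.contDiff_of hζc hζ0
  have hγC := hu.contDiff_of hγc hγ0
  have hηs := hu.hasCompactSupport hΩb hη0
  have hζs := hu.hasCompactSupport hΩb hζ0
  have hγs := hu.hasCompactSupport hΩb hγ0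
  -- integration by parts
  have ibp1 := ibp hΩ (w := w) (ζ := ζ) (fun x hx => (hwc2 x hx).contDiffWithinAt) hζC hζs
    ((hu.tsupport_subset hζ0).trans hsub)
  have ibp2 := ibp hΩ (w := u) (ζ := γ) hu.c2 hγC hγs ((hu.tsupport_subset hγ0).trans hsub)
  -- derivatives
  have hdη : ∀ x ∈ Ω, ∀ v, fderiv ℝ η x v = mfun f' (u x) * fderiv ℝ u x v := fun x hx v =>
    hu.fderiv_comp hΩ hx (hf.psi_hasDerivAt (hu.lt_one x)) v
  have hdγ : ∀ x ∈ Ω, ∀ v, fderiv ℝ γ x v = mfun f' (u x) ^ 2 * fderiv ℝ u x v := fun x hx v =>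
    hu.fderiv_comp hΩ hx (hf.gfun_hasDerivAt (hu.lt_one x)) v
  have hnot : ∀ (ξ : ℂ → ℝ), (∀ x, u x < 1 / 4 → ξ x = 0) → ∀ x, x ∉ Ω → fderiv ℝ ξ x = 0 := by
    intro ξ hξ x hx
    have h1 : x ∉ tsupport ξ := fun h => hx (hsub (hu.tsupport_subset hξ h))
    have h2 : x ∉ tsupport (fderiv ℝ ξ) := fun h => h1 (tsupport_fderiv_subset ℝ h)
    exact image_eq_zero_of_notMem_tsupport h2
  -- gradient comparison
  have hgrad : ∀ x, gdot ζ w x ≤ gdot γ u x := by
    intro x
    by_cases hx : x ∈ Ω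
    · have hw0 := hwpos x hx
      have hdζ : ∀ v, fderiv ℝ ζ x v =
          2 * η x * (w x)⁻¹ * fderiv ℝ η x v - η x ^ 2 * ((w x)⁻¹) ^ 2 * fderiv ℝ w x v := by
        intro v
        have h1 := ((hηc x hx).differentiableAt (by norm_num)).hasFDerivAt
        have h2 := ((hwc2 x hx).differentiableAt (by norm_num)).hasFDerivAt
        have h3 : HasFDerivAt (fun y => (w y)⁻¹) (-(w x ^ 2)⁻¹ • fderiv ℝ w x) x :=
          (hasDerivAt_inv hw0.ne').comp_hasFDerivAt x h2
        have h4 := (h1.pow 2).mul h3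
        have h5 : fderiv ℝ ζ x = _ := h4.fderiv
        rw [h5]
        simp only [add_apply, smul_apply, smul_eq_mul]
        norm_num
        ring
      have hcs : ∀ v, fderiv ℝ ζ x v * fderiv ℝ w x v ≤ fderiv ℝ γ x v * fderiv ℝ u x v := by
        intro v
        rw [hdζ, hdγ x hx]
        have e := hdη x hx v
        have h6 : (fderiv ℝ η x v) ^ 2 = mfun f' (u x) ^ 2 * fderiv ℝ u x v * fderiv ℝ u x v := by
          rw [e]; ring
        rw [← h6]
        nlinarith [sq_nonneg (fderiv ℝ η x v - η x * (w x)⁻¹ * fderiv ℝ w x v)]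
      unfold gdot
      exact add_le_add (hcs 1) (hcs Complex.I)
    · unfold gdot
      rw [hnot ζ hζ0 x hx, hnot γ hγ0 x hx]
      simp
  -- integrability
  have hcontf := hu.comp_continuous hf.cont
  have hcontf' := hu.comp_continuous hf.cont'
  have hint1 : Integrable fun x => f' (u x) * psi f' (u x) ^ 2 := by
    have hc : Continuous fun x => f' (u x) * psi f' (u x) ^ 2 :=
      hcontf'.mul (hηC.continuous.pow 2)
    refine hc.integrable_of_hasCompactSupport ?_
    exact hu.hasCompactSupport hΩb fun x hx => by simp [Nonlin.psi_eq_zero hx.le]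
  have hint2 : Integrable fun x => f (u x) * gfun f' (u x) := by
    have hc : Continuous fun x => f (u x) * gfun f' (u x) := hcontf.mul hγC.continuous
    refine hc.integrable_of_hasCompactSupport ?_
    exact hu.hasCompactSupport hΩb fun x hx => by simp [Nonlin.gfun_eq_zero hx.le]
  -- `gdot` functions are continuous with compact support
  have hgint : ∀ (ξ v : ℂ → ℝ), ContDiff ℝ 1 ξ → (∀ x, u x < 1 / 4 → ξ x = 0) →
      (∀ x ∈ Ω, ContDiffAt ℝ 2 v x) → Integrable (gdot ξ v) := by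
    intro ξ v hξ hξ0 hv
    have hts := hu.tsupport_subset hξ0
    have hcont : Continuous (gdot ξ v) := by
      rw [continuous_iff_continuousAt]
      intro x
      by_cases hx : x ∈ tsupport ξ
      · have h1 : ContinuousAt (fderiv ℝ ξ) x := (hξ.continuous_fderiv (by norm_num)).continuousAt
        have h2 : ContinuousAt (fderiv ℝ v) x :=
          (differentiableAt_fderiv (hv x (hsub (hts hx)))).continuousAt
        unfold gdot
        exact ((h1.clm_apply continuousAt_const).mul (h2.clm_apply continuousAt_const)).add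
          ((h1.clm_apply continuousAt_const).mul (h2.clm_apply continuousAt_const))
      · have h2 : x ∉ tsupport (fderiv ℝ ξ) := fun h => hx (tsupport_fderiv_subset ℝ h)
        have : gdot ξ v =ᶠ[𝓝 x] fun _ => 0 := by
          filter_upwards [notMem_tsupport_iff_eventuallyEq.1 h2] with y hy
          simp [gdot, hy]
        exact continuousAt_const.congr this.symm
    refine hcont.integrable_of_hasCompactSupport ?_
    refine (hu.superlevel_compact hΩb (by norm_num : (0 : ℝ) < 1 / 4)).of_isClosed_subset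
      (isClosed_tsupport _) (tsupport_subset_of (hu.superlevel_closed _) fun x hx => ?_)
    have h1 : x ∉ tsupport ξ := fun h => hx (hts h)
    have h2 : x ∉ tsupport (fderiv ℝ ξ) := fun h => h1 (tsupport_fderiv_subset ℝ h)
    simp [gdot, image_eq_zero_of_notMem_tsupport h2]
  have hg1 := hgint ζ w hζC hζ0 hwc2
  have hg2 := hgint γ u hγC hγ0 fun x hx => hu.c2At hΩ hx
  have hint3 : Integrable fun x => ζ x * lap w x := by
    -- equality with a continuous function of compact support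
    have e : (fun x => ζ x * lap w x) =
        fun x => ζ x * (lam * f (u x) - mu * f (U x)) := by
      ext x
      by_cases hx : x ∈ Ω
      · have : lap w x = lam * f (u x) - mu * f (U x) := by
          rw [hw, lap_sub (hU.c2At hΩ hx) (hu.c2At hΩ hx), hU.eqn x hx, hu.eqn x hx]; ring
        rw [this]
      · have : ζ x = 0 := hζ0 x (by rw [hu.zero x hx]; norm_num)
        rw [this]; ring
    rw [e]
    have hc : Continuous fun x => ζ x * (lam * f (u x) - mu * f (U x)) :=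
      hζC.continuous.mul ((continuous_const.mul hcontf).sub
        (continuous_const.mul (hU.comp_continuous hf.cont)))
    exact hc.integrable_of_hasCompactSupport hζs.mul_right
  -- conclusion
  have hA : lam * ∫ x, f' (u x) * psi f' (u x) ^ 2 ≤ ∫ x, gdot ζ w x := by
    have h1 : ∫ x, gdot ζ w x = ∫ x, -(ζ x * lap w x) := by
      rw [integral_neg, ibp1, neg_neg]
    rw [h1, ← integral_const_mul]
    refine integral_mono (hint1.const_mul _) hint3.neg fun x => ?_
    simp only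
    by_cases hx : x ∈ Ω
    · have h2 := lap_diff_le hf hΩ hu hU hlam.le hlm.le hx
      have hw0 := hwpos x hx
      have hζn : 0 ≤ ζ x := by simp only [hζ]; positivity
      have h3 : ζ x * lap w x ≤ ζ x * (-(lam * (f' (u x) * w x))) := by
        apply mul_le_mul_of_nonneg_left _ hζn
        have : lap w x ≤ _ := h2
        simp only [hw] at this ⊢
        linarith
      have h4 : ζ x * (-(lam * (f' (u x) * w x))) = -(lam * (f' (u x) * η x ^ 2)) := by
        simp only [hζ]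
        field_simp
      rw [h4] at h3
      simp only [hη] at h3 ⊢
      linarith
    · have h0 : ζ x = 0 := hζ0 x (by rw [hu.zero x hx]; norm_num)
      have h1 : psi f' (u x) = 0 := hη0 x (by rw [hu.zero x hx]; norm_num)
      rw [h0, h1]; simp
  have hB : ∫ x, gdot ζ w x ≤ ∫ x, gdot γ u x := integral_mono hg1 hg2 hgrad
  have hC : ∫ x, gdot γ u x = lam * ∫ x, f (u x) * gfun f' (u x) := by
    have h1 : ∫ x, gdot γ u x = ∫ x, -(γ x * lap u x) := by
      rw [integral_neg, ibp2, neg_neg]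
    rw [h1, ← integral_const_mul]
    refine integral_congr_ae (Eventually.of_forall fun x => ?_)
    simp only
    by_cases hx : x ∈ Ω
    · rw [hu.eqn x hx]; simp only [hγ]; ring
    · have h0 : γ x = 0 := hγ0 x (by rw [hu.zero x hx]; norm_num)
      have h0' : gfun f' (u x) = 0 := h0
      rw [h0, h0']; simp
  rw [hC] at hB
  exact le_of_mul_le_mul_left (hA.trans hB) hlam

/-- **Nedev's estimate**: a bound for `∫_Ω f(u) f'(u)` which only depends on `f` and `|Ω|`. -/
theorem nedev_estimate (hf : Nonlin f f') (hΩ : IsOpen Ω) (hΩb : Bornology.IsBounded Ω) :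
    ∃ C, 0 ≤ C ∧ ∀ (lam mu : ℝ) (u U : ℂ → ℝ), Sol Ω f lam u → Sol Ω f mu U → 0 < lam →
      lam < mu → (∀ x, u x ≤ U x) → ∫ x in Ω, f (u x) * f' (u x) ≤ C := by
  obtain ⟨C, hC, hpt⟩ := hf.nedev
  have hvol : volume Ω < ⊤ := hΩb.measure_lt_top
  refine ⟨4 * (C * (volume Ω).toReal), by positivity, fun lam mu u U hu hU hlam hlm hle => ?_⟩
  have hst := stability hf hΩ hΩb hu hU hlam hlm hle
  have hcontf := hu.comp_continuous hf.cont
  have hcontf' := hu.comp_continuous hf.cont'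
  have hψc : Continuous fun x => psi f' (u x) :=
    (hf.psi_contDiffOn.continuousOn.mono (fun t ht => ht.2)).comp_continuous hu.cont hu.mem_Ico
  have hgc : Continuous fun x => gfun f' (u x) :=
    (hf.gfun_contDiffOn.continuousOn.mono (fun t ht => ht.2)).comp_continuous hu.cont hu.mem_Ico
  have hintΩ : ∀ {φ : ℂ → ℝ}, Continuous φ → IntegrableOn φ Ω := fun {φ} hφ =>
    (hφ.continuousOn.integrableOn_compact hΩb.isCompact_closure).mono_set subset_closure
  have h1 : ∫ x in Ω, f' (u x) * psi f' (u x) ^ 2 = ∫ x, f' (u x) * psi f' (u x) ^ 2 := by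
    refine setIntegral_eq_integral_of_forall_compl_eq_zero fun x hx => ?_
    rw [Nonlin.psi_eq_zero (by rw [hu.zero x hx]; norm_num)]; ring
  have h2 : ∫ x in Ω, f (u x) * gfun f' (u x) = ∫ x, f (u x) * gfun f' (u x) := by
    refine setIntegral_eq_integral_of_forall_compl_eq_zero fun x hx => ?_
    rw [Nonlin.gfun_eq_zero (by rw [hu.zero x hx]; norm_num)]; ring
  have hi1 : IntegrableOn (fun x => f' (u x) * psi f' (u x) ^ 2) Ω :=
    hintΩ (hcontf'.mul (hψc.pow 2))
  have hi2 : IntegrableOn (fun x => f (u x) * gfun f' (u x)) Ω := hintΩ (hcontf.mul hgc)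
  have hi3 : IntegrableOn (fun x => f (u x) * f' (u x)) Ω := hintΩ (hcontf.mul hcontf')
  have hi4 : IntegrableOn (fun _ : ℂ => C) Ω := integrableOn_const hvol.ne
  have h3 : ∫ x in Ω, 1 / 4 * (f (u x) * f' (u x)) ≤
      ∫ x in Ω, (f' (u x) * psi f' (u x) ^ 2 - f (u x) * gfun f' (u x) + C) := by
    refine integral_mono (hi3.const_mul _) ((hi1.sub hi2).add hi4) fun x => ?_
    exact hpt (u x) (hu.mem_Ico x)
  have h4 : ∫ x in Ω, (f' (u x) * psi f' (u x) ^ 2 - f (u x) * gfun f' (u x) + C) =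
      (∫ x in Ω, f' (u x) * psi f' (u x) ^ 2) - (∫ x in Ω, f (u x) * gfun f' (u x)) +
        C * (volume Ω).toReal := by
    have h5 := integral_add (hi1.sub hi2) hi4
    have h6 := integral_sub hi1 hi2
    simp only [Pi.sub_apply] at h5 h6
    rw [h5, h6, integral_const]
    simp [Measure.real, mul_comm]
  rw [integral_const_mul, h4, h1, h2] at h3
  linarith

end Pool.Agent.Helper86.Mems
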