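import Pool.Agent.Helper86.Mems.Grad
import Pool.Agent.Helper86.Mems.Stability

/-!
# Passing to the limit in increasing sequences of solutions
-/

set_option autoImplicit false
set_option maxHeartbeats 4000000

open Filter Topology MeasureTheory Set

namespace Pool.Agent.Helper86.Mems

lemma lap_trans {u : ℂ → ℝ} {k z : ℂ} (h : ContDiffAt ℝ 2 u (k + z)) :
    lap (fun z => u (k + z)) z = lap u (k + z) := by
  have h' : ContDiffAt ℝ 2 u (k + ContinuousLinearMap.id ℝ ℂ z) := h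
  have := dd_comp_affine (ContinuousLinearMap.id ℝ ℂ) h'
  unfold lap
  exact congrArg₂ (· + ·) (this 1) (this Complex.I)

/-- **Interior estimate of second derivatives.** -/
theorem hess_est {v : ℂ → ℝ} {x₀ : ℂ} {d M N : ℝ} (hd : 0 < d)
    (hv : ContDiffOn ℝ 2 v (Metric.ball x₀ (3 * d)))
    (hM : ∀ x ∈ Metric.ball x₀ (3 * d), ‖fderiv ℝ v x‖ ≤ M)
    (hN : ∀ x ∈ Metric.ball x₀ (3 * d), ∀ y ∈ Metric.ball x₀ (3 * d),
      |lap v x - lap v y| ≤ N * ‖x - y‖) (hN0 : 0 ≤ N) :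
    ‖fderiv ℝ (fderiv ℝ v) x₀‖ ≤ 2 * M / d + d * N / 2 := by
  have hx₀ : x₀ ∈ Metric.ball x₀ (3 * d) := Metric.mem_ball_self (by positivity)
  have hM0 : 0 ≤ M := (norm_nonneg _).trans (hM x₀ hx₀)
  have hvat : ∀ x ∈ Metric.ball x₀ (3 * d), ContDiffAt ℝ 2 v x := fun x hx =>
    hv.contDiffAt (Metric.isOpen_ball.mem_nhds hx)
  have h1 : HasFDerivAt (fderiv ℝ v) (fderiv ℝ (fderiv ℝ v) x₀) x₀ :=
    (differentiableAt_fderiv (hvat x₀ hx₀)).hasFDerivAt
  refine h1.le_of_lip' (by positivity) ?_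
  filter_upwards [Metric.ball_mem_nhds x₀ hd] with x hx
  set k : ℂ := x - x₀ with hk
  have hkd : ‖k‖ < d := by rwa [Metric.mem_ball, dist_eq_norm] at hx
  have hsub : ∀ y ∈ Metric.ball x₀ (2 * d), k + y ∈ Metric.ball x₀ (3 * d) := by
    intro y hy
    rw [Metric.mem_ball, dist_eq_norm] at hy ⊢
    calc ‖k + y - x₀‖ = ‖k + (y - x₀)‖ := by ring_nf
      _ ≤ ‖k‖ + ‖y - x₀‖ := norm_add_le _ _
      _ < 3 * d := by linarith
  have hsub' : Metric.ball x₀ (2 * d) ⊆ Metric.ball x₀ (3 * d) :=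
    Metric.ball_subset_ball (by linarith)
  have hT : ∀ y ∈ Metric.ball x₀ (2 * d), ContDiffAt ℝ 2 (fun y => v (k + y)) y := fun y hy =>
    contDiffAt_comp_affine (ContinuousLinearMap.id ℝ ℂ) (hvat _ (hsub y hy))
  have h2 := grad_est (v := fun y => v (k + y) - v y) (x₀ := x₀) (M := M * ‖k‖) (N := N * ‖k‖) hd
    (fun y hy => ((hT y hy).sub (hvat y (hsub' hy))).contDiffWithinAt)
    (fun y hy => by
      have h3 := (convex_ball x₀ (3 * d)).norm_image_sub_le_of_norm_fderiv_le (f := v) (𝕜 := ℝ)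
        (fun z hz => (hvat z hz).differentiableAt (by norm_num)) hM (hsub' hy) (hsub y hy)
      have e : k + y - y = k := by ring
      rwa [e, Real.norm_eq_abs] at h3)
    (fun y hy => by
      rw [lap_sub (hT y hy) (hvat y (hsub' hy)), lap_trans (hvat _ (hsub y hy))]
      have h3 := hN _ (hsub y hy) y (hsub' hy)
      have e : k + y - y = k := by ring
      rwa [e] at h3)
  have hx' : x ∈ Metric.ball x₀ (3 * d) := Metric.ball_subset_ball (by linarith) hx
  have ekx : k + x₀ = x := by rw [hk]; ring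
  have h3 : fderiv ℝ (fun y => v (k + y) - v y) x₀ = fderiv ℝ v x - fderiv ℝ v x₀ := by
    have h4 : HasFDerivAt (fun y => v (k + y)) (fderiv ℝ v x) x₀ := by
      have h5 : HasFDerivAt v (fderiv ℝ v x) (k + x₀) := by
        rw [ekx]; exact ((hvat x hx').differentiableAt (by norm_num)).hasFDerivAt
      have h6 : HasFDerivAt (fun y : ℂ => k + y) (ContinuousLinearMap.id ℝ ℂ) x₀ :=
        (hasFDerivAt_id x₀).const_add k
      have h7 := h5.comp x₀ h6
      rw [ContinuousLinearMap.comp_id] at h7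
      exact h7
    exact (h4.sub ((hvat x₀ hx₀).differentiableAt (by norm_num)).hasFDerivAt).fderiv
  rw [h3] at h2
  refine h2.trans (le_of_eq ?_)
  ring

/-! ### uniformly Cauchy sequences -/

section UC

variable {E F : Type*} [NormedAddCommGroup E] [NormedAddCommGroup F]

/-- uniformly Cauchy on `S`. -/
def UC (a : ℕ → ℂ → E) (S : Set ℂ) : Prop :=
  ∀ ε > 0, ∃ n₀, ∀ n ≥ n₀, ∀ m ≥ n₀, ∀ x ∈ S, ‖a n x - a m x‖ ≤ ε

lemma UC.mono {a : ℕ → ℂ → E} {S T : Set ℂ} (h : UC a S) (hT : T ⊆ S) : UC a T := by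
  intro ε hε
  obtain ⟨n₀, h1⟩ := h ε hε
  exact ⟨n₀, fun n hn m hm x hx => h1 n hn m hm x (hT hx)⟩

lemma UC.iff {a : ℕ → ℂ → E} {S : Set ℂ} : UC a S ↔ UniformCauchySeqOn a atTop S := by
  rw [Metric.uniformCauchySeqOn_iff]
  constructor
  · intro h ε hε
    obtain ⟨n₀, h1⟩ := h (ε / 2) (by positivity)
    refine ⟨n₀, fun m hm n hn x hx => ?_⟩
    rw [dist_eq_norm]
    exact (h1 m hm n hn x hx).trans_lt (by linarith)
  · intro h ε hε
    obtain ⟨n₀, h1⟩ := h ε hε
    refine ⟨n₀, fun m hm n hn x hx => ?_⟩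
    have := h1 m hm n hn x hx
    rw [dist_eq_norm] at this
    exact this.le

lemma UC.comp {a : ℕ → ℂ → E} {S : Set ℂ} {K : Set E} {G : E → F} (hK : IsCompact K)
    (hG : ContinuousOn G K) (ha : UC a S) (haK : ∀ n, ∀ x ∈ S, a n x ∈ K) :
    UC (fun n x => G (a n x)) S := by
  intro ε hε
  have h1 := hK.uniformContinuousOn_of_continuous hG
  rw [Metric.uniformContinuousOn_iff] at h1
  obtain ⟨δ, hδ, h2⟩ := h1 ε hε
  obtain ⟨n₀, h3⟩ := ha (δ / 2) (by positivity)
  refine ⟨n₀, fun n hn m hm x hx => ?_⟩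
  have h4 := h2 (a n x) (haK n x hx) (a m x) (haK m x hx) (by
    rw [dist_eq_norm]
    exact (h3 n hn m hm x hx).trans_lt (by linarith))
  rw [dist_eq_norm] at h4
  exact h4.le

lemma UC.prod {a : ℕ → ℂ → E} {b : ℕ → ℂ → F} {S : Set ℂ} (ha : UC a S) (hb : UC b S) :
    UC (fun n x => (a n x, b n x)) S := by
  intro ε hε
  obtain ⟨n₀, h1⟩ := ha ε hε
  obtain ⟨n₁, h2⟩ := hb ε hε
  refine ⟨max n₀ n₁, fun n hn m hm x hx => ?_⟩
  rw [Prod.mk_sub_mk, Prod.norm_mk]
  exact max_le (h1 n ((le_max_left _ _).trans hn) m ((le_max_left _ _).trans hm) x hx)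
    (h2 n ((le_max_right _ _).trans hn) m ((le_max_right _ _).trans hm) x hx)

lemma UC.const {a : ℕ → E} {l : E} (h : Tendsto a atTop (𝓝 l)) (S : Set ℂ) :
    UC (fun n (_ : ℂ) => a n) S := by
  intro ε hε
  have h1 := h.cauchySeq
  rw [Metric.cauchySeq_iff] at h1
  obtain ⟨n₀, h2⟩ := h1 ε hε
  refine ⟨n₀, fun n hn m hm x hx => ?_⟩
  have := h2 n hn m hm
  rw [dist_eq_norm] at this
  exact this.le

lemma UC.smul [NormedSpace ℝ E] {a : ℕ → ℂ → ℝ} {b : ℕ → ℂ → E} {S : Set ℂ} (ha : UC a S)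
    (hb : UC b S) {A B : ℝ} (hA : 0 < A) (hB : 0 < B) (hA' : ∀ n, ∀ x ∈ S, |a n x| ≤ A)
    (hB' : ∀ n, ∀ x ∈ S, ‖b n x‖ ≤ B) : UC (fun n x => a n x • b n x) S := by
  intro ε hε
  obtain ⟨n₀, h1⟩ := ha (ε / (2 * B)) (by positivity)
  obtain ⟨n₁, h2⟩ := hb (ε / (2 * A)) (by positivity)
  refine ⟨max n₀ n₁, fun n hn m hm x hx => ?_⟩
  have h3 := h1 n ((le_max_left _ _).trans hn) m ((le_max_left _ _).trans hm) x hx
  have h4 := h2 n ((le_max_right _ _).trans hn) m ((le_max_right _ _).trans hm) x hx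
  rw [Real.norm_eq_abs] at h3
  calc ‖a n x • b n x - a m x • b m x‖
      = ‖(a n x - a m x) • b n x + a m x • (b n x - b m x)‖ := by
        rw [sub_smul, smul_sub]; congr 1; abel
    _ ≤ |a n x - a m x| * ‖b n x‖ + |a m x| * ‖b n x - b m x‖ := by
        refine (norm_add_le _ _).trans ?_
        rw [norm_smul, norm_smul, Real.norm_eq_abs, Real.norm_eq_abs]
    _ ≤ ε / (2 * B) * B + A * (ε / (2 * A)) := by
        have := hA' m x hx
        have := hB' n x hx
        gcongr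
    _ = ε := by field_simp; ring

end UC

/-- data of an increasing sequence of solutions staying away from `1`. -/
structure Seq (Ω : Set ℂ) (f f' : ℝ → ℝ) (lamS c : ℝ) (lam : ℕ → ℝ) (u : ℕ → ℂ → ℝ)
    (uS : ℂ → ℝ) : Prop where
  hf : Nonlin f f'
  hΩ : IsOpen Ω
  hΩb : Bornology.IsBounded Ω
  lam_pos : ∀ n, 0 < lam n
  lam_le : ∀ n, lam n ≤ lamS
  lam_lim : Tendsto lam atTop (𝓝 lamS)
  sol : ∀ n, Sol Ω f (lam n) (u n)
  mono : ∀ x, Monotone fun n => u n x
  c_pos : 0 < c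
  bound : ∀ n x, u n x ≤ 1 - c
  lim : ∀ x, Tendsto (fun n => u n x) atTop (𝓝 (uS x))

variable {Ω : Set ℂ} {f f' : ℝ → ℝ} {lamS c : ℝ} {lam : ℕ → ℝ} {u : ℕ → ℂ → ℝ} {uS : ℂ → ℝ}

namespace Seq

variable (h : Seq Ω f f' lamS c lam u uS)
include h

lemma mem_Icc' (n : ℕ) (x : ℂ) : u n x ∈ Icc 0 (1 - c) := ⟨(h.sol n).nonneg x, h.bound n x⟩

lemma c_le_one : c ≤ 1 := by
  have := h.mem_Icc' 0 0
  linarith [this.1, this.2]

lemma Icc_sub : Icc 0 (1 - c) ⊆ Ico (0 : ℝ) 1 := fun t ht => ⟨ht.1, by linarith [ht.2, h.c_pos]⟩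

lemma at2 (n : ℕ) {x : ℂ} (hx : x ∈ Ω) : ContDiffAt ℝ 2 (u n) x := (h.sol n).c2At h.hΩ hx

lemma lap_abs_le (n : ℕ) {x : ℂ} (hx : x ∈ Ω) : |lap (u n) x| ≤ lamS * f (1 - c) := by
  rw [(h.sol n).eqn x hx, abs_neg]
  have h1 := h.mem_Icc' n x
  have hc : 1 - c ∈ Icc 0 (1 - c) := ⟨by linarith [h.c_le_one], le_rfl⟩
  have h2 := h.hf.mono (h.Icc_sub h1) (h.Icc_sub hc) h1.2
  have h3 := h.hf.one_le (h.Icc_sub h1)
  have h4 := h.lam_pos n
  rw [abs_of_nonneg (by positivity)]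
  exact mul_le_mul (h.lam_le n) h2 (by linarith) (h4.le.trans (h.lam_le n))

/-- derivative of the right-hand side. -/
lemma rhs_hasFDerivAt (n : ℕ) {x : ℂ} (hx : x ∈ Ω) :
    HasFDerivAt (lap (u n)) (-((lam n * f' (u n x)) • fderiv ℝ (u n) x)) x := by
  have hpos := (h.sol n).pos h.hΩ h.hf (h.lam_pos n) hx
  have h1 : HasDerivAt f (f' (u n x)) (u n x) := h.hf.hasDeriv _ ⟨hpos, (h.sol n).lt_one x⟩
  have h2 : HasFDerivAt (u n) (fderiv ℝ (u n) x) x :=
    ((h.at2 n hx).differentiableAt (by norm_num)).hasFDerivAt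
  have h3 : HasFDerivAt (fun y => f (u n y)) (f' (u n x) • fderiv ℝ (u n) x) x :=
    h1.comp_hasFDerivAt x h2
  have h4 : HasFDerivAt (fun y => -(lam n * f (u n y)))
      (-(lam n • (f' (u n x) • fderiv ℝ (u n) x))) x := (h3.const_mul (lam n)).neg
  rw [smul_smul] at h4
  refine h4.congr_of_eventuallyEq ?_
  filter_upwards [h.hΩ.mem_nhds hx] with y hy
  exact (h.sol n).eqn y hy

lemma grad_bound {x₀ : ℂ} {R : ℝ} (hR : 0 < R) (hsub : Metric.ball x₀ R ⊆ Ω) :
    ∃ L, 0 ≤ L ∧ ∀ n, ∀ x ∈ Metric.ball x₀ (R / 2), ‖fderiv ℝ (u n) x‖ ≤ L := by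
  have hF : 0 ≤ lamS * f (1 - c) := by
    have := h.lap_abs_le 0 (hsub (Metric.mem_ball_self hR))
    exact (abs_nonneg _).trans this
  refine ⟨2 * 1 / (R / 4) + R / 4 * (lamS * f (1 - c)) / 2, by positivity, fun n x hx => ?_⟩
  have hb : Metric.ball x (2 * (R / 4)) ⊆ Ω := by
    refine Subset.trans ?_ hsub
    refine Metric.ball_subset_ball' ?_
    rw [Metric.mem_ball] at hx
    linarith
  refine grad_est (by positivity) ((h.sol n).c2.mono hb) (fun y hy => ?_)
    (fun y hy => h.lap_abs_le n (hb hy))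
  rw [abs_of_nonneg ((h.sol n).nonneg y)]
  exact ((h.sol n).lt_one y).le

lemma lim_cont {x₀ : ℂ} {R : ℝ} (hR : 0 < R) (hsub : Metric.ball x₀ R ⊆ Ω) :
    ContinuousOn uS (Metric.ball x₀ (R / 2)) := by
  obtain ⟨L, hL0, hL⟩ := h.grad_bound hR hsub
  have hlip : ∀ n, ∀ x ∈ Metric.ball x₀ (R / 2), ∀ y ∈ Metric.ball x₀ (R / 2),
      dist (u n x) (u n y) ≤ L * dist x y := by
    intro n x hx y hy
    have hb : Metric.ball x₀ (R / 2) ⊆ Ω :=
      (Metric.ball_subset_ball (by linarith)).trans hsub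
    have h3 := (convex_ball x₀ (R / 2)).norm_image_sub_le_of_norm_fderiv_le (f := u n) (𝕜 := ℝ)
        (fun z hz => (h.at2 n (hb hz)).differentiableAt (by norm_num)) (hL n) hy hx
    rwa [dist_eq_norm, dist_eq_norm]
  have hlip' : LipschitzOnWith ⟨L, hL0⟩ uS (Metric.ball x₀ (R / 2)) := by
    refine LipschitzOnWith.of_dist_le_mul fun x hx y hy => ?_
    have h1 : Tendsto (fun n => dist (u n x) (u n y)) atTop (𝓝 (dist (uS x) (uS y))) :=
      (h.lim x).dist (h.lim y)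
    exact le_of_tendsto h1 (Eventually.of_forall fun n => hlip n x hx y hy)
  exact hlip'.continuousOn

lemma uc0 {x₀ : ℂ} {R : ℝ} (hR : 0 < R) (hsub : Metric.ball x₀ R ⊆ Ω) :
    UC u (Metric.ball x₀ (R / 4)) := by
  have h1 : TendstoLocallyUniformlyOn u uS atTop (Metric.closedBall x₀ (R / 4)) := by
    refine Monotone.tendstoLocallyUniformlyOn_of_forall_tendsto
      (fun n => (h.sol n).cont.continuousOn) (fun x _ => h.mono x) ?_ fun x _ => h.lim x
    exact (h.lim_cont hR hsub).mono (Metric.closedBall_subset_ball (by linarith))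
  rw [tendstoLocallyUniformlyOn_iff_tendstoUniformlyOn_of_compact
    (isCompact_closedBall x₀ (R / 4))] at h1
  exact (UC.iff.2 h1.uniformCauchySeqOn).mono Metric.ball_subset_closedBall

lemma uc_pair (S : Set ℂ) (hS : UC u S) : UC (fun n x => (lam n, u n x)) S :=
  (UC.const h.lam_lim S).prod hS

lemma pair_mem (n : ℕ) (x : ℂ) : (lam n, u n x) ∈ Icc 0 lamS ×ˢ Icc 0 (1 - c) :=
  ⟨⟨(h.lam_pos n).le, h.lam_le n⟩, h.mem_Icc' n x⟩

lemma uc_rhs (S : Set ℂ) (hS : UC u S) : UC (fun n x => lam n * f (u n x)) S := by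
  refine (h.uc_pair S hS).comp (G := fun p : ℝ × ℝ => p.1 * f p.2)
    (isCompact_Icc.prod isCompact_Icc) ?_ fun n x _ => h.pair_mem n x
  exact continuous_fst.continuousOn.mul
    (h.hf.cont.comp continuous_snd.continuousOn fun p hp => h.Icc_sub hp.2)

lemma uc1 {x₀ : ℂ} {R : ℝ} (hR : 0 < R) (hsub : Metric.ball x₀ R ⊆ Ω) :
    UC (fun n => fderiv ℝ (u n)) (Metric.ball x₀ (R / 8)) := by
  intro ε hε
  set K : ℝ := 2 / (R / 16) + R / 16 / 2 with hK
  have hK0 : 0 < K := by positivity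
  obtain ⟨n₀, h1⟩ := h.uc0 hR hsub (ε / K) (by positivity)
  obtain ⟨n₁, h2⟩ := h.uc_rhs _ (h.uc0 hR hsub) (ε / K) (by positivity)
  refine ⟨max n₀ n₁, fun n hn m hm x hx => ?_⟩
  have hb : Metric.ball x (2 * (R / 16)) ⊆ Metric.ball x₀ (R / 4) := by
    refine Metric.ball_subset_ball' ?_
    rw [Metric.mem_ball] at hx
    linarith
  have hb' : Metric.ball x (2 * (R / 16)) ⊆ Ω :=
    hb.trans ((Metric.ball_subset_ball (by linarith)).trans hsub)
  have h3 := grad_est (v := fun y => u n y - u m y) (x₀ := x) (d := R / 16) (M := ε / K)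
    (N := ε / K) (by positivity)
    (fun y hy => ((h.at2 n (hb' hy)).sub (h.at2 m (hb' hy))).contDiffWithinAt)
    (fun y hy => h1 n ((le_max_left _ _).trans hn) m ((le_max_left _ _).trans hm) y (hb hy))
    (fun y hy => by
      rw [lap_sub (h.at2 n (hb' hy)) (h.at2 m (hb' hy)), (h.sol n).eqn y (hb' hy),
        (h.sol m).eqn y (hb' hy)]
      have := h2 n ((le_max_right _ _).trans hn) m ((le_max_right _ _).trans hm) y (hb hy)
      rw [Real.norm_eq_abs] at this
      rw [abs_sub_comm] at this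
      convert this using 2
      ring)
  have hxΩ : x ∈ Ω := hb' (Metric.mem_ball_self (by positivity))
  have h4 : fderiv ℝ (fun y => u n y - u m y) x = fderiv ℝ (u n) x - fderiv ℝ (u m) x :=
    ((((h.at2 n hxΩ).differentiableAt (by norm_num)).hasFDerivAt).sub
      (((h.at2 m hxΩ).differentiableAt (by norm_num)).hasFDerivAt)).fderiv
  rw [h4] at h3
  refine h3.trans (le_of_eq ?_)
  have e : 2 * (ε / K) / (R / 16) + R / 16 * (ε / K) / 2 = ε / K * K := by
    rw [hK]; ring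
  rw [e]
  field_simp

lemma uc_grad_rhs {x₀ : ℂ} {R : ℝ} (hR : 0 < R) (hsub : Metric.ball x₀ R ⊆ Ω) :
    UC (fun n x => (lam n * f' (u n x)) • fderiv ℝ (u n) x) (Metric.ball x₀ (R / 8)) := by
  obtain ⟨L, hL0, hL⟩ := h.grad_bound hR hsub
  have hb1 : Metric.ball x₀ (R / 8) ⊆ Metric.ball x₀ (R / 4) := Metric.ball_subset_ball (by linarith)
  have hb2 : Metric.ball x₀ (R / 8) ⊆ Metric.ball x₀ (R / 2) := Metric.ball_subset_ball (by linarith)
  have h1 : UC (fun n x => lam n * f' (u n x)) (Metric.ball x₀ (R / 8)) := by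
    refine (h.uc_pair _ ((h.uc0 hR hsub).mono hb1)).comp (G := fun p : ℝ × ℝ => p.1 * f' p.2)
      (isCompact_Icc.prod isCompact_Icc) ?_ fun n x _ => h.pair_mem n x
    exact continuous_fst.continuousOn.mul
      (h.hf.cont'.comp continuous_snd.continuousOn fun p hp => h.Icc_sub hp.2)
  have hc : 1 - c ∈ Icc 0 (1 - c) := ⟨by linarith [h.c_le_one], le_rfl⟩
  have hf'c := h.hf.nonneg' _ (h.Icc_sub hc)
  have hlS : 0 < lamS := (h.lam_pos 0).trans_le (h.lam_le 0)
  refine h1.smul (h.uc1 hR hsub) (A := lamS * f' (1 - c) + 1) (B := L + 1) (by positivity)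
    (by positivity) (fun n x hx => ?_) (fun n x hx => (hL n x (hb2 hx)).trans (by linarith))
  have h2 := h.hf.nonneg' _ (h.Icc_sub (h.mem_Icc' n x))
  have h3 := h.hf.mono' (h.Icc_sub (h.mem_Icc' n x)) (h.Icc_sub hc) (h.mem_Icc' n x).2
  rw [abs_of_nonneg (mul_nonneg (h.lam_pos n).le h2)]
  have h4 : lam n * f' (u n x) ≤ lamS * f' (1 - c) :=
    mul_le_mul (h.lam_le n) h3 h2 hlS.le
  linarith

lemma uc2 {x₀ : ℂ} {R : ℝ} (hR : 0 < R) (hsub : Metric.ball x₀ R ⊆ Ω) :
    UC (fun n => fderiv ℝ (fderiv ℝ (u n))) (Metric.ball x₀ (R / 16)) := by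
  intro ε hε
  set K : ℝ := 2 / (R / 48) + R / 48 / 2 with hK
  have hK0 : 0 < K := by positivity
  obtain ⟨n₀, h1⟩ := h.uc1 hR hsub (ε / K) (by positivity)
  obtain ⟨n₁, h2⟩ := h.uc_grad_rhs hR hsub (ε / K) (by positivity)
  refine ⟨max n₀ n₁, fun n hn m hm x hx => ?_⟩
  have hb : Metric.ball x (3 * (R / 48)) ⊆ Metric.ball x₀ (R / 8) := by
    refine Metric.ball_subset_ball' ?_
    rw [Metric.mem_ball] at hx
    linarith
  have hb' : Metric.ball x (3 * (R / 48)) ⊆ Ω :=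
    hb.trans ((Metric.ball_subset_ball (by linarith)).trans hsub)
  have hd : ∀ y ∈ Ω, HasFDerivAt (fun y => u n y - u m y)
      (fderiv ℝ (u n) y - fderiv ℝ (u m) y) y := fun y hy =>
    ((((h.at2 n hy).differentiableAt (by norm_num)).hasFDerivAt).sub
      (((h.at2 m hy).differentiableAt (by norm_num)).hasFDerivAt))
  have h3 := hess_est (v := fun y => u n y - u m y) (x₀ := x) (d := R / 48) (M := ε / K)
    (N := ε / K) (by positivity)
    (fun y hy => ((h.at2 n (hb' hy)).sub (h.at2 m (hb' hy))).contDiffWithinAt)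
    (fun y hy => by
      rw [(hd y (hb' hy)).fderiv]
      exact h1 n ((le_max_left _ _).trans hn) m ((le_max_left _ _).trans hm) y (hb hy))
    (fun y hy z hz => by
      rw [lap_sub (h.at2 n (hb' hy)) (h.at2 m (hb' hy)),
        lap_sub (h.at2 n (hb' hz)) (h.at2 m (hb' hz))]
      have h5 : ∀ w ∈ Metric.ball x (3 * (R / 48)),
          HasFDerivWithinAt (fun y => lap (u n) y - lap (u m) y)
          (-((lam n * f' (u n w)) • fderiv ℝ (u n) w) -
            -((lam m * f' (u m w)) • fderiv ℝ (u m) w)) (Metric.ball x (3 * (R / 48))) w := by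
        intro w hw
        exact ((h.rhs_hasFDerivAt n (hb' hw)).sub (h.rhs_hasFDerivAt m (hb' hw))).hasFDerivWithinAt
      have h6 := (convex_ball x (3 * (R / 48))).norm_image_sub_le_of_norm_hasFDerivWithin_le
        (C := ε / K) h5 (fun w hw => by
          have := h2 n ((le_max_right _ _).trans hn) m ((le_max_right _ _).trans hm) w (hb hw)
          rw [norm_sub_rev] at this
          rw [neg_sub_neg]
          exact this) hz hy
      rw [Real.norm_eq_abs] at h6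
      exact h6) (by positivity)
  have hxΩ : x ∈ Ω := hb' (Metric.mem_ball_self (by positivity))
  have h4 : fderiv ℝ (fderiv ℝ fun y => u n y - u m y) x =
      fderiv ℝ (fderiv ℝ (u n)) x - fderiv ℝ (fderiv ℝ (u m)) x := by
    have h5 : fderiv ℝ (fun y => u n y - u m y) =ᶠ[𝓝 x]
        fun y => fderiv ℝ (u n) y - fderiv ℝ (u m) y := by
      filter_upwards [h.hΩ.mem_nhds hxΩ] with y hy
      exact (hd y hy).fderiv
    rw [h5.fderiv_eq]
    exact (((differentiableAt_fderiv (h.at2 n hxΩ)).hasFDerivAt).sub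
      ((differentiableAt_fderiv (h.at2 m hxΩ)).hasFDerivAt)).fderiv
  rw [h4] at h3
  refine h3.trans (le_of_eq ?_)
  have e : 2 * (ε / K) / (R / 48) + R / 48 * (ε / K) / 2 = ε / K * K := by
    rw [hK]; ring
  rw [e]
  field_simp

/-- comparison with a multiple of the first solution. -/
lemma le_mul_first (n : ℕ) (x : ℂ) : u n x ≤ lamS * f (1 - c) / lam 0 * u 0 x := by
  have hl0 := h.lam_pos 0
  have hlS : 0 < lamS := hl0.trans_le (h.lam_le 0)
  have hc : 1 - c ∈ Icc 0 (1 - c) := ⟨by linarith [h.c_le_one], le_rfl⟩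
  have hfc := h.hf.one_le (h.Icc_sub hc)
  set K : ℝ := lamS * f (1 - c) / lam 0 with hK
  have hK0 : 0 ≤ K := by positivity
  by_cases hx : x ∈ Ω
  · have h1 := min_principle h.hΩ h.hΩb (w := fun y => K * u 0 y - u n y)
      ((continuous_const.mul (h.sol 0).cont).sub (h.sol n).cont).continuousOn
      (fun y hy => (contDiffAt_const.mul (h.at2 0 hy)).sub (h.at2 n hy))
      (fun y hy => by
        rw [lap_sub (contDiffAt_const.mul (h.at2 0 hy)) (h.at2 n hy), lap_const_mul (h.at2 0 hy),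
          (h.sol 0).eqn y hy]
        have h2 := (abs_le.1 (h.lap_abs_le n hy)).1
        have h3 := h.hf.one_le (h.Icc_sub (h.mem_Icc' 0 y))
        have h4 : K * lam 0 = lamS * f (1 - c) := by rw [hK]; field_simp
        have h5 : K * lam 0 ≤ K * lam 0 * f (u 0 y) :=
          le_mul_of_one_le_right (by positivity) h3
        have e : K * -(lam 0 * f (u 0 y)) = -(K * lam 0 * f (u 0 y)) := by ring
        rw [e]
        linarith)
      (fun y _ hy => by rw [(h.sol 0).zero y hy, (h.sol n).zero y hy]; simp)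
      x (subset_closure hx)
    linarith
  · rw [(h.sol 0).zero x hx, (h.sol n).zero x hx]; simp

/-- **The limit is a solution.** -/
theorem limit_sol : Sol Ω f lamS uS := by
  have hball : ∀ x ∈ Ω, ∃ R, 0 < R ∧ Metric.ball x R ⊆ Ω := fun x hx =>
    Metric.isOpen_iff.1 h.hΩ x hx
  -- first derivatives
  have hex1 : ∀ x : ℂ, ∃ p : ℂ →L[ℝ] ℝ, x ∈ Ω →
      Tendsto (fun n => fderiv ℝ (u n) x) atTop (𝓝 p) := by
    intro x
    by_cases hx : x ∈ Ω
    · obtain ⟨R, hR, hsub⟩ := hball x hx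
      have h1 := (UC.iff.1 (h.uc1 hR hsub)).cauchySeq (Metric.mem_ball_self (by positivity))
      obtain ⟨p, hp⟩ := cauchySeq_tendsto_of_complete h1
      exact ⟨p, fun _ => hp⟩
    · exact ⟨0, fun h' => absurd h' hx⟩
  choose G1 hG1 using hex1
  have hex2 : ∀ x : ℂ, ∃ p : ℂ →L[ℝ] ℂ →L[ℝ] ℝ, x ∈ Ω →
      Tendsto (fun n => fderiv ℝ (fderiv ℝ (u n)) x) atTop (𝓝 p) := by
    intro x
    by_cases hx : x ∈ Ω
    · obtain ⟨R, hR, hsub⟩ := hball x hx
      have h1 := (UC.iff.1 (h.uc2 hR hsub)).cauchySeq (Metric.mem_ball_self (by positivity))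
      obtain ⟨p, hp⟩ := cauchySeq_tendsto_of_complete h1
      exact ⟨p, fun _ => hp⟩
    · exact ⟨0, fun h' => absurd h' hx⟩
  choose G2 hG2 using hex2
  have hd1 : ∀ x ∈ Ω, HasFDerivAt uS (G1 x) x := by
    intro x hx
    obtain ⟨R, hR, hsub⟩ := hball x hx
    have hb : Metric.ball x (R / 8) ⊆ Ω := (Metric.ball_subset_ball (by linarith)).trans hsub
    have h1 : TendstoUniformlyOn (fun n => fderiv ℝ (u n)) G1 atTop (Metric.ball x (R / 8)) :=
      (UC.iff.1 (h.uc1 hR hsub)).tendstoUniformlyOn_of_tendsto fun y hy => hG1 y (hb hy)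
    exact hasFDerivAt_of_tendstoUniformlyOn Metric.isOpen_ball h1
      (fun n y hy => ((h.at2 n (hb hy)).differentiableAt (by norm_num)).hasFDerivAt)
      (fun y _ => h.lim y) (Metric.mem_ball_self (by positivity))
  have hu2 : ∀ x (hx : x ∈ Ω), ∃ R, 0 < R ∧ Metric.ball x (R / 16) ⊆ Ω ∧
      TendstoUniformlyOn (fun n => fderiv ℝ (fderiv ℝ (u n))) G2 atTop
        (Metric.ball x (R / 16)) := by
    intro x hx
    obtain ⟨R, hR, hsub⟩ := hball x hx
    have hb : Metric.ball x (R / 16) ⊆ Ω := (Metric.ball_subset_ball (by linarith)).trans hsub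
    exact ⟨R, hR, hb,
      (UC.iff.1 (h.uc2 hR hsub)).tendstoUniformlyOn_of_tendsto fun y hy => hG2 y (hb hy)⟩
  have hd2 : ∀ x ∈ Ω, HasFDerivAt G1 (G2 x) x := by
    intro x hx
    obtain ⟨R, hR, hb, h1⟩ := hu2 x hx
    exact hasFDerivAt_of_tendstoUniformlyOn Metric.isOpen_ball h1
      (fun n y hy => (differentiableAt_fderiv (h.at2 n (hb hy))).hasFDerivAt)
      (fun y hy => hG1 y (hb hy)) (Metric.mem_ball_self (by positivity))
  have hc2 : ContinuousOn G2 Ω := by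
    intro x hx
    obtain ⟨R, hR, hb, h1⟩ := hu2 x hx
    have h2 : ContinuousOn G2 (Metric.ball x (R / 16)) := by
      refine h1.continuousOn (Frequently.of_forall fun n => ?_)
      have h3 : ContDiffOn ℝ 1 (fderiv ℝ (u n)) Ω :=
        (h.sol n).c2.fderiv_of_isOpen h.hΩ (by norm_num)
      exact (h3.continuousOn_fderiv_of_isOpen h.hΩ (by norm_num)).mono hb
    exact (h2.continuousAt (Metric.ball_mem_nhds x (by positivity))).continuousWithinAt
  have hcd1 : ContDiffOn ℝ 1 G1 Ω := by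
    have : (1 : WithTop ℕ∞) = 0 + 1 := by norm_num
    rw [this, contDiffOn_succ_iff_fderiv_of_isOpen h.hΩ]
    refine ⟨fun x hx => (hd2 x hx).differentiableAt.differentiableWithinAt, by simp, ?_⟩
    rw [contDiffOn_zero]
    exact hc2.congr fun x hx => (hd2 x hx).fderiv
  have hcd2 : ContDiffOn ℝ 2 uS Ω := by
    have : (2 : WithTop ℕ∞) = 1 + 1 := by norm_num
    rw [this, contDiffOn_succ_iff_fderiv_of_isOpen h.hΩ]
    refine ⟨fun x hx => (hd1 x hx).differentiableAt.differentiableWithinAt, by simp, ?_⟩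
    exact hcd1.congr fun x hx => (hd1 x hx).fderiv
  have hmem : ∀ x, uS x ∈ Icc 0 (1 - c) := fun x =>
    isClosed_Icc.mem_of_tendsto (h.lim x) (Eventually.of_forall fun n => h.mem_Icc' n x)
  have hzero : ∀ x, x ∉ Ω → uS x = 0 := by
    intro x hx
    have h1 : Tendsto (fun n => u n x) atTop (𝓝 0) := by
      have : (fun n => u n x) = fun _ => 0 := by ext n; exact (h.sol n).zero x hx
      rw [this]; exact tendsto_const_nhds
    exact tendsto_nhds_unique (h.lim x) h1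
  have hle : ∀ x, uS x ≤ lamS * f (1 - c) / lam 0 * u 0 x := fun x =>
    le_of_tendsto (h.lim x) (Eventually.of_forall fun n => h.le_mul_first n x)
  refine ⟨hcd2, ?_, hzero, fun x => (hmem x).1, fun x => ?_, ?_⟩
  · rw [continuous_iff_continuousAt]
    intro x
    by_cases hx : x ∈ Ω
    · exact hcd2.continuousOn.continuousAt (h.hΩ.mem_nhds hx)
    · have h1 : Tendsto (fun y => lamS * f (1 - c) / lam 0 * u 0 y) (𝓝 x) (𝓝 (uS x)) := by
        have h2 : Continuous fun y => lamS * f (1 - c) / lam 0 * u 0 y :=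
          continuous_const.mul (h.sol 0).cont
        have h3 := h2.tendsto x
        rw [(h.sol 0).zero x hx, mul_zero] at h3
        rwa [hzero x hx]
      have h4 : Tendsto (fun _ : ℂ => (0 : ℝ)) (𝓝 x) (𝓝 (uS x)) := by
        rw [hzero x hx]; exact tendsto_const_nhds
      exact tendsto_of_tendsto_of_tendsto_of_le_of_le h4 h1 (fun y => (hmem y).1) hle
  · have := (hmem x).2
    linarith [h.c_pos]
  · intro x hx
    have h1 : Tendsto (fun n => lap (u n) x) atTop (𝓝 (lap uS x)) := by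
      have e1 : ∀ n, lap (u n) x = (fderiv ℝ (fderiv ℝ (u n)) x 1) 1 +
          (fderiv ℝ (fderiv ℝ (u n)) x Complex.I) Complex.I := fun n => by
        unfold lap; rw [dd_eq (h.at2 n hx), dd_eq (h.at2 n hx)]
      have hcat : ContDiffAt ℝ 2 uS x := hcd2.contDiffAt (h.hΩ.mem_nhds hx)
      have e2 : fderiv ℝ (fderiv ℝ uS) x = G2 x := by
        have h5 : fderiv ℝ uS =ᶠ[𝓝 x] G1 := by
          filter_upwards [h.hΩ.mem_nhds hx] with y hy
          exact (hd1 y hy).fderiv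
        rw [h5.fderiv_eq]
        exact (hd2 x hx).fderiv
      have e3 : lap uS x = (G2 x 1) 1 + (G2 x Complex.I) Complex.I := by
        unfold lap; rw [dd_eq hcat, dd_eq hcat, e2]
      simp only [e1]
      rw [e3]
      have h6 := hG2 x hx
      have h7 : ∀ v : ℂ, Tendsto (fun n => (fderiv ℝ (fderiv ℝ (u n)) x v) v) atTop
          (𝓝 ((G2 x v) v)) := fun v =>
        ((ContinuousLinearMap.apply ℝ ℝ v).continuous.tendsto _).comp
          (((ContinuousLinearMap.apply ℝ (ℂ →L[ℝ] ℝ) v).continuous.tendsto _).comp h6)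
      exact (h7 1).add (h7 Complex.I)
    have h2 : Tendsto (fun n => lap (u n) x) atTop (𝓝 (-(lamS * f (uS x)))) := by
      have e1 : ∀ n, lap (u n) x = -(lam n * f (u n x)) := fun n => (h.sol n).eqn x hx
      simp only [e1]
      refine (h.lam_lim.mul ?_).neg
      have h3 : ContinuousWithinAt f (Icc 0 (1 - c)) (uS x) :=
        (h.hf.cont.mono h.Icc_sub) _ (hmem x)
      exact h3.tendsto.comp (tendsto_nhdsWithin_iff.2 ⟨h.lim x,
        Eventually.of_forall fun n => h.mem_Icc' n x⟩)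
    exact tendsto_nhds_unique h1 h2

end Seq

end Pool.Agent.Helper86.Mems
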