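import Pool.Agent.Helper86.Mems.Bound
import Pool.Agent.Helper86.Mems.Limit

/-!
# Regularity of the extremal solution, on subsets of the complex plane
-/

set_option autoImplicit false
set_option maxHeartbeats 4000000

open Filter Topology MeasureTheory Set

namespace Pool.Agent.Helper86.Mems

variable {Ω : Set ℂ} {f f' : ℝ → ℝ}

/-- The pointwise increasing limit of a monotone branch of solutions is a solution. -/
theorem extremal_sol (hf : Nonlin f f') (hΩ : IsOpen Ω) (hΩb : Bornology.IsBounded Ω) {lamS : ℝ}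
    (hS : 0 < lamS) {u : ℝ → ℂ → ℝ} (hu : ∀ lam ∈ Ioo 0 lamS, Sol Ω f lam (u lam))
    (hmono : ∀ lam mu, 0 < lam → lam ≤ mu → mu < lamS → ∀ x, u lam x ≤ u mu x) {uS : ℂ → ℝ}
    (hlim : ∀ x, Tendsto (fun lam => u lam x) (𝓝[<] lamS) (𝓝 (uS x))) :
    Sol Ω f lamS uS ∧ ∃ c > 0, ∀ x, uS x ≤ 1 - c := by
  obtain ⟨c, hc, hbd⟩ := uniform_bound hf hΩ hΩb (lam₀ := lamS / 2) (lamS := lamS) (by positivity)
    (by linarith)
  set lam : ℕ → ℝ := fun n => lamS - lamS / (n + 2) with hlam
  have hpos : ∀ n : ℕ, 0 < lamS / ((n : ℝ) + 2) := fun n => by positivity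
  have hhalf : ∀ n : ℕ, lamS / ((n : ℝ) + 2) ≤ lamS / 2 := fun n => by
    have : (0 : ℝ) ≤ n := Nat.cast_nonneg n
    gcongr
    linarith
  have hlt : ∀ n, lam n < lamS := fun n => by simp only [hlam]; linarith [hpos n]
  have hge : ∀ n, lamS / 2 ≤ lam n := fun n => by simp only [hlam]; linarith [hhalf n]
  have hlam0 : ∀ n, 0 < lam n := fun n => by linarith [hge n]
  have hlmono : Monotone lam := by
    intro m n hmn
    simp only [hlam]
    have : (m : ℝ) ≤ n := by exact_mod_cast hmn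
    have h1 : lamS / ((n : ℝ) + 2) ≤ lamS / ((m : ℝ) + 2) := by gcongr
    linarith
  have hllim : Tendsto lam atTop (𝓝 lamS) := by
    have h1 : Tendsto (fun n : ℕ => lamS / ((n : ℝ) + 2)) atTop (𝓝 0) := by
      refine Tendsto.div_atTop tendsto_const_nhds ?_
      exact tendsto_atTop_add_const_right _ _ tendsto_natCast_atTop_atTop
    have h2 := (tendsto_const_nhds (x := lamS)).sub h1
    simpa using h2
  have hllim' : Tendsto lam atTop (𝓝[<] lamS) :=
    tendsto_nhdsWithin_iff.2 ⟨hllim, Eventually.of_forall hlt⟩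
  have hbound : ∀ n x, u (lam n) x ≤ 1 - c := by
    intro n x
    have h1 : lam n < (lam n + lamS) / 2 := by linarith [hlt n]
    have h2 : (lam n + lamS) / 2 < lamS := by linarith [hlt n]
    exact hbd (lam n) ((lam n + lamS) / 2) (u (lam n)) (u ((lam n + lamS) / 2))
      (hu _ ⟨hlam0 n, hlt n⟩) (hu _ ⟨(hlam0 n).trans h1, h2⟩) (hge n) (hlt n).le h1
      (hmono _ _ (hlam0 n) h1.le h2) x
  have hseq : Seq Ω f f' lamS c lam (fun n => u (lam n)) uS :=
    { hf := hf, hΩ := hΩ, hΩb := hΩb, lam_pos := hlam0, lam_le := fun n => (hlt n).le,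
      lam_lim := hllim, sol := fun n => hu _ ⟨hlam0 n, hlt n⟩,
      mono := fun x m n hmn => hmono _ _ (hlam0 m) (hlmono hmn) (hlt n) x,
      c_pos := hc, bound := hbound, lim := fun x => (hlim x).comp hllim' }
  refine ⟨hseq.limit_sol, c, hc, fun x => ?_⟩
  exact le_of_tendsto (hseq.lim x) (Eventually.of_forall fun n => hbound n x)

end Pool.Agent.Helper86.Mems
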