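import Pool.Agent.Helper86.Mems.Stability

/-!
# Circular mean inequality for solutions extended by zero
-/

set_option autoImplicit false

open Filter Topology MeasureTheory Set

namespace Pool.Agent.Helper86.Mems

/-- smooth cut-off, `0` for `s ≤ δ`, `1` for `s ≥ 2δ`. -/
noncomputable def cut (δ : ℝ) (s : ℝ) : ℝ := Real.smoothTransition (s / δ - 1)

/-- convex truncation. -/
noncomputable def beta (δ : ℝ) (t : ℝ) : ℝ := ∫ s in (0 : ℝ)..t, cut δ s

section beta
variable {δ : ℝ}

lemma cut_contDiff : ContDiff ℝ 1 (cut δ) := by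
  unfold cut
  exact Real.smoothTransition.contDiff.comp ((contDiff_id.div_const δ).sub contDiff_const)

lemma cut_continuous : Continuous (cut δ) := cut_contDiff.continuous

lemma cut_nonneg (s : ℝ) : 0 ≤ cut δ s := Real.smoothTransition.nonneg _

lemma cut_le_one (s : ℝ) : cut δ s ≤ 1 := Real.smoothTransition.le_one _

lemma cut_eq_zero (hδ : 0 < δ) {s : ℝ} (hs : s ≤ δ) : cut δ s = 0 := by
  unfold cut
  apply Real.smoothTransition.zero_of_nonpos
  have : s / δ ≤ 1 := by rw [div_le_one hδ]; exact hs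
  linarith

lemma cut_eq_one (hδ : 0 < δ) {s : ℝ} (hs : 2 * δ ≤ s) : cut δ s = 1 := by
  unfold cut
  apply Real.smoothTransition.one_of_one_le
  have : 2 ≤ s / δ := by rw [le_div_iff₀ hδ]; exact hs
  linarith

lemma cut_mono (hδ : 0 < δ) : Monotone (cut δ) := by
  intro s t hst
  unfold cut
  apply Real.smoothTransition.monotone
  have : s / δ ≤ t / δ := by gcongr
  linarith

lemma beta_hasDerivAt (t : ℝ) : HasDerivAt (beta δ) (cut δ t) t :=
  intervalIntegral.integral_hasDerivAt_right (cut_continuous.intervalIntegrable _ _)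
    (cut_continuous.stronglyMeasurableAtFilter _ _) cut_continuous.continuousAt

lemma beta_contDiff : ContDiff ℝ 2 (beta δ) := by
  rw [show (2 : WithTop ℕ∞) = 1 + 1 by norm_num, contDiff_succ_iff_deriv]
  refine ⟨fun t => (beta_hasDerivAt t).differentiableAt, by simp, ?_⟩
  have : deriv (beta δ) = cut δ := funext fun t => (beta_hasDerivAt t).deriv
  rw [this]
  exact cut_contDiff

lemma beta_eq_zero (hδ : 0 < δ) {t : ℝ} (ht : t ≤ δ) : beta δ t = 0 := by
  unfold beta
  rw [intervalIntegral.integral_congr (g := fun _ => (0 : ℝ))]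
  · simp
  · intro s hs
    have : s ≤ δ := by
      rw [mem_uIcc] at hs
      rcases hs with hs | hs <;> linarith [hs.2]
    simp [cut_eq_zero hδ this]

lemma beta_le {t : ℝ} (ht : 0 ≤ t) : beta δ t ≤ t := by
  have h := intervalIntegral.integral_mono_on (μ := volume) ht
    (cut_continuous (δ := δ).intervalIntegrable 0 t)
    (intervalIntegrable_const (c := (1 : ℝ))) fun s _ => cut_le_one s
  unfold beta
  simpa using h

lemma le_beta (hδ : 0 < δ) {t : ℝ} (ht : 0 ≤ t) : t - 2 * δ ≤ beta δ t := by
  rcases le_total t (2 * δ) with h | h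
  · have : 0 ≤ beta δ t := intervalIntegral.integral_nonneg ht fun s _ => cut_nonneg s
    linarith
  · have h1 : beta δ t = beta δ (2 * δ) + ∫ s in (2 * δ)..t, cut δ s := by
      unfold beta
      rw [intervalIntegral.integral_add_adjacent_intervals
        (cut_continuous.intervalIntegrable _ _) (cut_continuous.intervalIntegrable _ _)]
    have h2 : 0 ≤ beta δ (2 * δ) :=
      intervalIntegral.integral_nonneg (by linarith) fun s _ => cut_nonneg s
    have h3 : ∫ s in (2 * δ)..t, cut δ s = t - 2 * δ := by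
      rw [intervalIntegral.integral_congr (g := fun _ => (1 : ℝ))]
      · simp
      · intro s hs
        rw [uIcc_of_le h] at hs
        exact cut_eq_one hδ hs.1
    linarith

end beta

variable {Ω : Set ℂ} {f f' : ℝ → ℝ} {lam : ℝ} {u : ℂ → ℝ}

/-- second directional derivative of a composition. -/
lemma dd_comp {φ : ℝ → ℝ} (hφ : ContDiff ℝ 2 φ) {x : ℂ} (hu : ContDiffAt ℝ 2 u x) (v : ℂ) :
    dd (fun y => φ (u y)) v x =
      deriv φ (u x) * dd u v x + deriv (deriv φ) (u x) * (fderiv ℝ u x v) ^ 2 := by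
  have hev : ∀ᶠ y in 𝓝 x, ContDiffAt ℝ 2 u y := hu.eventually (by simp)
  have hdφ : ContDiff ℝ 1 (deriv φ) := by
    have := (contDiff_succ_iff_deriv (n := 1) (f := φ)).1 (by
      rw [show (1 : WithTop ℕ∞) + 1 = 2 by norm_num]; exact hφ)
    exact this.2.2
  have h1 : (fun y => fderiv ℝ (fun z => φ (u z)) y v) =ᶠ[𝓝 x]
      fun y => deriv φ (u y) * fderiv ℝ u y v := by
    filter_upwards [hev] with y hy
    have h2 := ((hφ.differentiable (by norm_num)) (u y)).hasDerivAt.comp_hasFDerivAt y
      (hy.differentiableAt (by norm_num)).hasFDerivAt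
    have h3 : fderiv ℝ (fun z => φ (u z)) y = deriv φ (u y) • fderiv ℝ u y := h2.fderiv
    rw [h3]; simp
  unfold dd
  rw [h1.fderiv_eq]
  have h4 : HasFDerivAt (fun y => deriv φ (u y)) (deriv (deriv φ) (u x) • fderiv ℝ u x) x :=
    ((hdφ.differentiable (by norm_num)) (u x)).hasDerivAt.comp_hasFDerivAt x
      (hu.differentiableAt (by norm_num)).hasFDerivAt
  have h5 : DifferentiableAt ℝ (fun y => fderiv ℝ u y v) x :=
    (differentiableAt_fderiv hu).clm_apply (differentiableAt_const v)
  have h6 : fderiv ℝ (fun y => deriv φ (u y) * fderiv ℝ u y v) x = _ :=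
    (h4.mul h5.hasFDerivAt).fderiv
  rw [h6]
  simp only [add_apply, smul_apply, smul_eq_mul]
  ring

/-- the truncated function is `C^2` on the plane and almost a subsolution. -/
lemma trunc (hf : Nonlin f f') (hΩ : IsOpen Ω) (hu : Sol Ω f lam u) (hlam : 0 ≤ lam)
    {δ : ℝ} (hδ : 0 < δ) :
    ContDiff ℝ 2 (fun x => beta δ (u x)) ∧
      ∀ x, -(lam * f (u x)) ≤ lap (fun x => beta δ (u x)) x := by
  have hloc : ∀ x, u x < δ → (fun x => beta δ (u x)) =ᶠ[𝓝 x] fun _ => 0 := by
    intro x hx
    filter_upwards [hu.cont.continuousAt.eventually_lt continuousAt_const hx] with y hy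
    exact beta_eq_zero hδ (le_of_lt hy)
  have hmem : ∀ x, δ ≤ u x → x ∈ Ω := fun x hx => hu.superlevel_subset hδ hx
  constructor
  · rw [contDiff_iff_contDiffAt]
    intro x
    rcases lt_or_ge (u x) δ with h | h
    · exact contDiffAt_const.congr_of_eventuallyEq (hloc x h)
    · exact beta_contDiff.contDiffAt.comp x (hu.c2At hΩ (hmem x h))
  · intro x
    have hF : 0 ≤ lam * f (u x) :=
      mul_nonneg hlam (zero_le_one.trans (hf.one_le (hu.mem_Ico x)))
    rcases lt_or_ge (u x) δ with h | h
    · have h1 : lap (fun x => beta δ (u x)) x = 0 := by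
        rw [← lap_eq (contDiffAt_const.congr_of_eventuallyEq (hloc x h)),
          InnerProductSpace.laplacian_congr_nhds (hloc x h) |>.eq_of_nhds]
        simp
      rw [h1]; linarith
    · have hx := hmem x h
      have hc := hu.c2At hΩ hx
      have hd1 : deriv (beta δ) = cut δ := funext fun t => (beta_hasDerivAt t).deriv
      have hd2 : 0 ≤ deriv (deriv (beta δ)) (u x) := by
        rw [hd1]; exact (cut_mono hδ).deriv_nonneg
      unfold lap
      rw [dd_comp beta_contDiff hc, dd_comp beta_contDiff hc]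
      have e := hu.eqn x hx
      unfold lap at e
      have h3 := cut_le_one (δ := δ) (u x)
      have h4 := cut_nonneg (δ := δ) (u x)
      rw [hd1] at hd2 ⊢
      have h5 : cut δ (u x) * (lam * f (u x)) ≤ lam * f (u x) := mul_le_of_le_one_left hF h3
      have e2 : dd u Complex.I x = -(lam * f (u x)) - dd u 1 x := by linarith
      rw [e2]
      nlinarith [mul_nonneg hd2 (sq_nonneg (fderiv ℝ u x 1)),
        mul_nonneg hd2 (sq_nonneg (fderiv ℝ u x Complex.I))]

/-- `k(ρ) = ρ ∫_0^1 σ c(σ ρ) dσ`, so that `ρ k(ρ) = ∫_0^ρ s c(s) ds`. -/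
noncomputable def kfun (c : ℝ → ℝ) (ρ : ℝ) : ℝ := ρ * ∫ σ in (0 : ℝ)..1, σ * c (σ * ρ)

lemma mul_kfun (c : ℝ → ℝ) (ρ : ℝ) : ρ * kfun c ρ = ∫ s in (0 : ℝ)..ρ, s * c s := by
  have h := intervalIntegral.mul_integral_comp_mul_right (f := fun s => s * c s) (a := 0) (b := 1) ρ
  simp only [zero_mul, one_mul] at h
  rw [← h]
  unfold kfun
  rw [← intervalIntegral.integral_const_mul, ← intervalIntegral.integral_const_mul,
    ← intervalIntegral.integral_const_mul]
  refine intervalIntegral.integral_congr fun σ _ => ?_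
  ring

lemma kfun_continuous {c : ℝ → ℝ} (hc : Continuous c) : Continuous (kfun c) := by
  unfold kfun
  refine continuous_id.mul ?_
  exact continuous_param (F := fun ρ σ => σ * c (σ * ρ)) (by
    simp only [Function.uncurry_def]; fun_prop) 0 1

/-- **Circular mean inequality.** -/
theorem circ_lower (hf : Nonlin f f') (hΩ : IsOpen Ω) (hu : Sol Ω f lam u) (hlam : 0 ≤ lam)
    (x₀ : ℂ) {r : ℝ} (hr : 0 ≤ r) :
    2 * Real.pi * u x₀ - ∫ ρ in (0 : ℝ)..r, kfun (circ (fun x => lam * f (u x)) x₀) ρ ≤
      circ u x₀ r := by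
  set F : ℂ → ℝ := fun x => lam * f (u x) with hF
  have hFc : Continuous F := continuous_const.mul (hu.comp_continuous hf.cont)
  have hcF := circ_continuous hFc x₀
  have huv := uv_continuous
  refine le_of_forall_pos_le_add fun ε hε => ?_
  set δ : ℝ := ε / (4 * Real.pi) with hδdef
  have hpi := Real.pi_pos
  have hδ : 0 < δ := by positivity
  obtain ⟨hv, hlap⟩ := trunc hf hΩ hu hlam hδ
  set v : ℂ → ℝ := fun x => beta δ (u x) with hvdef
  have hlc := lap_continuous hv
  -- comparison of the Laplacian circle integrals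
  have hc1 : ∀ s, -(circ F x₀ s) ≤ circ (lap v) x₀ s := by
    intro s
    unfold circ
    rw [← intervalIntegral.integral_neg]
    refine intervalIntegral.integral_mono_on (by positivity) ?_ ?_ fun θ _ => hlap _
    · exact Continuous.intervalIntegrable (by fun_prop) _ _
    · exact Continuous.intervalIntegrable (by fun_prop) _ _
  have hD : ∀ ρ, 0 < ρ → -(kfun (circ F x₀) ρ) ≤ circD v x₀ ρ := by
    intro ρ hρ
    have h1 : ρ * (-(kfun (circ F x₀) ρ)) ≤ ρ * circD v x₀ ρ := by
      rw [mul_neg, mul_kfun, mul_circD hv, ← intervalIntegral.integral_neg]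
      refine intervalIntegral.integral_mono_on hρ.le ?_ ?_ fun s hs => ?_
      · exact Continuous.intervalIntegrable (by fun_prop) _ _
      · have := circ_continuous hlc x₀
        exact Continuous.intervalIntegrable (by fun_prop) _ _
      · have := mul_le_mul_of_nonneg_left (hc1 s) hs.1
        linarith
    exact le_of_mul_le_mul_left h1 hρ
  have hkc := kfun_continuous hcF
  have hI : -∫ ρ in (0 : ℝ)..r, kfun (circ F x₀) ρ ≤ ∫ ρ in (0 : ℝ)..r, circD v x₀ ρ := by
    rw [← intervalIntegral.integral_neg]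
    have hdc := circD_continuous (hv.of_le (by norm_num)) x₀
    refine intervalIntegral.integral_mono_on_of_le_Ioo hr
      (Continuous.intervalIntegrable (by fun_prop) _ _)
      (Continuous.intervalIntegrable (by fun_prop) _ _) fun ρ hρ => hD ρ hρ.1
  rw [← circ_sub hv x₀ r] at hI
  have h2 : circ v x₀ r ≤ circ u x₀ r := by
    unfold circ
    have hvc := hv.continuous
    have huc := hu.cont
    refine intervalIntegral.integral_mono_on (by positivity)
      (Continuous.intervalIntegrable (by fun_prop) _ _)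
      (Continuous.intervalIntegrable (by fun_prop) _ _) fun θ _ => beta_le (hu.nonneg _)
  have h3 : u x₀ - 2 * δ ≤ v x₀ := le_beta hδ (hu.nonneg x₀)
  have h4 : 2 * Real.pi * (2 * δ) = ε := by rw [hδdef]; field_simp; norm_num
  nlinarith

end Pool.Agent.Helper86.Mems
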